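import Pool.Agent.Work.MP_bf01b2_co.Fw.StmtsC

/-!
# MP_bf01b2_co, block Fw, item Bou: a Hamiltonian path of the product of two paths
-/

set_option autoImplicit false

namespace Pool.Agent.Work.MP_bf01b2_co.Fw

open Pool.Agent.Work.MP_bf01b2_co.Bd

open Classical

namespace IBou

/-- One row of the product is a chain. -/
theorem row_chain {α β : Type} (R : α → α → Prop) (S : β → β → Prop) (a : α) (l2 : List β)
    (h : l2.IsChain S) : (l2.map fun y => (a, y)).IsChain (Bx R S) := by
  rw [List.isChain_map]
  exact h.imp fun x y hxy => Or.inr ⟨rfl, hxy⟩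

theorem row_nodup {α β : Type} (a : α) (l2 : List β) (h : l2.Nodup) :
    (l2.map fun y => (a, y)).Nodup :=
  h.map fun x y hxy => (Prod.mk.inj hxy).2

theorem row_mem {α β : Type} (a : α) (l2 : List β) (p : α × β) :
    p ∈ (l2.map fun y => (a, y)) ↔ p.1 = a ∧ p.2 ∈ l2 := by
  rw [List.mem_map]
  constructor
  · rintro ⟨y, hy, rfl⟩
    exact ⟨rfl, hy⟩
  · rintro ⟨h1, h2⟩
    exact ⟨p.2, h2, by rw [← h1]⟩

end IBou

open IBou in
theorem pr_Bou : StBou := by
  intro α β R S hR hS l1
  induction l1 with
  | nil =>
    intro l2 a b _ _ h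
    simp at h
  | cons a0 l1' ih =>
    intro l2 a b hn1 hc1 ha hn2 hc2 hb
    have haa : a0 = a := by simpa using ha
    subst haa
    rcases l1' with _ | ⟨a', l1''⟩
    · refine ⟨l2.map fun y => (a0, y), row_nodup a0 l2 hn2, row_chain R S a0 l2 hc2, ?_, ?_, ?_⟩
      · rw [List.head?_map, hb]
        rfl
      · intro p
        rw [row_mem]
        simp
      · simp
    · -- the last element of l2
      obtain ⟨b', hb'⟩ : ∃ b', l2.getLast? = some b' := by
        rcases l2 with _ | ⟨y, l2'⟩
        · simp at hb
        · exact ⟨_, List.getLast?_eq_getLast_of_ne_nil (List.cons_ne_nil y l2')⟩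
      have hn1' := (List.nodup_cons.1 hn1).2
      have hmem := (List.nodup_cons.1 hn1).1
      have hc1' := List.isChain_cons_cons.1 hc1
      have hrev : l2.reverse.IsChain S := by
        rw [List.isChain_reverse]
        exact hc2.imp fun x y hxy => hS x y hxy
      obtain ⟨l', hl1, hl2, hl3, hl4, hl5⟩ := ih l2.reverse a' b' hn1' hc1'.2 rfl
        (List.nodup_reverse.2 hn2) hrev (by rw [List.head?_reverse]; exact hb')
      refine ⟨(l2.map fun y => (a0, y)) ++ l', ?_, ?_, ?_, ?_, ?_⟩
      · rw [List.nodup_append']
        refine ⟨row_nodup a0 l2 hn2, hl1, ?_⟩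
        intro p hp hp'
        rw [row_mem] at hp
        rw [hl4] at hp'
        rw [hp.1] at hp'
        exact hmem hp'.1
      · rw [List.isChain_append]
        refine ⟨row_chain R S a0 l2 hc2, hl2, ?_⟩
        intro x hx y hy
        rw [List.getLast?_map, hb'] at hx
        rw [hl3] at hy
        simp only [Option.map_some, Option.mem_def, Option.some.injEq] at hx hy
        subst hx
        subst hy
        exact Or.inl ⟨hc1'.1, rfl⟩
      · rw [List.head?_append, List.head?_map, hb]
        rfl
      · intro p
        rw [List.mem_append, row_mem, hl4, List.mem_reverse, List.mem_cons (a := p.1) (b := a0)]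
        tauto
      · rw [List.length_append, List.length_map, hl5, List.length_reverse,
          List.length_cons (a := a0), Nat.add_mul, Nat.one_mul, Nat.add_comm]

end Pool.Agent.Work.MP_bf01b2_co.Fw
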