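import Pool.Agent.Work.MP_bf01b2_co.Fw.StmtsD

/-!
Item Br (helper59): a binary tree has more leaves than branch vertices.
-/

set_option autoImplicit false

namespace Pool.Agent.Work.MP_bf01b2_co.Fw

open Pool.Agent.Work.MP_bf01b2_co.Bd

open Classical

namespace IBr

/-- The vertices of `T` whose child `v ++ [e]` is in `T`. -/
noncomputable def A (T : Finset (List Bool)) (e : Bool) : Finset (List Bool) :=
  T.filter fun v => v ++ [e] ∈ T

theorem card_A (T : Finset (List Bool)) : (A T true).card + (A T false).card ≤ T.card := by
  have hinj : ∀ e : Bool, Function.Injective (fun v : List Bool => v ++ [e]) := by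
    intro e u v huv
    exact List.append_cancel_right huv
  have h1 : ∀ e : Bool, ((A T e).image fun v => v ++ [e]).card = (A T e).card := fun e =>
    Finset.card_image_of_injective _ (hinj e)
  have h2 : Disjoint ((A T true).image fun v => v ++ [true])
      ((A T false).image fun v => v ++ [false]) := by
    rw [Finset.disjoint_left]
    intro w hw hw'
    obtain ⟨u, _, hu⟩ := Finset.mem_image.mp hw
    obtain ⟨v, _, hv⟩ := Finset.mem_image.mp hw'
    have h3 : u ++ [true] = v ++ [false] := by rw [hu, hv]
    have h4 := congrArg List.getLast? h3
    simp at h4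
  have h3 : ((A T true).image fun v => v ++ [true]) ∪
      ((A T false).image fun v => v ++ [false]) ⊆ T := by
    intro w hw
    rcases Finset.mem_union.mp hw with h | h
    · obtain ⟨u, hu, rfl⟩ := Finset.mem_image.mp h
      exact (Finset.mem_filter.mp hu).2
    · obtain ⟨u, hu, rfl⟩ := Finset.mem_image.mp h
      exact (Finset.mem_filter.mp hu).2
  have h4 := Finset.card_le_card h3
  rw [Finset.card_union_of_disjoint h2, h1, h1] at h4
  exact h4

end IBr

open IBr in
theorem pr_Br : StBr := by
  intro T _
  have h1 := card_A T
  have h2 := Finset.card_union_add_card_inter (A T true) (A T false)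
  have h3 : A T true ∩ A T false = T.filter fun v => v ++ [true] ∈ T ∧ v ++ [false] ∈ T := by
    ext v
    simp only [A, Finset.mem_inter, Finset.mem_filter]
    tauto
  have h4 : A T true ∪ A T false = T \ lf T := by
    ext v
    simp only [A, lf, Finset.mem_union, Finset.mem_filter, Finset.mem_sdiff, Bool.forall_bool]
    tauto
  have h5 : lf T ⊆ T := Finset.filter_subset _ _
  have h6 := Finset.card_sdiff_add_card_eq_card h5
  rw [h3, h4] at h2
  omega

end Pool.Agent.Work.MP_bf01b2_co.Fw
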