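import Pool.Agent.Work.MP_bf01b2_co.Fw.StmtsL

/-!
# Item CoL : the lossless core
-/

set_option autoImplicit false

namespace Pool.Agent.Work.MP_bf01b2_co.Fw

open Pool.Agent.Work.MP_bf01b2_co.Bd

open Classical

namespace ICoL

/-- The numerical bound of the load. -/
theorem load_bound (τ q K t a W X : ℝ) (hτ : 0 < τ) (hτ1 : τ ≤ 1) (hq : q = τ / 8) (hK : 0 < K)
    (ht : t ≤ (1 - τ) * (K * W)) (ht0 : 0 ≤ t) (hW : 0 ≤ W) (hX : X = 93 / q * a)
    (ha : 186 / (q * τ) * a ≤ W) :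
    (1 + q) ^ 3 * t / K + X ≤ W := by
  have hq0 : 0 < q := by rw [hq]; positivity
  have hX2 : X ≤ τ / 2 * W := by
    have h1 : X = τ / 2 * (186 / (q * τ) * a) := by
      rw [hX]
      field_simp
      ring
    rw [h1]
    exact mul_le_mul_of_nonneg_left ha (by positivity)
  have h3 : (1 + q) ^ 3 ≤ 1 + τ / 2 := by
    have hq8 : q ≤ 1 / 8 := by rw [hq]; linarith
    have hτq : τ = 8 * q := by rw [hq]; ring
    rw [hτq]
    nlinarith [mul_pos hq0 hq0, mul_nonneg hq0.le (sub_nonneg.2 hq8),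
      mul_nonneg (mul_pos hq0 hq0).le (sub_nonneg.2 hq8)]
  have h4 : t / K ≤ (1 - τ) * W := by
    rw [div_le_iff₀ hK]
    calc t ≤ (1 - τ) * (K * W) := ht
      _ = (1 - τ) * W * K := by ring
  have h5 : (1 + q) ^ 3 * t / K ≤ (1 + τ / 2) * ((1 - τ) * W) := by
    rw [mul_div_assoc]
    exact mul_le_mul h3 h4 (by positivity) (by linarith)
  have h6 : 0 ≤ τ ^ 2 * W := by positivity
  nlinarith

end ICoL

theorem pr_CoL (h1 : StPaL) (h2 : StLdL) (h3 : NearP) (h4 : StItL) (h5 : LocP) (h6 : Finish)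
    (h7 : EdgeP) (h8 : EdgeB) : StCoL := by
  intro τ r0 hτ hr0
  by_cases hτ1 : τ ≤ 1
  swap
  · refine ⟨0, r0, ?_⟩
    intro m n _ hn
    refine ⟨hn, ?_⟩
    intro T _ hT
    exfalso
    have hc : (0 : ℝ) ≤ (T.card : ℝ) := Nat.cast_nonneg _
    have hp : (0 : ℝ) < 2 ^ n := by positivity
    push Not at hτ1
    nlinarith
  · set q : ℝ := τ / 8 with hq
    have hq0 : 0 < q := by rw [hq]; positivity
    have hq1 : q ≤ 1 := by rw [hq]; linarith
    obtain ⟨n0, hn0⟩ := h1 q (186 / (q * τ)) r0 hq0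
    refine ⟨2 ^ 10 * ⌊aa r0⌋₊ + 1, n0, ?_⟩
    intro m n hm hn
    obtain ⟨s, B, hs, hB, a1, a2, a3, a4, a5⟩ := hn0 n hn
    refine ⟨by omega, ?_⟩
    intro T hT hcard
    obtain ⟨ω, hω⟩ := h2 q hq0 hq1 s B n T hs (by omega) hT (by omega) a2 a3
    have hpow : (2 : ℝ) ^ n = 2 ^ (7 * s * B) * 2 ^ (n - 7 * s * B) := by
      rw [← pow_add]
      congr 1
      omega
    have hω2 : FibLe T (Bd.P B ω) (2 ^ (n - 7 * s * B)) := by
      intro x
      refine (hω x).trans ?_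
      refine ICoL.load_bound τ q (2 ^ (7 * s * B)) T.card (((B : ℝ) + 1) * (2 * n + 10))
        (2 ^ (n - 7 * s * B)) _ hτ hτ1 hq (by positivity) ?_ (Nat.cast_nonneg _) (by positivity)
        (by ring) ?_
      · rw [← hpow]
        exact hcard
      · calc 186 / (q * τ) * (((B : ℝ) + 1) * (2 * n + 10))
            = 186 / (q * τ) * ((B : ℝ) + 1) * (2 * n + 10) := by ring
          _ ≤ _ := a4
    have hbig : 10 ≤ (B - 2) * (5 * s) := by
      have h9 : 2 * 5 ≤ (B - 2) * (5 * s) := Nat.mul_le_mul (by omega) (by omega)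
      omega
    have hbig2 : 20 * (n - 7 * s * B - r0) ^ 2 ≤ (B - 2) * (5 * s) := by
      refine le_trans ?_ a5
      exact Nat.mul_le_mul_left _ (Nat.pow_le_pow_left (Nat.sub_le _ _) 2)
    obtain ⟨κ, hκ⟩ := h4 s B r0 (n - 7 * s * B) T ω hT hr0 (by omega)
      (h3 s B _ hs (by omega) hbig2 ω T) hω2
    set I := n - 7 * s * B - r0 with hI
    have hloc := h5 s B I hs (by omega) T ω κ hT (h3 s B 10 hs (by omega) hbig ω T)
    obtain ⟨ψ, hψ1, hψ2, hψ3⟩ := h6 _ T (Ph B I ω κ) ⌊aa r0⌋₊ m hT (by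
      intro y e hy _
      have hP : Bd.P B ω (y ++ [e]) = Bd.P B ω y := by
        funext c
        obtain ⟨b1, b2⟩ := h7 s B hs ω y e
        rw [b1 c, b2 (by omega)]
        simp
      unfold Ph
      rw [hP]
      congr 1
      funext c
      by_cases hc : 1 ≤ c ∧ c ≤ I
      · rw [if_pos hc, if_pos hc]
        apply (h8 (fun t => col t = c) (κ c) y e).1
        unfold col
        rw [if_neg (by omega)]
        omega
      · rw [if_neg hc, if_neg hc]) (by
      intro x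
      exact_mod_cast Nat.le_floor (hκ x)) hloc (by omega)
    exact ⟨s, B, I, ω, κ, ψ, hs, by omega, by omega, hκ, hψ1, hψ2, hψ3⟩

end Pool.Agent.Work.MP_bf01b2_co.Fw
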