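import Pool.Agent.Work.MP_bf01b2_co.Fw.StmtsD

/-!
# Trees with few leaves, item Cr: a good block is contracted to one vertex
-/

set_option autoImplicit false

namespace Pool.Agent.Work.MP_bf01b2_co.Fw

open Pool.Agent.Work.MP_bf01b2_co.Bd

open Classical

/-- A good block is contracted to one vertex. -/
theorem pr_Cr (hRt : StRt) (hCsn : StCsn) : StCr := by
  intro H T hH v
  induction v using List.reverseRecOn with
  | nil =>
    intro _
    have h : rt H ([] : List Bool) = [] := by
      unfold rt
      exact List.take_nil
    rw [h]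
  | append_singleton p e ih =>
    intro hg
    obtain ⟨-, -, -, -, h5⟩ := hRt H hH p
    obtain ⟨h6, h7⟩ := h5 e
    by_cases hm : (p.length + 1) % H = 0
    · rw [h7 hm]
    · have h8 := h6 hm
      rw [h8] at hg ⊢
      have hk : ¬ Kp H T p := fun hk => hk ⟨hg, hm⟩
      rw [hCsn.2.1 H T p e, if_neg hk, List.append_nil]
      exact ih hg

end Pool.Agent.Work.MP_bf01b2_co.Fw
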