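import Pool.Agent.Work.MP_bf01b2_co.Fw.StmtsC

/-!
Item Cub: the product of cubes is a cube.
-/

set_option autoImplicit false

namespace Pool.Agent.Work.MP_bf01b2_co.Fw

open Pool.Agent.Work.MP_bf01b2_co.Bd

open Classical

namespace ICub

theorem left {ι κ : Type} {x x' : ι → Bool} (h : A1 x x') (y : κ → Bool) :
    A1 (Sum.elim x y) (Sum.elim x' y) := by
  obtain ⟨i, hi⟩ := h
  refine ⟨Sum.inl i, fun j => ?_⟩
  rcases j with j | j
  · simp only [Sum.elim_inl]
    rw [hi j]
    constructor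
    · rintro rfl
      rfl
    · intro h
      exact Sum.inl.inj h
  · simp only [Sum.elim_inr, ne_eq, not_true_eq_false, false_iff]
    intro h
    cases h

theorem right {ι κ : Type} (x : ι → Bool) {y y' : κ → Bool} (h : A1 y y') :
    A1 (Sum.elim x y) (Sum.elim x y') := by
  obtain ⟨i, hi⟩ := h
  refine ⟨Sum.inr i, fun j => ?_⟩
  rcases j with j | j
  · simp only [Sum.elim_inl, ne_eq, not_true_eq_false, false_iff]
    intro h
    cases h
  · simp only [Sum.elim_inr]
    rw [hi j]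
    constructor
    · rintro rfl
      rfl
    · intro h
      exact Sum.inr.inj h

/-- All coordinates in one function. -/
def flat {k m f g : ℕ} (p : Wh k m f g) : Fin k ⊕ (Fin m ⊕ (Fin f ⊕ (Fin g ⊕ Unit))) → Bool :=
  Sum.elim p.1 (Sum.elim p.2.1.1 (Sum.elim p.2.1.2.1 (Sum.elim p.2.1.2.2 (fun _ => p.2.2))))

theorem flat_inj {k m f g : ℕ} : Function.Injective (flat (k := k) (m := m) (f := f) (g := g)) := by
  rintro ⟨p1, ⟨p2, ⟨p3, p4⟩⟩, p5⟩ ⟨q1, ⟨q2, ⟨q3, q4⟩⟩, q5⟩ h
  have h1 : p1 = q1 := funext fun i => congrFun h (Sum.inl i)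
  have h2 : p2 = q2 := funext fun i => congrFun h (Sum.inr (Sum.inl i))
  have h3 : p3 = q3 := funext fun i => congrFun h (Sum.inr (Sum.inr (Sum.inl i)))
  have h4 : p4 = q4 := funext fun i => congrFun h (Sum.inr (Sum.inr (Sum.inr (Sum.inl i))))
  have h5 : p5 = q5 := congrFun h (Sum.inr (Sum.inr (Sum.inr (Sum.inr ()))))
  rw [h1, h2, h3, h4, h5]

theorem flat_adj {k m f g : ℕ} (p q : Wh k m f g) (h : RW p q) : A1 (flat p) (flat q) := by
  obtain ⟨p1, ⟨p2, ⟨p3, p4⟩⟩, p5⟩ := p
  obtain ⟨q1, ⟨q2, ⟨q3, q4⟩⟩, q5⟩ := q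
  rcases h with ⟨h1, h2⟩ | ⟨h1, h2⟩
  · simp only at h1 h2
    cases h2
    exact left h1 _
  · simp only at h1
    subst h1
    refine right _ ?_
    rcases h2 with ⟨h2, h3⟩ | ⟨h2, h3⟩
    · simp only at h2 h3
      subst h3
      rcases h2 with ⟨h4, h5⟩ | ⟨h4, h5⟩
      · simp only at h4 h5
        cases h5
        exact left h4 _
      · simp only at h4
        subst h4
        refine right _ ?_
        rcases h5 with ⟨h6, h7⟩ | ⟨h6, h7⟩
        · simp only at h6 h7
          subst h7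
          exact left h6 _
        · simp only at h6 h7
          subst h6
          exact right _ (left h7 _)
    · simp only at h2 h3
      cases h2
      refine right _ (right _ (right _ ?_))
      refine ⟨(), fun j => ?_⟩
      cases j
      simp only [ne_eq, iff_true]
      exact h3

theorem ham {n : ℕ} {x y : Fin n → Bool} (h : A1 x y) : hammingDist x y = 1 := by
  obtain ⟨i, hi⟩ := h
  unfold hammingDist
  rw [Finset.card_eq_one]
  refine ⟨i, ?_⟩
  ext j
  rw [Finset.mem_filter, Finset.mem_singleton]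
  constructor
  · intro h
    exact (hi j).1 h.2
  · intro h
    exact ⟨Finset.mem_univ _, (hi j).2 h⟩

end ICub

open ICub in
theorem pr_Cub : StCub := by
  intro k m f g n hn
  have hc : Fintype.card (Fin k ⊕ (Fin m ⊕ (Fin f ⊕ (Fin g ⊕ Unit)))) = n := by
    simp only [Fintype.card_sum, Fintype.card_fin, Fintype.card_unit]
    omega
  obtain ⟨e⟩ : Nonempty ((Fin k ⊕ (Fin m ⊕ (Fin f ⊕ (Fin g ⊕ Unit)))) ≃ Fin n) :=
    ⟨Fintype.equivFinOfCardEq hc⟩
  refine ⟨fun p i => flat p (e.symm i), ?_, ?_⟩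
  · intro p q h
    refine flat_inj (funext fun j => ?_)
    have h1 := congrFun h (e j)
    simpa only [Equiv.symm_apply_apply] using h1
  · intro p q h
    obtain ⟨i, hi⟩ := flat_adj p q h
    refine ham ⟨e i, fun j => ?_⟩
    rw [hi (e.symm j)]
    exact ⟨fun h => by rw [← h, Equiv.apply_symm_apply], fun h => by
      rw [h, Equiv.symm_apply_apply]⟩

end Pool.Agent.Work.MP_bf01b2_co.Fw
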