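import Pool.Agent.Work.MP_bf01b2_co.Fw.StmtsD

/-! Item Dec (helper86): all properties of the contraction of the good blocks. -/

set_option autoImplicit false

namespace Pool.Agent.Work.MP_bf01b2_co.Fw

open Pool.Agent.Work.MP_bf01b2_co.Bd

open Classical

namespace IDec

theorem mod_succ_zero {a H : ℕ} (hH : 0 < H) (h : (a + 1) % H = 0) : a % H = H - 1 := by
  have h1 : a % H < H := Nat.mod_lt _ hH
  rw [← Nat.mod_add_mod] at h
  rcases Nat.lt_or_ge (a % H + 1) H with h2 | h2
  · rw [Nat.mod_eq_of_lt h2] at h
    omega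
  · omega

theorem mod_succ_ne {a H : ℕ} (hH : 0 < H) (h : (a + 1) % H ≠ 0) : (a + 1) % H = a % H + 1 := by
  have h1 : a % H < H := Nat.mod_lt _ hH
  rw [← Nat.mod_add_mod] at h ⊢
  rcases Nat.lt_or_ge (a % H + 1) H with h2 | h2
  · rw [Nat.mod_eq_of_lt h2]
  · have h3 : a % H + 1 = H := by omega
    rw [h3, Nat.mod_self] at h
    exact absurd rfl h

end IDec

theorem pr_Dec (hRt : StRt) (hCsn : StCsn) (hCr : StCr) (hIj : StIj) : StDec := by
  intro H T hH hT
  have hrtT : ∀ v ∈ T, rt H v ∈ T := fun v hv => hT v hv _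
  have hgood : ∀ v ∈ T, Gd H T (rt H v) → cs H T v ∈ cD H T := by
    intro v hv hg
    rw [hCr H T hH v hg]
    exact Finset.mem_image.2 ⟨rt H v, Finset.mem_filter.2 ⟨hrtT v hv, hg⟩, rfl⟩
  have hroot : ∀ u, Gd H T u → rt H u = u := fun u hu => (hRt H hH u).2.2.2.1 hu.1
  have hbad : ∀ v ∈ T, cs H T v ∈ cD H T → Gd H T (rt H v) := by
    intro v hv hm
    obtain ⟨u, hu, huv⟩ := Finset.mem_image.1 hm
    rw [Finset.mem_filter] at hu
    have hgu : Gd H T (rt H u) := by rw [hroot u hu.2]; exact hu.2
    rcases hIj H T hH hT u hu.1 v hv huv with h | h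
    · exact h.2.1
    · exact absurd hgu h.1
  have hlen : ∀ v : List Bool, v.length = (rt H v).length + v.length % H := by
    intro v
    rw [(hRt H hH v).1]
    exact (Nat.div_add_mod' _ _).symm
  have htake : ∀ v : List Bool, v.take (rt H v).length = rt H v := by
    intro v
    rw [(hRt H hH v).1]
    rfl
  refine ⟨hCsn.2.2 H T hT, Finset.image_subset_image (Finset.filter_subset _ _), ?_, ?_, ?_⟩
  · intro v hv
    constructor
    · unfold ix
      split_ifs
      · exact Nat.mod_lt _ hH
      · exact hH
    · intro h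
      apply hgood v hv
      by_contra hg
      exact h (if_neg hg)
  · intro u hu v hv hc hi
    rcases hIj H T hH hT u hu v hv hc with ⟨h1, h2, h3⟩ | ⟨_, _, h3⟩
    · unfold ix at hi
      rw [if_pos h1, if_pos h2] at hi
      obtain ⟨w, _, hw⟩ := h1.2 (u.length % H) (Nat.mod_lt _ hH)
      have a1 := hw u ⟨hu, hlen u, htake u⟩
      have a2 := hw v ⟨hv, by rw [h3, hi]; exact hlen v, by rw [h3]; exact htake v⟩
      rw [a1, a2]
    · exact h3
  · intro v e hve
    have hv : v ∈ T := by
      have := hT _ hve v.length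
      rwa [List.take_left'] at this
      rfl
    by_cases hk : Kp H T v
    · right
      refine ⟨by rw [hCsn.2.1, if_pos hk], ?_, ?_⟩
      · by_cases hm : (v.length + 1) % H = 0
        · unfold ix
          split_ifs
          · rw [List.length_append, List.length_singleton]
            exact hm
          · rfl
        · have hr := ((hRt H hH v).2.2.2.2 e).1 hm
          have hng : ¬ Gd H T (rt H v) := fun hg => hk ⟨hg, hm⟩
          unfold ix
          rw [hr, if_neg hng]
      · split_ifs with hd
        · have hg := hbad v hv hd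
          have hm : (v.length + 1) % H = 0 := by
            by_contra hm
            exact hk ⟨hg, hm⟩
          unfold ix
          rw [if_pos hg]
          exact IDec.mod_succ_zero hH hm
        · have hng : ¬ Gd H T (rt H v) := fun hg => hd (hgood v hv hg)
          exact if_neg hng
    · left
      obtain ⟨hg, hm⟩ := not_not.1 hk
      have hr := ((hRt H hH v).2.2.2.2 e).1 hm
      refine ⟨?_, hgood v hv hg, ?_⟩
      · rw [hCsn.2.1, if_neg hk, List.append_nil]
      · unfold ix
        rw [hr, if_pos hg, if_pos hg, List.length_append, List.length_singleton]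
        exact IDec.mod_succ_ne hH hm

end Pool.Agent.Work.MP_bf01b2_co.Fw
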