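import Pool.Agent.Work.MP_bf01b2_co.Fw.StmtsL

/-!
# Trees with few leaves, item Emb: the lossless core in a product of two cubes (helper17)
-/

set_option autoImplicit false

namespace Pool.Agent.Work.MP_bf01b2_co.Fw

open Pool.Agent.Work.MP_bf01b2_co.Bd

open Classical

namespace IEmb

theorem zmod_inj : ∀ x y : ZMod 2, (decide (x = 1)) = (decide (y = 1)) → x = y := by decide

theorem zmod_ne : ∀ x : ZMod 2, (decide (x + 1 = 1)) ≠ (decide (x = 1)) := by decide

/-- the bits of `Ph` -/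
noncomputable def Q0 {s : ℕ} (B I : ℕ) (ω : List Bool → Opt s) (κ : ℕ → List Bool → Bool)
    (v : List Bool) : (Fin B × Fin (7 * s)) ⊕ Fin I → Bool :=
  Sum.elim (fun p => decide (Bd.P B ω v ((p.1 : ℕ), (p.2 : ℕ)) = 1))
    (fun c => (Ph B I ω κ v).2 ((c : ℕ) + 1))

theorem Q0_inj (h5 : Supp) {s B : ℕ} (I : ℕ) (hs : 0 < s) (hB : 0 < B) (ω : List Bool → Opt s)
    (κ : ℕ → List Bool → Bool) (u v : List Bool) (huv : Q0 B I ω κ u = Q0 B I ω κ v) :
    Ph B I ω κ u = Ph B I ω κ v := by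
  unfold Ph
  refine Prod.ext ?_ ?_
  · funext c
    show Bd.P B ω u c = Bd.P B ω v c
    obtain ⟨b, j⟩ := c
    by_cases hbj : b < B ∧ j < 7 * s
    · have h6 := congrFun huv (Sum.inl (⟨b, hbj.1⟩, ⟨j, hbj.2⟩))
      exact zmod_inj _ _ h6
    · have h6 : B ≤ b ∨ 7 * s ≤ j := by
        by_contra hcon
        push Not at hcon
        exact hbj ⟨hcon.1, hcon.2⟩
      rw [h5 s B hs hB ω u b j h6, h5 s B hs hB ω v b j h6]
  · funext c
    by_cases hc : 1 ≤ c ∧ c ≤ I
    · have h6 := congrFun huv (Sum.inr ⟨c - 1, by omega⟩)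
      have h7 : (Ph B I ω κ u).2 (c - 1 + 1) = (Ph B I ω κ v).2 (c - 1 + 1) := h6
      rw [Nat.sub_add_cancel hc.1] at h7
      exact h7
    · show (if 1 ≤ c ∧ c ≤ I then _ else false) = (if 1 ≤ c ∧ c ≤ I then _ else false)
      rw [if_neg hc, if_neg hc]

theorem Q0_congr {s : ℕ} (B I : ℕ) (ω : List Bool → Opt s)
    (κ : ℕ → List Bool → Bool) (u v : List Bool) (h : Ph B I ω κ u = Ph B I ω κ v) :
    Q0 B I ω κ u = Q0 B I ω κ v := by
  have h1 : Bd.P B ω u = Bd.P B ω v := congrArg Prod.fst h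
  unfold Q0
  rw [h1, h]

/-- an edge which changes `Ph` changes exactly one bit -/
theorem Q0_edge (h3 : EdgeP) (h4 : EdgeB) (h5 : Supp) {s B : ℕ} (I : ℕ) (hs : 0 < s) (hB : 0 < B)
    (ω : List Bool → Opt s) (κ : ℕ → List Bool → Bool) (y : List Bool) (e : Bool)
    (hPh : Ph B I ω κ (y ++ [e]) ≠ Ph B I ω κ y) :
    ∃ k, ∀ k', (Q0 B I ω κ (y ++ [e]) k' ≠ Q0 B I ω κ y k') ↔ k' = k := by
  unfold Q0
  obtain ⟨hE1, hE2⟩ := h3 s B hs ω y e
  by_cases h5y : y.length % 5 = 0
  · have hnone := hE2 h5y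
    have hP1 : ∀ x, Bd.P B ω (y ++ [e]) x = Bd.P B ω y x := by
      intro x
      rw [hE1 x, hnone, if_neg (by simp), add_zero]
    have hdiff : ∀ c, (Ph B I ω κ (y ++ [e])).2 c ≠ (Ph B I ω κ y).2 c →
        1 ≤ c ∧ c ≤ I ∧ col y.length = c := by
      intro c hne
      have h6 : (Ph B I ω κ (y ++ [e])).2 c =
        if 1 ≤ c ∧ c ≤ I then bit (fun t => col t = c) (κ c) (y ++ [e]) else false := rfl
      have h7 : (Ph B I ω κ y).2 c =
        if 1 ≤ c ∧ c ≤ I then bit (fun t => col t = c) (κ c) y else false := rfl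
      rw [h6, h7] at hne
      by_cases hc : 1 ≤ c ∧ c ≤ I
      · rw [if_pos hc, if_pos hc] at hne
        refine ⟨hc.1, hc.2, ?_⟩
        by_contra hcol
        exact hne ((h4 (fun t => col t = c) (κ c) y e).1 hcol)
      · rw [if_neg hc, if_neg hc] at hne
        exact absurd rfl hne
    have hex : ∃ c, (Ph B I ω κ (y ++ [e])).2 c ≠ (Ph B I ω κ y).2 c := by
      by_contra hcon
      push Not at hcon
      exact hPh (Prod.ext (funext hP1) (funext hcon))
    obtain ⟨c, hc⟩ := hex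
    obtain ⟨hc1, hc2, hc3⟩ := hdiff c hc
    refine ⟨Sum.inr ⟨c - 1, by omega⟩, ?_⟩
    rintro (p | x)
    · simp [hP1]
    · simp only [Sum.elim_inr, Sum.inr.injEq]
      constructor
      · intro hne
        have h6 := hdiff _ hne
        apply Fin.ext
        show (x : ℕ) = c - 1
        omega
      · intro hx
        have h6 : (x : ℕ) + 1 = c := by
          rw [hx]
          show c - 1 + 1 = c
          omega
        rw [h6]
        exact hc
  · have hcol : col y.length = 0 := by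
      unfold col
      rw [if_neg (by omega)]
    have hP2 : ∀ c, (Ph B I ω κ (y ++ [e])).2 c = (Ph B I ω κ y).2 c := by
      intro c
      have h6 : (Ph B I ω κ (y ++ [e])).2 c =
        if 1 ≤ c ∧ c ≤ I then bit (fun t => col t = c) (κ c) (y ++ [e]) else false := rfl
      have h7 : (Ph B I ω κ y).2 c =
        if 1 ≤ c ∧ c ≤ I then bit (fun t => col t = c) (κ c) y else false := rfl
      rw [h6, h7]
      by_cases hc : 1 ≤ c ∧ c ≤ I
      · rw [if_pos hc, if_pos hc]
        exact (h4 (fun t => col t = c) (κ c) y e).1 (by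
          show ¬ col y.length = c
          omega)
      · rw [if_neg hc, if_neg hc]
    have hex : ∃ c, Bd.P B ω (y ++ [e]) c ≠ Bd.P B ω y c := by
      by_contra hcon
      push Not at hcon
      exact hPh (Prod.ext (funext hcon) (funext hP2))
    obtain ⟨c, hc⟩ := hex
    have hcd : Bd.cd B ω (y ++ [e]) y.length = some c := by
      by_contra hcon
      rw [hE1 c, if_neg hcon, add_zero] at hc
      exact hc rfl
    obtain ⟨b, j⟩ := c
    have hbj : b < B ∧ j < 7 * s := by
      by_contra hcon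
      have h6 : B ≤ b ∨ 7 * s ≤ j := by
        by_contra hcon'
        push Not at hcon'
        exact hcon ⟨hcon'.1, hcon'.2⟩
      rw [h5 s B hs hB ω _ b j h6, h5 s B hs hB ω _ b j h6] at hc
      exact hc rfl
    refine ⟨Sum.inl (⟨b, hbj.1⟩, ⟨j, hbj.2⟩), ?_⟩
    rintro (⟨p, q⟩ | x)
    · simp only [Sum.elim_inl, Sum.inl.injEq]
      rw [hE1, hcd]
      by_cases hx : ((p, q) : Fin B × Fin (7 * s)) = (⟨b, hbj.1⟩, ⟨j, hbj.2⟩)
      · have hp : (p : ℕ) = b := congrArg (fun z => (z.1 : ℕ)) hx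
        have hq : (q : ℕ) = j := congrArg (fun z => (z.2 : ℕ)) hx
        rw [if_pos (by rw [hp, hq])]
        exact ⟨fun _ => hx, fun _ => zmod_ne _⟩
      · rw [if_neg ?_, add_zero]
        · exact ⟨fun h => absurd rfl h, fun h => absurd h hx⟩
        · intro h
          apply hx
          have h6 := Option.some.inj h
          rw [Prod.mk.injEq] at h6
          refine Prod.ext ?_ ?_
          · exact Fin.ext h6.1.symm
          · exact Fin.ext h6.2.symm
    · simp [hP2]

theorem fib_of {X Y : Type} (T : Finset (List Bool)) (Φ : List Bool → X) (Ψ : List Bool → Y) (a : ℝ)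
    (h : ∀ u v, Φ u = Φ v → Ψ u = Ψ v) (hf : FibLe T Ψ a) : Fib T Φ ⌊a⌋₊ := by
  intro x
  rcases (T.filter fun v => Φ v = x).eq_empty_or_nonempty with h0 | ⟨v0, hv0⟩
  · rw [h0, Finset.card_empty]
    exact Nat.zero_le _
  · rw [Finset.mem_filter] at hv0
    refine Nat.le_floor ?_
    refine le_trans ?_ (hf (Ψ v0))
    have hsub : (T.filter fun v => Φ v = x) ⊆ (T.filter fun v => Ψ v = Ψ v0) := by
      intro v hv
      rw [Finset.mem_filter] at hv ⊢
      exact ⟨hv.1, h v v0 (hv.2.trans hv0.2.symm)⟩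
    exact_mod_cast Finset.card_le_card hsub

end IEmb

open IEmb in
theorem pr_Emb (h1 : StCoL) (h3 : EdgeP) (h4 : EdgeB) (h5 : Supp) : StEmb := by
  intro τ r0 hτ hr0
  obtain ⟨m0, n0, hcore⟩ := h1 τ r0 hτ hr0
  refine ⟨m0, n0, fun m n hm hn => ?_⟩
  obtain ⟨hrn, hcore⟩ := hcore m n hm hn
  refine ⟨hrn, fun T hT hTc => ?_⟩
  obtain ⟨s, B, I, ω, κ, ψ, hs, hB, hsize, hfib, hψ1, hψ2, hψ3⟩ := hcore T hT hTc
  have hcard : Fintype.card ((Fin B × Fin (7 * s)) ⊕ Fin I) = n - r0 := by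
    rw [Fintype.card_sum, Fintype.card_prod, Fintype.card_fin, Fintype.card_fin, Fintype.card_fin,
      ← hsize]
    ring
  set E : (Fin B × Fin (7 * s)) ⊕ Fin I ≃ Fin (n - r0) := Fintype.equivFinOfCardEq hcard with hE
  have hΦinj : ∀ u v : List Bool, (fun i => Q0 B I ω κ u (E.symm i)) =
      (fun i => Q0 B I ω κ v (E.symm i)) → Ph B I ω κ u = Ph B I ω κ v := by
    intro u v huv
    refine Q0_inj h5 I hs hB ω κ u v ?_
    funext k
    have h6 := congrFun huv (E k)
    simp only [Equiv.symm_apply_apply] at h6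
    exact h6
  refine ⟨fun v i => Q0 B I ω κ v (E.symm i), fun v c => decide (ψ v c = 1), ⟨?_, ?_⟩, ?_⟩
  · intro y e hye
    by_cases hPh : Ph B I ω κ (y ++ [e]) = Ph B I ω κ y
    · right
      refine ⟨?_, ?_⟩
      · dsimp only
        rw [Q0_congr B I ω κ _ _ hPh]
      · obtain ⟨c, hc⟩ := hψ2 y e hye hPh
        refine ⟨c, fun x => ?_⟩
        dsimp only
        rw [hc, Pi.add_apply, Pi.single_apply]
        by_cases hx : x = c
        · rw [if_pos hx]
          exact ⟨fun _ => hx, fun _ => (zmod_ne _).symm⟩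
        · rw [if_neg hx, add_zero]
          exact ⟨fun h => absurd rfl h, fun h => absurd h hx⟩
    · left
      refine ⟨?_, ?_⟩
      · obtain ⟨k, hk⟩ := Q0_edge h3 h4 h5 I hs hB ω κ y e hPh
        refine ⟨E k, fun j => ?_⟩
        dsimp only
        rw [ne_comm, hk (E.symm j)]
        exact Equiv.symm_apply_eq E
      · dsimp only
        rw [hψ1 y e hye hPh]
  · intro u hu v hv huv hψ
    refine hψ3 u hu v hv (hΦinj u v huv) ?_
    funext c
    exact zmod_inj _ _ (congrFun hψ c)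
  · exact fib_of T _ _ _ hΦinj hfib

end Pool.Agent.Work.MP_bf01b2_co.Fw
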