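import Pool.Agent.Work.MP_bf01b2_co.Fw.StmtsC

/-!
# MP_bf01b2_co, trees with few leaves, item Fin: the final statement
-/

set_option autoImplicit false

namespace Pool.Agent.Work.MP_bf01b2_co.Fw

open Pool.Agent.Work.MP_bf01b2_co.Bd

open Classical

namespace IFin

/-- the first claim -/
theorem first (hStr : StStr) (hLvs : StLvs) (hTree : MP_bf01b2_co.TreeStr) :
    ∀ δ : ℝ, 0 < δ → ∃ ε : ℝ, 0 < ε ∧ ∀ n : ℕ,
    ∀ (V : Type) [Fintype V] [DecidableEq V] (G : SimpleGraph V) [DecidableRel G.Adj],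
      G.IsTree → (∀ v : V, G.degree v ≤ 3) → (Fintype.card V : ℝ) ≤ (1 - δ) * 2 ^ n →
      ((Finset.univ.filter fun v => G.degree v = 1).card : ℝ) ≤ ε * 2 ^ n →
        ∃ f : G →g SimpleGraph.fromRel (fun x y : Fin n → Bool => hammingDist x y = 1),
          Function.Injective f := by
  intro δ hδ
  obtain ⟨ε', n0, hε', h⟩ := hStr δ hδ
  refine ⟨min ε' (1 / 2 ^ (n0 + 1)), lt_min hε' (by positivity), ?_⟩
  intro n V _ _ G _ hG hdeg hcard hleaf
  by_cases h1 : Fintype.card V ≤ 1
  · haveI : Subsingleton V := Fintype.card_le_one_iff_subsingleton.1 h1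
    refine ⟨⟨fun _ _ => false, ?_⟩, fun a b _ => Subsingleton.elim a b⟩
    intro a b hab
    exact absurd (Subsingleton.elim a b) hab.ne
  · have h2 : 1 < Fintype.card V := not_le.1 h1
    have : Nontrivial V := Fintype.one_lt_card_iff_nontrivial.1 h2
    obtain ⟨v0, hv0⟩ := hG.exists_vert_degree_one_of_nontrivial
    have h3 : 1 ≤ (Finset.univ.filter fun v => G.degree v = 1).card :=
      Finset.card_pos.2 ⟨v0, Finset.mem_filter.2 ⟨Finset.mem_univ _, hv0⟩⟩
    have h3' : (1 : ℝ) ≤ ((Finset.univ.filter fun v => G.degree v = 1).card : ℝ) := by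
      exact_mod_cast h3
    have h2n : (0 : ℝ) < 2 ^ n := by positivity
    have hn : n0 ≤ n := by
      by_contra hcon
      push Not at hcon
      have h4 : (1 : ℝ) ≤ 1 / 2 ^ (n0 + 1) * 2 ^ n :=
        (h3'.trans hleaf).trans (mul_le_mul_of_nonneg_right (min_le_right _ _) h2n.le)
      have h5 : (2 : ℝ) ^ n < 2 ^ (n0 + 1) :=
        pow_lt_pow_right₀ (by norm_num) (by omega)
      rw [one_div, inv_mul_eq_div, le_div_iff₀ (by positivity)] at h4
      linarith
    obtain ⟨s, hs, hpre, hadj⟩ := hTree V G hG hdeg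
    have hT : ∀ v, s v ∈ Finset.univ.image s := fun v =>
      Finset.mem_image.mpr ⟨v, Finset.mem_univ _, rfl⟩
    have hPC : Bd.PrefClosed (Finset.univ.image s) := by
      intro v hv k
      obtain ⟨a, -, rfl⟩ := Finset.mem_image.mp hv
      obtain ⟨u, hu⟩ := hpre a k
      exact Finset.mem_image.mpr ⟨u, Finset.mem_univ _, hu⟩
    have hTc : ((Finset.univ.image s).card : ℝ) ≤ (1 - δ) * 2 ^ n := by
      refine le_trans ?_ hcard
      have h5 : (Finset.univ.image s).card ≤ Fintype.card V := Finset.card_image_le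
      exact_mod_cast h5
    have hlf : ((lf (Finset.univ.image s)).card : ℝ) ≤ ε' * 2 ^ n := by
      have h6 : ((lf (Finset.univ.image s)).card : ℝ) ≤
          ((Finset.univ.filter fun v => G.degree v = 1).card : ℝ) := by
        exact_mod_cast hLvs V G s hG hs hadj h2
      exact (h6.trans hleaf).trans (mul_le_mul_of_nonneg_right (min_le_left _ _) h2n.le)
    obtain ⟨c, hc1, hc2⟩ := h n hn (Finset.univ.image s) hPC hTc hlf
    have hinj : Function.Injective fun v => c (s v) := by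
      intro u v huv
      exact hs (hc1 _ (hT u) _ (hT v) huv)
    refine ⟨⟨fun v => c (s v), ?_⟩, hinj⟩
    intro a b hab
    rw [SimpleGraph.fromRel_adj]
    refine ⟨fun h => hab.ne (hinj h), ?_⟩
    rcases hadj a b hab with ⟨e, he⟩ | ⟨e, he⟩
    · left
      have h6 := hc2 (s a) e (he ▸ hT b)
      rw [← he] at h6
      exact h6
    · right
      have h6 := hc2 (s b) e (he ▸ hT a)
      rw [← he] at h6
      exact h6

end IFin

theorem pr_Fin (hStr : StStr) (hLvs : StLvs) (hTree : MP_bf01b2_co.TreeStr) : StFin := by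
  refine ⟨IFin.first hStr hLvs hTree, ?_⟩
  obtain ⟨ε, hε, h⟩ := IFin.first hStr hLvs hTree (1 / 2) (by norm_num)
  refine ⟨ε, hε, ?_⟩
  intro n V _ _ G _ hG hdeg hcard hleaf
  have h1 : (Fintype.card V : ℝ) ≤ (1 - 1 / 2) * 2 ^ (n + 1) := by
    have h2 : (Fintype.card V : ℝ) ≤ 2 ^ n := by exact_mod_cast hcard
    rw [pow_succ]
    linarith
  have h3 : ε * 2 ^ n ≤ ε * 2 ^ (n + 1) :=
    mul_le_mul_of_nonneg_left (pow_le_pow_right₀ (by norm_num) (Nat.le_succ n)) hε.le
  exact h (n + 1) V G hG hdeg h1 (hleaf.trans h3)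

end Pool.Agent.Work.MP_bf01b2_co.Fw
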