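import Pool.Agent.Work.MP_bf01b2_co.Fw.StmtsC

/-!
# MP_bf01b2_co, trees with few leaves, item Ham: Hamiltonian paths of the cube
-/

set_option autoImplicit false

namespace Pool.Agent.Work.MP_bf01b2_co.Fw

open Pool.Agent.Work.MP_bf01b2_co.Bd

open Classical

namespace IHam

theorem A1_symm {ι : Type} {x y : ι → Bool} (h : A1 x y) : A1 y x := by
  obtain ⟨i, hi⟩ := h
  exact ⟨i, fun j => by rw [← hi j]; exact ne_comm⟩

theorem A1_cons {d : ℕ} (a : Bool) {x y : Fin d → Bool} (h : A1 x y) :
    A1 (Fin.cons a x : Fin (d + 1) → Bool) (Fin.cons a y) := by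
  obtain ⟨i, hi⟩ := h
  refine ⟨i.succ, fun j => ?_⟩
  refine Fin.cases ?_ (fun j' => ?_) j
  · simp only [Fin.cons_zero, ne_eq, not_true_eq_false, false_iff]
    exact (Fin.succ_ne_zero i).symm
  · simp only [Fin.cons_succ]
    rw [hi j']
    exact (Fin.succ_inj).symm

theorem A1_not {d : ℕ} (a : Bool) (x : Fin d → Bool) :
    A1 (Fin.cons a x : Fin (d + 1) → Bool) (Fin.cons (!a) x) := by
  refine ⟨0, fun j => ?_⟩
  refine Fin.cases ?_ (fun j' => ?_) j
  · simp only [Fin.cons_zero]
    cases a <;> simp
  · simp only [Fin.cons_succ, ne_eq, not_true_eq_false, false_iff]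
    exact Fin.succ_ne_zero j'

theorem cons_inj {d : ℕ} (a : Bool) :
    Function.Injective (fun x : Fin d → Bool => (Fin.cons a x : Fin (d + 1) → Bool)) := by
  intro x y h
  have h1 := congrArg Fin.tail h
  simp only at h1
  rwa [Fin.tail_cons, Fin.tail_cons] at h1

end IHam

open IHam in
theorem pr_Ham : StHam := by
  intro d
  induction d with
  | zero =>
    intro x
    refine ⟨[x], List.nodup_singleton x, List.IsChain.singleton x, rfl, fun y => ?_, rfl⟩
    rw [List.mem_singleton]
    funext i
    exact i.elim0
  | succ d ih =>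
    intro x
    obtain ⟨l, h1, h2, h3, h4, h5⟩ := ih (Fin.tail x)
    refine ⟨l.map (Fin.cons (x 0)) ++ l.reverse.map (Fin.cons (!x 0)), ?_, ?_, ?_, ?_, ?_⟩
    · refine List.Nodup.append (h1.map (cons_inj _)) ((List.nodup_reverse.2 h1).map (cons_inj _)) ?_
      intro y hy hy'
      rw [List.mem_map] at hy hy'
      obtain ⟨a, _, rfl⟩ := hy
      obtain ⟨b, _, hb⟩ := hy'
      have h6 := congrFun hb 0
      rw [Fin.cons_zero, Fin.cons_zero] at h6
      exact absurd h6 (by cases x 0 <;> simp)
    · rw [List.isChain_append]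
      refine ⟨?_, ?_, ?_⟩
      · rw [List.isChain_map]
        exact h2.imp fun a b h => A1_cons _ h
      · rw [List.isChain_map, List.isChain_reverse]
        exact h2.imp fun a b h => A1_cons _ (A1_symm h)
      · intro a ha b hb
        rw [List.getLast?_map] at ha
        rw [List.head?_map, List.head?_reverse] at hb
        rw [Option.mem_def, Option.map_eq_some_iff] at ha hb
        obtain ⟨a', ha1, rfl⟩ := ha
        obtain ⟨b', hb1, rfl⟩ := hb
        rw [ha1, Option.some.injEq] at hb1
        subst hb1
        exact A1_not _ _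
    · rw [List.head?_append, List.head?_map, h3]
      simp only [Option.map_some, Option.some_or, Fin.cons_self_tail]
    · intro y
      rw [List.mem_append, List.mem_map, List.mem_map]
      by_cases h : y 0 = x 0
      · left
        refine ⟨Fin.tail y, h4 _, ?_⟩
        rw [← h, Fin.cons_self_tail]
      · right
        refine ⟨Fin.tail y, List.mem_reverse.2 (h4 _), ?_⟩
        have h6 : (!x 0) = y 0 := by
          revert h
          cases x 0 <;> cases y 0 <;> simp
        rw [h6, Fin.cons_self_tail]
    · rw [List.length_append, List.length_map, List.length_map, List.length_reverse, h5, pow_succ]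
      omega

end Pool.Agent.Work.MP_bf01b2_co.Fw
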