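import Pool.Agent.Work.MP_bf01b2_co.Fw.StmtsD

/-!
# Item Ij: injectivity of the contraction
-/

set_option autoImplicit false

namespace Pool.Agent.Work.MP_bf01b2_co.Fw

open Pool.Agent.Work.MP_bf01b2_co.Bd

open Classical

namespace IIj

/-- The conclusion for a pair. -/
def Cc (H : ℕ) (T : Finset (List Bool)) (u v : List Bool) : Prop :=
  (Gd H T (rt H u) ∧ Gd H T (rt H v) ∧ rt H u = rt H v) ∨
    (¬ Gd H T (rt H u) ∧ ¬ Gd H T (rt H v) ∧ u = v)

theorem cc_refl {H : ℕ} {T : Finset (List Bool)} (u : List Bool) : Cc H T u u := by
  by_cases h : Gd H T (rt H u)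
  · exact Or.inl ⟨h, h, rfl⟩
  · exact Or.inr ⟨h, h, rfl⟩

theorem cc_symm {H : ℕ} {T : Finset (List Bool)} {u v : List Bool} (h : Cc H T u v) :
    Cc H T v u := by
  rcases h with ⟨a, b, c⟩ | ⟨a, b, c⟩
  · exact Or.inl ⟨b, a, c.symm⟩
  · exact Or.inr ⟨b, a, c.symm⟩

theorem rt_len (v : List Bool) (H : ℕ) : (rt H v).length ≤ v.length := by
  unfold rt
  rw [List.length_take]
  exact Nat.min_le_right _ _

/-- The last letter of a base vertex is kept. -/
theorem kp_base (hRt : StRt) {H : ℕ} (hH : 0 < H) {T : Finset (List Bool)} {p : List Bool}
    {e : Bool} (hb : Gd H T (rt H (p ++ [e])) → rt H (p ++ [e]) = p ++ [e]) : Kp H T p := by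
  rintro ⟨hg, hn⟩
  have h1 := ((hRt H hH p).2.2.2.2 e).1 hn
  rw [h1] at hb
  have h2 := hb hg
  have h3 := rt_len p H
  rw [h2] at h3
  simp at h3

theorem main (hRt : StRt) (hCsn : StCsn) (hCr : StCr) {H : ℕ} (hH : 0 < H)
    {T : Finset (List Bool)} (hT : Bd.PrefClosed T) : ∀ n : ℕ, ∀ u ∈ T, ∀ v ∈ T,
    u.length + v.length ≤ n → cs H T u = cs H T v → Cc H T u v := by
  intro n
  induction n with
  | zero =>
    intro u _ v _ hl _
    have h1 : u = [] := List.length_eq_zero_iff.1 (by omega)
    have h2 : v = [] := List.length_eq_zero_iff.1 (by omega)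
    rw [h1, h2]
    exact cc_refl _
  | succ n ih =>
    intro u hu v hv hl hc
    -- a reduction step
    have red : ∀ a ∈ T, ∀ b ∈ T, a.length + b.length ≤ n + 1 → cs H T a = cs H T b →
        Gd H T (rt H a) → rt H a ≠ a → Cc H T a b := by
      intro a ha b hb hl' hc' hg hne
      have hlt : (rt H a).length < a.length := by
        rcases Nat.lt_or_ge (rt H a).length a.length with h | h
        · exact h
        · exfalso
          apply hne
          unfold rt
          unfold rt at h
          rw [List.length_take] at h
          exact List.take_of_length_le (by omega)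
      have h1 := ih (rt H a) (hT a ha _) b hb (by omega) (by rw [← hCr H T hH a hg]; exact hc')
      have h2 : rt H (rt H a) = rt H a := (hRt H hH a).2.2.1
      rcases h1 with ⟨_, h4, h5⟩ | ⟨h3, _, _⟩
      · rw [h2] at h5
        exact Or.inl ⟨hg, h4, h5⟩
      · rw [h2] at h3
        exact absurd hg h3
    by_cases h1 : Gd H T (rt H u) ∧ rt H u ≠ u
    · exact red u hu v hv hl hc h1.1 h1.2
    by_cases h2 : Gd H T (rt H v) ∧ rt H v ≠ v
    · exact cc_symm (red v hv u hu (by omega) hc.symm h2.1 h2.2)
    have h1' : Gd H T (rt H u) → rt H u = u := fun h => by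
      by_contra h'
      exact h1 ⟨h, h'⟩
    have h2' : Gd H T (rt H v) → rt H v = v := fun h => by
      by_contra h'
      exact h2 ⟨h, h'⟩
    rcases List.eq_nil_or_concat u with hu0 | ⟨p, e, hue⟩
    · rcases List.eq_nil_or_concat v with hv0 | ⟨p', e', hve⟩
      · rw [hu0, hv0]
        exact cc_refl _
      · exfalso
        rw [List.concat_eq_append] at hve
        have hk : Kp H T p' := kp_base hRt hH (e := e') (by rw [← hve]; exact h2')
        rw [hu0, hCsn.1, hve, hCsn.2.1, if_pos hk] at hc
        simp at hc
    · rw [List.concat_eq_append] at hue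
      have hk : Kp H T p := kp_base hRt hH (e := e) (by rw [← hue]; exact h1')
      rcases List.eq_nil_or_concat v with hv0 | ⟨p', e', hve⟩
      · exfalso
        rw [hv0, hCsn.1, hue, hCsn.2.1, if_pos hk] at hc
        simp at hc
      · rw [List.concat_eq_append] at hve
        have hk' : Kp H T p' := kp_base hRt hH (e := e') (by rw [← hve]; exact h2')
        rw [hue, hve, hCsn.2.1, hCsn.2.1, if_pos hk, if_pos hk'] at hc
        have hc2 := List.append_inj' hc rfl
        have he : e = e' := by simpa using hc2.2
        have hpT : p ∈ T := by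
          have := hT u hu p.length
          rw [hue, List.take_left] at this
          exact this
        have hpT' : p' ∈ T := by
          have := hT v hv p'.length
          rw [hve, List.take_left] at this
          exact this
        have hlu : u.length = p.length + 1 := by rw [hue]; simp
        have hlv : v.length = p'.length + 1 := by rw [hve]; simp
        have hpp : p = p' := by
          rcases ih p hpT p' hpT' (by omega) hc2.1 with ⟨ga, gb, gc⟩ | ⟨_, _, gc⟩
          · have ma : (p.length + 1) % H = 0 := by
              by_contra h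
              exact hk ⟨ga, h⟩
            have mb : (p'.length + 1) % H = 0 := by
              by_contra h
              exact hk' ⟨gb, h⟩
            have la := (hRt H hH p).1
            have lb := (hRt H hH p').1
            have key : ∀ q : List Bool, (q.length + 1) % H = 0 →
                q.length = q.length / H * H + (H - 1) := by
              intro q hq
              have h3 := Nat.div_add_mod q.length H
              have h4 : q.length % H = H - 1 := by
                obtain ⟨k, hk⟩ := Nat.dvd_of_mod_eq_zero hq
                have hk1 : 1 ≤ k := by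
                  rcases Nat.eq_zero_or_pos k with h | h
                  · rw [h] at hk; omega
                  · exact h
                have h5 : q.length = H * (k - 1) + (H - 1) := by
                  obtain ⟨k', rfl⟩ : ∃ k', k = k' + 1 := ⟨k - 1, by omega⟩
                  rw [Nat.mul_succ] at hk
                  rw [Nat.add_sub_cancel]
                  omega
                rw [h5, Nat.mul_add_mod, Nat.mod_eq_of_lt (by omega)]
              rw [Nat.mul_comm] at h3
              omega
            have pa := key p ma
            have pb := key p' mb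
            obtain ⟨w, _, hw⟩ := ga.2 (H - 1) (by omega)
            have e1 := hw p ⟨hpT, by omega, by rw [la]; rfl⟩
            have e2 := hw p' ⟨hpT', by rw [gc]; omega, by rw [gc, lb]; rfl⟩
            rw [e1, e2]
          · exact gc
        rw [hue, hve, hpp, he]
        exact cc_refl _

end IIj

theorem pr_Ij (hRt : StRt) (hCsn : StCsn) (hCr : StCr) : StIj := by
  intro H T hH hT u hu v hv hc
  exact IIj.main hRt hCsn hCr hH hT _ u hu v hv le_rfl hc

end Pool.Agent.Work.MP_bf01b2_co.Fw
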