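import Pool.Agent.Work.MP_bf01b2_co.Fw.StmtsL
import Pool.Agent.Work.MP_bf01b2_co.Bd.IT

/-!
# Item ItL (helper37): the halving steps down to `r0` (copy of `Bd/IT.lean`)
-/

set_option autoImplicit false

namespace Pool.Agent.Work.MP_bf01b2_co.Fw

open Pool.Agent.Work.MP_bf01b2_co.Bd

namespace IItL

theorem it_ind (h1 : Half) (h2 : RulThm) (s B r0 r1 : ℕ) (T : Finset (List Bool))
    (ω : List Bool → Opt s) (hT : Bd.PrefClosed T) (hr0 : 45 ≤ r0) (hr1 : r0 ≤ r1)
    (hnear : NearD T (Bd.P B ω) (20 * (r1 - r0) ^ 2)) (hfib : FibLe T (Bd.P B ω) (2 ^ r1)) :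
    ∀ d : ℕ, d ≤ r1 - r0 → ∃ κ : ℕ → List Bool → Bool,
      FibLe T (it_Psi B (r1 - r0 - d) (r1 - r0) ω κ) (aa (r0 + (r1 - r0 - d))) := by
  intro d
  induction d with
  | zero =>
    intro _
    refine ⟨fun _ _ => false, ?_⟩
    refine it_fib_mono T (Bd.P B ω) _ (2 ^ r1) _ ?_ ?_ hfib
    · have : r0 + (r1 - r0 - 0) = r1 := by omega
      rw [this]
      unfold aa
      have h3 : (0 : ℝ) ≤ 4 / (r1 : ℝ) := by positivity
      have h4 : (0 : ℝ) < 2 ^ r1 := by positivity
      nlinarith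
    · rintro ⟨x, g⟩
      exact ⟨x, fun v hv => (Prod.mk.inj hv).1⟩
  | succ d ih =>
    intro hd
    obtain ⟨κ, hκ⟩ := ih (by omega)
    set I := r1 - r0 with hI
    set c := I - d with hc
    have hc1 : 1 ≤ c := by omega
    have hcI : c ≤ I := by omega
    have hcd : I - (d + 1) = c - 1 := by omega
    obtain ⟨κ', hκ'⟩ := h1 _ T (it_Psi B c I ω κ) (fun t => col t = c) (20 * c ^ 2) (r0 + c) hT
      (by omega) (by
        have : c ^ 2 ≤ (r0 + c) ^ 2 := Nat.pow_le_pow_left (by omega) 2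
        omega) (h2 c hc1) (by
        intro u hu v hv huv t ht1 ht2 ht3 ht4 ht5
        have hc2 : c ^ 2 ≤ I ^ 2 := Nat.pow_le_pow_left hcI 2
        exact hnear u hu v hv (Prod.mk.inj huv).1 t ht1 ht2 ht3 (by omega) (by omega)) hκ
    refine ⟨Function.update κ c κ', ?_⟩
    rw [hcd]
    refine it_fib_mono T _ _ _ _ ?_ ?_ hκ'
    · have : r0 + c - 1 = r0 + (c - 1) := by omega
      rw [this]
    · rintro ⟨x, g⟩
      refine ⟨((x, fun c' => if c < c' ∧ c' ≤ I then g c' else false), g c), ?_⟩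
      intro v hv
      obtain ⟨h3, h4⟩ := Prod.mk.inj hv
      refine Prod.ext (Prod.ext h3 ?_) ?_
      · funext c'
        have h5 : (if c - 1 < c' ∧ c' ≤ I then
            bit (fun t => col t = c') (Function.update κ c κ' c') v else false) = g c' :=
          congrFun h4 c'
        simp only [it_Psi]
        by_cases h6 : c < c' ∧ c' ≤ I
        · rw [if_pos h6, if_pos h6, ← h5]
          rw [if_pos ⟨by omega, h6.2⟩, Function.update_of_ne (by omega)]
        · rw [if_neg h6, if_neg h6]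
      · have h5 : (if c - 1 < c ∧ c ≤ I then
            bit (fun t => col t = c) (Function.update κ c κ' c) v else false) = g c :=
          congrFun h4 c
        rw [if_pos ⟨by omega, hcI⟩, Function.update_self] at h5
        exact h5

end IItL

open IItL in
theorem pr_ItL (h1 : Half) (h2 : RulThm) : StItL := by
  intro s B r0 r1 T ω hT hr0 hr1 hnear hfib
  obtain ⟨κ, hκ⟩ := it_ind h1 h2 s B r0 r1 T ω hT hr0 hr1 hnear hfib (r1 - r0) le_rfl
  refine ⟨κ, ?_⟩
  rw [Nat.sub_self] at hκ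
  refine it_fib_mono T _ _ _ _ ?_ ?_ hκ
  · rw [Nat.add_zero]
  · intro y
    refine ⟨y, fun v hv => ?_⟩
    rw [← hv]
    unfold it_Psi Ph
    congr 1

end Pool.Agent.Work.MP_bf01b2_co.Fw
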