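import Pool.Agent.Work.MP_bf01b2_co.Fw.StmtsL
import Pool.Agent.Work.MP_bf01b2_co.Bd.LD

/-!
# MP_bf01b2_co, trees with few leaves, item LdL: the lossless load
-/

set_option autoImplicit false

namespace Pool.Agent.Work.MP_bf01b2_co.Fw

open Pool.Agent.Work.MP_bf01b2_co.Bd

open Classical

namespace ILdL

theorem sumN {s B : ℕ} (hs : 0 < s) (T : Finset (List Bool)) :
    ∑ w ∈ ld_W, ∑ ρ ∈ Finset.range (B + 1),
      ∑ z ∈ T.filter (fun z => z.length % (5 * s) = 0 ∧ z.length / (5 * s) % (B + 1) = ρ),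
        (Nz s B T w z).card ≤ T.card := by
  have h1 : ∀ w ρ, ∑ z ∈ T.filter (fun z => z.length % (5 * s) = 0 ∧
      z.length / (5 * s) % (B + 1) = ρ), (Nz s B T w z).card =
      ((T.filter (fun z => z.length % (5 * s) = 0 ∧
        z.length / (5 * s) % (B + 1) = ρ)).sigma fun z => Nz s B T w z).card := by
    intro w ρ
    rw [Finset.card_sigma]
  simp_rw [h1]
  have h2 : ∀ w, ∑ ρ ∈ Finset.range (B + 1), ((T.filter (fun z => z.length % (5 * s) = 0 ∧
        z.length / (5 * s) % (B + 1) = ρ)).sigma fun z => Nz s B T w z).card =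
      ((Finset.range (B + 1)).sigma fun ρ => ((T.filter (fun z => z.length % (5 * s) = 0 ∧
        z.length / (5 * s) % (B + 1) = ρ)).sigma fun z => Nz s B T w z)).card := by
    intro w
    rw [Finset.card_sigma]
  simp_rw [h2]
  rw [← Finset.card_sigma]
  refine Finset.card_le_card_of_injOn (fun p => p.2.2.2 ++ p.1) ?_ ?_
  · intro p hp
    simp only [Finset.coe_sigma, Set.mem_sigma_iff, Finset.mem_coe] at hp
    have h3 := hp.2.2.2
    unfold Nz at h3
    exact (Finset.mem_filter.mp h3).2.2.2.2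
  · rintro ⟨w, ρ, z, β⟩ hp ⟨w', ρ', z', β'⟩ hp' h
    simp only [Finset.coe_sigma, Set.mem_sigma_iff, Finset.mem_coe, Finset.mem_sigma,
      Finset.mem_filter] at hp hp'
    simp only at h
    have hw := ld_W_len w hp.1
    have hw' := ld_W_len w' hp'.1
    have hβ : β.length % 5 = 0 := by
      have h3 := hp.2.2.2
      unfold Nz at h3
      exact (Finset.mem_filter.mp h3).2.1
    have hβ' : β'.length % 5 = 0 := by
      have h3 := hp'.2.2.2
      unfold Nz at h3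
      exact (Finset.mem_filter.mp h3).2.1
    have hlen := congrArg List.length h
    rw [List.length_append, List.length_append] at hlen
    obtain ⟨e0, e00⟩ := List.append_inj h (by omega)
    subst e0
    subst e00
    have e1 := ld_z hs hp.2.2.1.2.1 hp.2.2.2
    have e2 := ld_z hs hp'.2.2.1.2.1 hp'.2.2.2
    have e3 : z = z' := e1.trans e2.symm
    subst e3
    have e4 : ρ = ρ' := hp.2.2.1.2.2.symm.trans hp'.2.2.1.2.2
    subst e4
    rfl

theorem arith (q t θ D a b S : ℝ) (hq : 0 < q) (hq1 : q ≤ 1) (ht : 0 ≤ t) (hD : 0 < D)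
    (hθ : θ ≤ (1 + q) / D) (ha : 1 ≤ a) (hb : 1 ≤ b)
    (hS : S ≤ 31 + ((1 + q) ^ 2 * t * θ + 31 * (a * (2 / q * b)))) :
    S ≤ (1 + q) ^ 3 * t / D + 93 / q * a * b := by
  have h1 : (1 + q) ^ 2 * t * θ ≤ (1 + q) ^ 2 * t * ((1 + q) / D) :=
    mul_le_mul_of_nonneg_left hθ (by positivity)
  have h2 : (1 + q) ^ 2 * t * ((1 + q) / D) = (1 + q) ^ 3 * t / D := by ring
  have h3 : 31 ≤ 31 / q * a * b := by
    have h4 : 31 ≤ 31 / q := by
      rw [le_div_iff₀ hq]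
      linarith
    have h5 : 1 ≤ a * b := one_le_mul_of_one_le_of_one_le ha hb
    have h6 : 31 / q * 1 ≤ 31 / q * (a * b) := mul_le_mul_of_nonneg_left h5 (by positivity)
    calc (31 : ℝ) ≤ 31 / q := h4
      _ = 31 / q * 1 := (mul_one _).symm
      _ ≤ 31 / q * (a * b) := h6
      _ = 31 / q * a * b := by ring
  have h7 : 31 * (a * (2 / q * b)) = 62 / q * a * b := by ring
  have h8 : 93 / q * a * b = 31 / q * a * b + 62 / q * a * b := by ring
  linarith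

theorem arith2 (q : ℝ) {t θ c S K : ℝ} (ht : 0 ≤ t) (hq : 0 ≤ q) (hS : S ≤ t) (hK : K ≤ 31)
    (hθ : 0 ≤ θ) (hc : 0 ≤ c) :
    (1 + q) ^ 2 * S * θ + K * c ≤ (1 + q) ^ 2 * t * θ + 31 * c :=
  add_le_add (mul_le_mul_of_nonneg_right (mul_le_mul_of_nonneg_left hS (by positivity)) hθ)
    (mul_le_mul_of_nonneg_right hK hc)

theorem sumW (W : Finset (List Bool)) (hW : W.card ≤ 31) {B : ℕ}
    (F : List Bool → ℕ → Finset (List Bool)) (X N : List Bool → List Bool → ℕ)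
    {q θ d : ℝ} (hq : 0 < q) (t : ℕ) (hθ : 0 ≤ θ) (hd : 0 ≤ d)
    (hN : ∑ w ∈ W, ∑ ρ ∈ Finset.range (B + 1), ∑ z ∈ F w ρ, N w z ≤ t)
    (hX : ∀ w ∈ W, ∀ ρ ∈ Finset.range (B + 1), ((∑ z ∈ F w ρ, X w z : ℕ) : ℝ) ≤
      (1 + q) ^ 2 * ((∑ z ∈ F w ρ, N w z : ℕ) : ℝ) * θ + d) :
    ((∑ w ∈ W, ∑ ρ ∈ Finset.range (B + 1), ∑ z ∈ F w ρ, X w z : ℕ) : ℝ) ≤
      (1 + q) ^ 2 * t * θ + 31 * (((B : ℝ) + 1) * d) := by
  have hw : ∀ w ∈ W, ((∑ ρ ∈ Finset.range (B + 1), ∑ z ∈ F w ρ, X w z : ℕ) : ℝ) ≤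
      (1 + q) ^ 2 * ((∑ ρ ∈ Finset.range (B + 1), ∑ z ∈ F w ρ, N w z : ℕ) : ℝ) * θ +
        ((B : ℝ) + 1) * d := by
    intro w hw
    rw [Nat.cast_sum]
    refine (Finset.sum_le_sum fun ρ hρ => hX w hw ρ hρ).trans ?_
    rw [Finset.sum_add_distrib, Finset.sum_const, Finset.card_range, nsmul_eq_mul,
      ← Finset.sum_mul, ← Finset.mul_sum, ← Nat.cast_sum]
    push_cast
    exact le_rfl
  rw [Nat.cast_sum]
  refine (Finset.sum_le_sum hw).trans ?_
  rw [Finset.sum_add_distrib, Finset.sum_const, nsmul_eq_mul, ← Finset.sum_mul,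
    ← Finset.mul_sum, ← Nat.cast_sum]
  have h7 : ((∑ w ∈ W, ∑ ρ ∈ Finset.range (B + 1), ∑ z ∈ F w ρ, N w z : ℕ) : ℝ) ≤ (t : ℝ) :=
    Nat.cast_le.2 hN
  have h8 : (W.card : ℝ) ≤ 31 := by exact_mod_cast hW
  exact arith2 q (Nat.cast_nonneg _) hq.le h7 h8 hθ
    (mul_nonneg (by positivity) hd)

end ILdL

open ILdL in
/-- the lossless load -/
theorem pr_LdL (h1 : StSumL) (h2 : Near) : StLdL := by
  intro q hq hq1 s B n T hs hB hT hsn hZ1 hZ2
  obtain ⟨o0⟩ := ld_opt s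
  obtain ⟨η, hη⟩ := h1 q hq hq1 s B n T o0 hs hB hT hsn hZ1
  refine ⟨ex T o0 η, fun x => ?_⟩
  have hn0 : (0 : ℝ) ≤ n := Nat.cast_nonneg n
  have hB0 : (0 : ℝ) ≤ B := Nat.cast_nonneg B
  have hd : 0 ≤ 2 / q * (2 * (n : ℝ) + 10) :=
    mul_nonneg (div_nonneg zero_le_two hq.le) (by linarith)
  have hD : (0 : ℝ) < 2 ^ (7 * s * B) := pow_pos zero_lt_two _
  have hsplit : (T.filter fun v => Bd.P B (ex T o0 η) v = x).card ≤
      (T.filter fun v => Bd.P B (ex T o0 η) v = x ∧ v.length < B * (5 * s)).card +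
      (T.filter fun v => Bd.P B (ex T o0 η) v = x ∧ B * (5 * s) ≤ v.length).card := by
    refine (Finset.card_le_card ?_).trans (Finset.card_union_le _ _)
    intro v hv
    rw [Finset.mem_filter] at hv
    rw [Finset.mem_union, Finset.mem_filter, Finset.mem_filter]
    rcases Nat.lt_or_ge v.length (B * (5 * s)) with h | h
    · exact Or.inl ⟨hv.1, hv.2, h⟩
    · exact Or.inr ⟨hv.1, hv.2, h⟩
  have hsh := ld_shallow h2 hs (by omega : 0 < B) T (ex T o0 η) x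
  have hdp := ld_deep hs hT o0 η x (B := B)
  have hZpos : 0 < (Z s : ℝ) ^ B := by
    have h5 : 0 < (1 + q) * (Z s : ℝ) ^ B := lt_of_lt_of_le hD hZ2
    exact pos_of_mul_pos_right h5 (by linarith)
  have hθ : (1 / (Z s : ℝ)) ^ B ≤ (1 + q) / 2 ^ (7 * s * B) := by
    rw [one_div, inv_pow, inv_eq_one_div, div_le_div_iff₀ hZpos hD]
    linarith
  have hsum : ((∑ w ∈ ld_W, ∑ ρ ∈ Finset.range (B + 1),
        ∑ z ∈ T.filter (fun z => z.length % (5 * s) = 0 ∧ z.length / (5 * s) % (B + 1) = ρ),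
          Xz B T o0 x w z η : ℕ) : ℝ) ≤
      (1 + q) ^ 2 * T.card * (1 / (Z s : ℝ)) ^ B +
        31 * (((B : ℝ) + 1) * (2 / q * (2 * n + 10))) :=
    sumW ld_W ld_W_card (fun w ρ => T.filter
        (fun z => z.length % (5 * s) = 0 ∧ z.length / (5 * s) % (B + 1) = ρ))
      (fun w z => Xz B T o0 x w z η) (fun w z => (Nz s B T w z).card) hq T.card
      (pow_nonneg (div_nonneg zero_le_one (Nat.cast_nonneg _)) _)
      hd (sumN (B := B) hs T)
      (fun w hw ρ hρ => hη x w (ld_W_len w hw) ρ (Finset.mem_range.mp hρ))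
  refine arith q T.card ((1 / (Z s : ℝ)) ^ B) (2 ^ (7 * s * B)) (B + 1) (2 * n + 10) _ hq hq1
    (Nat.cast_nonneg _) hD hθ (by linarith only [hB0]) (by linarith only [hn0]) ?_
  have h12 : ((T.filter fun v => Bd.P B (ex T o0 η) v = x).card : ℝ) ≤
      ((T.filter fun v => Bd.P B (ex T o0 η) v = x ∧ v.length < B * (5 * s)).card : ℝ) +
      ((T.filter fun v => Bd.P B (ex T o0 η) v = x ∧ B * (5 * s) ≤ v.length).card : ℝ) := by
    exact_mod_cast hsplit
  have h13 : ((T.filter fun v => Bd.P B (ex T o0 η) v = x ∧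
      v.length < B * (5 * s)).card : ℝ) ≤ 31 := by exact_mod_cast hsh
  have h14 : ((T.filter fun v => Bd.P B (ex T o0 η) v = x ∧
      B * (5 * s) ≤ v.length).card : ℝ) ≤
      (1 + q) ^ 2 * T.card * (1 / (Z s : ℝ)) ^ B +
        31 * (((B : ℝ) + 1) * (2 / q * (2 * n + 10))) := by
    refine le_trans ?_ hsum
    exact_mod_cast hdp
  linarith only [h12, h13, h14]

end Pool.Agent.Work.MP_bf01b2_co.Fw
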