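import Pool.Agent.Work.MP_bf01b2_co.Fw.StmtsC

/-! Item Lst (helper15): from lists to functions. -/

set_option autoImplicit false

namespace Pool.Agent.Work.MP_bf01b2_co.Fw

open Pool.Agent.Work.MP_bf01b2_co.Bd

open Classical

namespace ILst

theorem getD_eq {X : Type} (l : List X) (d : X) (i : ℕ) (h : i < l.length) :
    l.getD i d = l[i] := by
  rw [List.getD_eq_getElem?_getD, List.getElem?_eq_getElem h, Option.getD_some]

end ILst

theorem pr_Lst : StLst := by
  intro m f g F L l hL h1 h2 h3
  have hlen : ∀ a κ i, i < L → i < (l a κ).length := fun a κ i hi => lt_of_lt_of_le hi (h1 a κ).2.2.2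
  have hget : ∀ a κ i (hi : i < L), (l a κ).getD i (a, z0) = (l a κ)[i]'(hlen a κ i hi) :=
    fun a κ i hi => ILst.getD_eq _ _ _ _
  have hz0 : ∀ a κ, (l a κ).getD 0 (a, z0) = (a, z0) := by
    intro a κ
    have h := (h1 a κ).2.2.1
    rw [List.head?_eq_getElem?] at h
    rw [List.getD_eq_getElem?_getD, h, Option.getD_some]
  have hinj : ∀ a κ i j, i < L → j < L → (l a κ).getD i (a, z0) = (l a κ).getD j (a, z0) →
      i = j := by
    intro a κ i j hi hj h
    rw [hget a κ i hi, hget a κ j hj] at h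
    exact (h1 a κ).1.getElem_inj_iff.1 h
  refine ⟨fun a κ i => (l a κ).getD i (a, z0), hz0, ?_, hinj, ?_, ?_⟩
  · intro a κ i hi
    show RC ((l a κ).getD i (a, z0)) ((l a κ).getD (i + 1) (a, z0))
    rw [hget a κ i (by omega), hget a κ (i + 1) hi]
    exact List.isChain_iff_getElem.1 (h1 a κ).2.1 i (hlen a κ (i + 1) hi)
  · intro a κ i a' hi0 hi h
    simp only at h
    by_cases ha : a' = a
    · subst ha
      have := hinj a' κ i 0 hi hL (h.trans (hz0 a' κ).symm)
      omega
    · refine h3 a κ a' ha ?_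
      rw [← h, hget a κ i hi]
      exact List.getElem_mem _
  · intro a a' κ κ' i j ha hκ hi hj h
    simp only at h
    rw [hget a κ i hi, hget a' κ' j hj] at h
    refine h2 a a' κ κ' ha hκ _ (List.getElem_mem (hlen a κ i hi)) ?_
    rw [h]
    exact List.getElem_mem _

end Pool.Agent.Work.MP_bf01b2_co.Fw
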