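import Pool.Agent.Work.MP_bf01b2_co.Fw.StmtsC

/-!
# Item Lvs: the childless vertices have degree one
-/

set_option autoImplicit false

namespace Pool.Agent.Work.MP_bf01b2_co.Fw

open Pool.Agent.Work.MP_bf01b2_co.Bd

open Classical

theorem pr_Lvs : StLvs := by
  intro V _ _ G _ s hG hs hadj hV
  have hnt : Nontrivial V := Fintype.one_lt_card_iff_nontrivial.1 hV
  have h1 : lf (Finset.univ.image s) ⊆ (Finset.univ.filter fun v => G.degree v = 1).image s := by
    intro w hw
    obtain ⟨hw1, hw2⟩ := Finset.mem_filter.1 hw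
    obtain ⟨v, _, rfl⟩ := Finset.mem_image.1 hw1
    refine Finset.mem_image.2 ⟨v, Finset.mem_filter.2 ⟨Finset.mem_univ v, ?_⟩, rfl⟩
    have h2 : ∀ u, G.Adj v u → s u = (s v).dropLast := by
      intro u hu
      rcases hadj v u hu with ⟨e, he⟩ | ⟨e, he⟩
      · exfalso
        exact hw2 e (Finset.mem_image.2 ⟨u, Finset.mem_univ u, he⟩)
      · rw [he, List.dropLast_concat]
    have h3 : G.degree v ≤ 1 := by
      rw [← G.card_neighborFinset_eq_degree, Finset.card_le_one]
      intro a ha b hb
      rw [SimpleGraph.mem_neighborFinset] at ha hb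
      exact hs ((h2 a ha).trans (h2 b hb).symm)
    have h4 : 0 < G.degree v := hG.1.preconnected.degree_pos_of_nontrivial v
    omega
  exact (Finset.card_le_card h1).trans Finset.card_image_le

end Pool.Agent.Work.MP_bf01b2_co.Fw
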