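import Pool.Agent.Work.MP_bf01b2_co.Fw.StmtsC

/-!
# Trees with few leaves, item Map: the final map on the contracted tree
-/

set_option autoImplicit false

namespace Pool.Agent.Work.MP_bf01b2_co.Fw

open Pool.Agent.Work.MP_bf01b2_co.Bd

open Classical

namespace IMap

/-- numbers in the fibres -/
theorem num {X : Type} {S : Finset (List Bool)} {Φ : List Bool → X} {F : ℕ} (hF : 0 < F)
    (h : Fib S Φ F) : ∃ κ : List Bool → Fin F, ∀ s ∈ S, ∀ t ∈ S, Φ s = Φ t → κ s = κ t → s = t := by
  have h1 : ∀ x : X, ∃ κ : List Bool → Fin F, ∀ s ∈ S, ∀ t ∈ S, Φ s = x → Φ t = x →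
      κ s = κ t → s = t := by
    intro x
    set A := S.filter fun v => Φ v = x with hA
    have hc : A.card ≤ F := h x
    refine ⟨fun s => if hs : s ∈ A then Fin.castLE hc (A.equivFin ⟨s, hs⟩) else ⟨0, hF⟩, ?_⟩
    intro s hs t ht hsx htx hst
    have hs' : s ∈ A := Finset.mem_filter.2 ⟨hs, hsx⟩
    have ht' : t ∈ A := Finset.mem_filter.2 ⟨ht, htx⟩
    simp only [hs', ht', dif_pos] at hst
    have h2 := A.equivFin.injective (Fin.castLE_injective hc hst)
    exact congrArg Subtype.val h2
  choose κ hκ using h1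
  refine ⟨fun s => κ (Φ s) s, fun s hs t ht hst hk => ?_⟩
  have hk' : κ (Φ s) s = κ (Φ s) t := by
    have hk2 : κ (Φ s) s = κ (Φ t) t := hk
    rw [hk2, hst]
  exact hκ (Φ s) s hs t ht rfl hst.symm hk'

/-- number of passed good blocks -/
noncomputable def cnt (D : Finset (List Bool)) (s : List Bool) : ℕ :=
  ((Finset.range s.length).filter fun t => s.take t ∈ D).card

theorem cnt_append (D : Finset (List Bool)) (s : List Bool) (e : Bool) :
    cnt D (s ++ [e]) = cnt D s + if s ∈ D then 1 else 0 := by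
  unfold cnt
  rw [List.length_append, List.length_singleton, Finset.range_add_one, Finset.filter_insert]
  have h1 : (s ++ [e]).take s.length = s := by simp
  have h2 : (Finset.range s.length).filter (fun t => (s ++ [e]).take t ∈ D) =
      (Finset.range s.length).filter (fun t => s.take t ∈ D) := by
    apply Finset.filter_congr
    intro t ht
    rw [Finset.mem_range] at ht
    rw [List.take_append_of_le_length ht.le]
  rw [h1, h2]
  by_cases hs : s ∈ D
  · rw [if_pos hs, if_pos hs, Finset.card_insert_of_notMem]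
    simp
  · rw [if_neg hs, if_neg hs, Nat.add_zero]

theorem A1_symm {ι : Type} {x y : ι → Bool} (h : A1 x y) : A1 y x := by
  obtain ⟨i, hi⟩ := h
  exact ⟨i, fun j => by rw [ne_comm]; exact hi j⟩

theorem Bx_symm {α β : Type} {R : α → α → Prop} {S : β → β → Prop} (hR : ∀ x y, R x y → R y x)
    (hS : ∀ x y, S x y → S y x) {p q : α × β} (h : Bx R S p q) : Bx R S q p := by
  rcases h with ⟨h1, h2⟩ | ⟨h1, h2⟩
  · exact Or.inl ⟨hR _ _ h1, h2.symm⟩
  · exact Or.inr ⟨h1.symm, hS _ _ h2⟩

theorem RC_symm {m f g : ℕ} {p q : Cl m f g} (h : RC p q) : RC q p := by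
  unfold RC at h ⊢
  refine Bx_symm (fun _ _ h1 => A1_symm h1) (fun _ _ h1 => ?_) h
  exact Bx_symm (fun _ _ h2 => A1_symm h2) (fun _ _ h2 => A1_symm h2) h1

/-- reflected index -/
def ri (L i : ℕ) : ℕ := if i < L then i else 2 * L - 1 - i

end IMap

open IMap

theorem pr_Map (hCol : StCol) (hLst : StLst) : StMap := by
  intro k m f g F L S D Φ ψ hS hDS hE hFib hF hFg hL hLb
  obtain ⟨l, hl1, hl2, hl3⟩ := hCol m f g F L hF hFg hL hLb
  obtain ⟨z, hz1, hz2, hz3, hz4, hz5⟩ := hLst m f g F L l hL hl1 hl2 hl3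
  obtain ⟨κ, hκ⟩ := num hF hFib
  let hh : List Bool → Bool := fun s => (cnt D s).bodd
  have hh1 : ∀ s e, s ∈ D → hh (s ++ [e]) = !hh s := by
    intro s e hs
    show (cnt D (s ++ [e])).bodd = !(cnt D s).bodd
    rw [cnt_append, if_pos hs, Nat.bodd_succ]
  have hh2 : ∀ s e, s ∉ D → hh (s ++ [e]) = hh s := by
    intro s e hs
    show (cnt D (s ++ [e])).bodd = (cnt D s).bodd
    rw [cnt_append, if_neg hs, Nat.add_zero]
  let Θ : List Bool → ℕ → Wh k m f g := fun s i =>
    (Φ s, (z (ψ s) (κ s) (ri L i), if i < L then hh s else !hh s))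
  refine ⟨Θ, ?_, ?_, ?_⟩
  · intro s hs t ht i j hi hj _ _ hij
    have e1 : Φ s = Φ t := congrArg Prod.fst hij
    have e2 : z (ψ s) (κ s) (ri L i) = z (ψ t) (κ t) (ri L j) :=
      congrArg (fun p => p.2.1) hij
    have e3 : (if i < L then hh s else !hh s) = (if j < L then hh t else !hh t) :=
      congrArg (fun p => p.2.2) hij
    have hri : ri L i < L := by
      unfold ri
      split_ifs <;> omega
    have hrj : ri L j < L := by
      unfold ri
      split_ifs <;> omega
    have hst : s = t := by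
      by_contra hne
      have h1 : ψ s ≠ ψ t := fun h => hne (hE.inj s hs t ht e1 h)
      have h2 : κ s ≠ κ t := fun h => hne (hκ s hs t ht e1 h)
      exact hz5 _ _ _ _ _ _ h1 h2 hri hrj e2
    subst hst
    refine ⟨rfl, ?_⟩
    have e4 : ri L i = ri L j := hz3 _ _ _ _ hri hrj e2
    unfold ri at e4
    by_cases h1 : i < L
    · by_cases h2 : j < L
      · rw [if_pos h1, if_pos h2] at e4
        exact e4
      · rw [if_pos h1, if_neg h2] at e3
        exfalso
        revert e3
        cases hh s <;> decide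
    · by_cases h2 : j < L
      · rw [if_neg h1, if_pos h2] at e3
        exfalso
        revert e3
        cases hh s <;> decide
      · rw [if_neg h1, if_neg h2] at e4
        omega
  · intro s _ i hi
    refine Or.inr ⟨rfl, ?_⟩
    show Bx RC (fun a b => a ≠ b) (z (ψ s) (κ s) (ri L i), if i < L then hh s else !hh s)
      (z (ψ s) (κ s) (ri L (i + 1)), if i + 1 < L then hh s else !hh s)
    rcases lt_trichotomy (i + 1) L with h | h | h
    · have h1 : i < L := by omega
      have r1 : ri L i = i := if_pos h1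
      have r2 : ri L (i + 1) = i + 1 := if_pos h
      rw [r1, r2, if_pos h1, if_pos h]
      exact Or.inl ⟨hz2 _ _ _ h, rfl⟩
    · have h1 : i < L := by omega
      have h2 : ¬ i + 1 < L := by omega
      have r1 : ri L i = i := if_pos h1
      have r2 : ri L (i + 1) = i := by
        unfold ri
        rw [if_neg h2]
        omega
      rw [r1, r2, if_pos h1, if_neg h2]
      refine Or.inr ⟨rfl, ?_⟩
      show hh s ≠ !hh s
      cases hh s <;> decide
    · have h1 : ¬ i < L := by omega
      have h2 : ¬ i + 1 < L := by omega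
      have r1 : ri L i = ri L (i + 1) + 1 := by
        unfold ri
        rw [if_neg h1, if_neg h2]
        omega
      have r2 : ri L (i + 1) + 1 < L := by
        unfold ri
        rw [if_neg h2]
        omega
      rw [r1, if_neg h1, if_neg h2]
      exact Or.inl ⟨RC_symm (hz2 _ _ _ r2), rfl⟩
  · intro s e hse
    have h0 : Θ (s ++ [e]) 0 = (Φ (s ++ [e]), ((ψ (s ++ [e]), z0), hh (s ++ [e]))) := by
      show (Φ (s ++ [e]), (z (ψ (s ++ [e])) (κ (s ++ [e])) (ri L 0),
        if 0 < L then hh (s ++ [e]) else !hh (s ++ [e]))) = _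
      have r : ri L 0 = 0 := if_pos hL
      rw [r, if_pos hL, hz1]
    have h1 : Θ s (if s ∈ D then 2 * L - 1 else 0) =
        (Φ s, ((ψ s, z0), hh (s ++ [e]))) := by
      by_cases hs : s ∈ D
      · rw [if_pos hs]
        show (Φ s, (z (ψ s) (κ s) (ri L (2 * L - 1)),
          if 2 * L - 1 < L then hh s else !hh s)) = _
        have h2 : ¬ 2 * L - 1 < L := by omega
        have r : ri L (2 * L - 1) = 0 := by
          unfold ri
          rw [if_neg h2]
          omega
        rw [r, if_neg h2, hz1, hh1 s e hs]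
      · rw [if_neg hs]
        show (Φ s, (z (ψ s) (κ s) (ri L 0), if 0 < L then hh s else !hh s)) = _
        have r : ri L 0 = 0 := if_pos hL
        rw [r, if_pos hL, hz1, hh2 s e hs]
    rw [h0, h1]
    rcases hE.adj s e hse with ⟨a1, a2⟩ | ⟨a1, a2⟩
    · refine Or.inl ⟨a1, ?_⟩
      show (((ψ s, z0), hh (s ++ [e])) : Cl m f g × Bool) = ((ψ (s ++ [e]), z0), hh (s ++ [e]))
      have a2' : ψ s = ψ (s ++ [e]) := a2
      rw [a2']
    · exact Or.inr ⟨a1, Or.inl ⟨Or.inl ⟨a2, rfl⟩, rfl⟩⟩

end Pool.Agent.Work.MP_bf01b2_co.Fw
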