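import Pool.Agent.Work.MP_bf01b2_co.Fw.StmtsL
import Pool.Agent.Work.MP_bf01b2_co.Bd.MZ

set_option autoImplicit false

namespace Pool.Agent.Work.MP_bf01b2_co.Fw

open Pool.Agent.Work.MP_bf01b2_co.Bd

open Classical

namespace IMomL

theorem exp_le {x : ℝ} (h0 : 0 ≤ x) (h1 : x ≤ 1) : Real.exp x ≤ 1 + x + x ^ 2 := by
  have h := Real.exp_bound' h0 h1 (n := 2) (by norm_num)
  norm_num [Finset.sum_range_succ, Nat.factorial] at h
  nlinarith [sq_nonneg x]

end IMomL

theorem pr_MomL (h : ProbS) : StMomL := by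
  intro q hq0 hq1 s B T o0 x w z hs hB hT hw hz hZ ω
  set N := Nz s B T w z with hN
  set Ωc : ℝ := (Fintype.card ({y // y ∈ T} → Opt s) : ℝ) with hΩc
  set p : ({y // y ∈ T} → Opt s) → List Bool → Prop := fun η β =>
    Bd.P B (ex T o0 (mix (Rz s B T z) η ω)) (β ++ w) = x with hp
  set θ : ℝ := 1 / (Z s : ℝ) with hθ
  have hZpos : 0 < Z s := by
    by_contra h0
    have h1 : Z s = 0 := by omega
    rw [h1, Nat.cast_zero, zero_pow (by omega), mul_zero] at hZ
    have : (0 : ℝ) < 2 ^ (5 * s * (B + 1)) := by positivity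
    linarith
  have hZr : (0 : ℝ) < Z s := by exact_mod_cast hZpos
  have hθpos : 0 < θ := by positivity
  have hΩpos : 0 ≤ Ωc := Nat.cast_nonneg _
  -- expansion
  have e1 : ∀ η, (1 + q) ^ Xz B T o0 x w z (mix (Rz s B T z) η ω) =
      ∑ S ∈ N.powerset, if ∀ β ∈ S, p η β then q ^ S.card else 0 := by
    intro η
    have q1 : N.powerset.filter (fun S => ∀ β ∈ S, p η β) = (N.filter (p η)).powerset := by
      ext S
      rw [Finset.mem_filter, Finset.mem_powerset, Finset.mem_powerset]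
      constructor
      · rintro ⟨a, b⟩ β hβ
        exact Finset.mem_filter.2 ⟨a hβ, b β hβ⟩
      · intro a
        exact ⟨fun β hβ => (Finset.mem_filter.1 (a hβ)).1,
          fun β hβ => (Finset.mem_filter.1 (a hβ)).2⟩
    rw [← Finset.sum_filter, q1]
    have q2 := Finset.sum_pow_mul_eq_add_pow q (1 : ℝ) (N.filter (p η))
    simp only [one_pow, mul_one] at q2
    rw [q2, add_comm]
    rfl
  have e2 : ∑ η : {y // y ∈ T} → Opt s, (1 + q) ^ Xz B T o0 x w z (mix (Rz s B T z) η ω) =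
      ∑ S ∈ N.powerset, q ^ S.card * ((Finset.univ.filter fun η => ∀ β ∈ S, p η β).card : ℝ) := by
    rw [Finset.sum_congr rfl fun η _ => e1 η, Finset.sum_comm]
    refine Finset.sum_congr rfl fun S _ => ?_
    rw [← Finset.sum_filter, Finset.sum_const, nsmul_eq_mul, mul_comm]
  set y : ℝ := q * θ ^ (B - 1) with hy
  have hypos : 0 < y := by positivity
  have e3 : ∀ S ∈ N.powerset,
      q ^ S.card * ((Finset.univ.filter fun η => ∀ β ∈ S, p η β).card : ℝ) ≤
      (θ * y ^ S.card + if S = ∅ then 1 - θ else 0) * Ωc := by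
    intro S hS
    by_cases hS0 : S = ∅
    · rw [if_pos hS0, hS0, Finset.card_empty, pow_zero, pow_zero, one_mul]
      have q0 : (θ * 1 + (1 - θ)) * Ωc = Ωc := by ring
      rw [q0]
      have q2 := Finset.card_le_univ
        (Finset.univ.filter fun η : {y // y ∈ T} → Opt s => ∀ β ∈ (∅ : Finset (List Bool)), p η β)
      rw [hΩc]
      exact_mod_cast q2
    · rw [if_neg hS0, add_zero]
      have q0 := h s B T o0 x w z hs hB hT hw hz ω S (Finset.mem_powerset.1 hS)
        (Finset.nonempty_iff_ne_empty.2 hS0)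
      have q3 : (0 : ℝ) < q ^ S.card := by positivity
      refine (mul_le_mul_of_nonneg_left q0 q3.le).trans (le_of_eq ?_)
      rw [hy, mul_pow, ← pow_mul, pow_succ]
      ring
  rw [e2]
  refine (Finset.sum_le_sum e3).trans ?_
  rw [← Finset.sum_mul]
  refine mul_le_mul_of_nonneg_right ?_ hΩpos
  rw [Finset.sum_add_distrib, ← Finset.mul_sum]
  have e4 : ∑ S ∈ N.powerset, y ^ S.card = (1 + y) ^ N.card := by
    have q0 := Finset.sum_pow_mul_eq_add_pow y (1 : ℝ) N
    simp only [one_pow, mul_one] at q0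
    rw [q0, add_comm]
  have e5 : ∑ S ∈ N.powerset, (if S = ∅ then 1 - θ else 0) = 1 - θ := by
    rw [Finset.sum_ite_eq' N.powerset ∅ (fun _ => 1 - θ), if_pos (Finset.empty_mem_powerset N)]
  rw [e4, e5]
  have hNt : (N.card : ℝ) * θ ^ (B - 1) ≤ q := by
    have q1 : N.card ≤ 2 ^ (5 * s * (B + 1)) := mz_count s B T w z hs hz
    have q2 : (N.card : ℝ) ≤ q * (Z s : ℝ) ^ (B - 1) := by
      refine le_trans ?_ hZ
      exact_mod_cast q1
    rw [hθ, one_div, inv_pow, ← div_eq_mul_inv, div_le_iff₀ (by positivity)]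
    exact q2
  have hNy : (N.card : ℝ) * y ≤ q := by
    have q1 : (N.card : ℝ) * y = q * ((N.card : ℝ) * θ ^ (B - 1)) := by
      rw [hy]
      ring
    rw [q1]
    nlinarith
  have hN0 : (0 : ℝ) ≤ (N.card : ℝ) * y := by positivity
  have e6 : (1 + y) ^ N.card ≤ 1 + (1 + q) * ((N.card : ℝ) * y) := by
    have q1 : (1 + y) ^ N.card ≤ Real.exp ((N.card : ℝ) * y) := by
      rw [Real.exp_nat_mul]
      refine pow_le_pow_left₀ (by positivity) ?_ _
      have := Real.add_one_le_exp y
      linarith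
    refine (q1.trans (IMomL.exp_le hN0 (hNy.trans hq1))).trans ?_
    nlinarith
  have e7 : θ * ((1 + q) * ((N.card : ℝ) * y)) = q * (1 + q) * ((N.card : ℝ) * θ ^ B) := by
    have q0 : θ ^ B = θ * θ ^ (B - 1) := by
      rw [← pow_succ']
      congr 1
      omega
    rw [q0, hy]
    ring
  have e8 := mul_le_mul_of_nonneg_left e6 hθpos.le
  rw [mul_add, e7] at e8
  linarith

end Pool.Agent.Work.MP_bf01b2_co.Fw
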