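import Pool.Agent.Work.MP_bf01b2_co.Fw.StmtsC

/-!
# MP_bf01b2_co, few leaves, item Num: the numbers
-/

set_option autoImplicit false

namespace Pool.Agent.Work.MP_bf01b2_co.Fw

open Pool.Agent.Work.MP_bf01b2_co.Bd

open Classical

namespace INum

/-- the real inequality -/
lemma real_ineq {δ M R Φ G F q : ℝ} (hδ : 0 < δ) (hδ1 : δ < 1) (hM : 0 < M) (hR : 0 < R)
    (hG : 0 < G) (hq : 0 ≤ q) (hF : F ≤ R * (1 + δ / 8)) (hRM : R ≤ δ / 4 * M)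
    (hΦ : 2 ≤ δ / 8 * Φ) (hqF : M ≤ F * (q + 1)) :
    (1 - δ) * (M * Φ * G * 2) ≤ (1 - 2 * (δ / 8)) * (2 * (q * ((Φ - 2) * G))) * R := by
  have hΦ0 : 0 < Φ := by
    by_contra h
    push Not at h
    nlinarith
  have h1 : M ≤ R * (1 + δ / 8) * (q + 1) := hqF.trans (mul_le_mul_of_nonneg_right hF (by linarith))
  -- `q R ≥ M (1 - 3 δ / 8)`
  have h2 : M * (1 - δ / 8) ≤ R * (q + 1) := by
    have h3 : M * (1 - δ / 8) ≤ R * (1 + δ / 8) * (q + 1) * (1 - δ / 8) :=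
      mul_le_mul_of_nonneg_right h1 (by linarith)
    have h4 : R * (1 + δ / 8) * (q + 1) * (1 - δ / 8) = R * (q + 1) * (1 - δ ^ 2 / 64) := by ring
    have h5 : R * (q + 1) * (1 - δ ^ 2 / 64) ≤ R * (q + 1) := by
      have h6 : 0 ≤ R * (q + 1) := by positivity
      nlinarith [sq_nonneg δ, mul_nonneg h6 (sq_nonneg δ)]
    linarith
  have h3 : M * (1 - 3 * δ / 8) ≤ q * R := by nlinarith
  have h4 : Φ * (1 - δ / 8) ≤ Φ - 2 := by nlinarith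
  have h5 : M * (1 - 3 * δ / 8) * (Φ * (1 - δ / 8)) ≤ q * R * (Φ - 2) := by
    refine mul_le_mul h3 h4 ?_ (by positivity)
    exact mul_nonneg hΦ0.le (by linarith)
  have hMΦ : 0 < M * Φ := mul_pos hM hΦ0
  have h6 : M * Φ * (1 - δ / 2) ≤ q * R * (Φ - 2) := by
    refine le_trans ?_ h5
    have : M * (1 - 3 * δ / 8) * (Φ * (1 - δ / 8)) = M * Φ * (1 - δ / 2 + 3 * δ ^ 2 / 64) := by ring
    rw [this]
    exact mul_le_mul_of_nonneg_left (by nlinarith [sq_nonneg δ]) hMΦ.le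
  have h7 : (1 - δ / 4) * (M * Φ * (1 - δ / 2)) ≤ (1 - δ / 4) * (q * R * (Φ - 2)) :=
    mul_le_mul_of_nonneg_left h6 (by linarith)
  have h8 : (1 - δ) * (M * Φ) ≤ (1 - δ / 4) * (M * Φ * (1 - δ / 2)) := by
    have : (1 - δ / 4) * (M * Φ * (1 - δ / 2)) = M * Φ * (1 - 3 * δ / 4 + δ ^ 2 / 8) := by ring
    rw [this, mul_comm (1 - δ)]
    exact mul_le_mul_of_nonneg_left (by nlinarith [sq_nonneg δ]) hMΦ.le
  have h9 : (1 - δ) * (M * Φ) ≤ (1 - δ / 4) * (q * R * (Φ - 2)) := h8.trans h7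
  have h10 : (1 - δ) * (M * Φ) * (2 * G) ≤ (1 - δ / 4) * (q * R * (Φ - 2)) * (2 * G) :=
    mul_le_mul_of_nonneg_right h9 (by positivity)
  linarith [h10]

end INum

theorem pr_Num : StNum := by
  intro δ hδ hδ1
  obtain ⟨r1, hr1⟩ := exists_nat_ge (32 / δ)
  set r0 : ℕ := r1 + 45 with hr0
  have hr0pos : (0 : ℝ) < r0 := by
    rw [hr0]
    positivity
  have hr0δ : 4 / (r0 : ℝ) ≤ δ / 8 := by
    rw [div_le_div_iff₀ hr0pos (by norm_num)]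
    have h1 : (32 / δ : ℝ) ≤ r0 := by
      rw [hr0]
      push_cast
      linarith
    rw [div_le_iff₀ hδ] at h1
    linarith
  refine ⟨δ / 8, r0, by linarith, by omega, fun m0 => ?_⟩
  have haa1 : (2 : ℝ) ^ r0 ≤ aa r0 := by
    unfold aa
    have h1 : (0 : ℝ) ≤ 4 / (r0 : ℝ) := by positivity
    have h2 : (0 : ℝ) < 2 ^ r0 := by positivity
    nlinarith
  have haa2 : aa r0 ≤ 2 ^ r0 * (1 + δ / 8) := by
    unfold aa
    gcongr
  have hone : (1 : ℝ) ≤ 2 ^ r0 := one_le_pow₀ (by norm_num)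
  set F : ℕ := ⌊aa r0⌋₊ with hFdef
  have hF0 : 0 < F := Nat.floor_pos.2 (hone.trans haa1)
  have hFle : (F : ℝ) ≤ 2 ^ r0 * (1 + δ / 8) := (Nat.floor_le (by linarith)).trans haa2
  obtain ⟨f0, hf0⟩ := pow_unbounded_of_one_lt (16 / δ) (by norm_num : (1 : ℝ) < 2)
  obtain ⟨p, hp⟩ := pow_unbounded_of_one_lt (4 / δ) (by norm_num : (1 : ℝ) < 2)
  set f : ℕ := f0 + 2 with hf
  set m : ℕ := m0 + r0 + p with hm
  set q : ℕ := 2 ^ m / F with hq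
  have hΦ : (2 : ℝ) ≤ δ / 8 * 2 ^ f := by
    have h1 : (16 / δ : ℝ) < 2 ^ f := hf0.trans_le (pow_le_pow_right₀ (by norm_num) (by omega))
    rw [div_lt_iff₀ hδ] at h1
    linarith
  have hRM : (2 : ℝ) ^ r0 ≤ δ / 4 * 2 ^ m := by
    have h1 : (4 / δ : ℝ) ≤ 2 ^ p := hp.le
    rw [div_le_iff₀ hδ] at h1
    have h2 : (2 : ℝ) ^ m = 2 ^ m0 * 2 ^ r0 * 2 ^ p := by rw [hm, pow_add, pow_add]
    have h3 : (1 : ℝ) ≤ 2 ^ m0 := one_le_pow₀ (by norm_num)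
    rw [h2]
    have h4 : (1 : ℝ) ≤ 2 ^ m0 * (δ / 4 * 2 ^ p) := by
      have : (1 : ℝ) ≤ δ / 4 * 2 ^ p := by linarith
      exact one_le_mul_of_one_le_of_one_le h3 this
    have h5 : δ / 4 * (2 ^ m0 * 2 ^ r0 * 2 ^ p) = 2 ^ r0 * (2 ^ m0 * (δ / 4 * 2 ^ p)) := by ring
    rw [h5]
    exact le_mul_of_one_le_right (by positivity) h4
  have hFM : F ≤ 2 ^ m := by
    have h1 : (F : ℝ) ≤ 2 ^ m := by
      refine hFle.trans ?_
      have h2 : (0 : ℝ) < 2 ^ m := by positivity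
      have h3 : (0 : ℝ) < 2 ^ r0 := by positivity
      nlinarith
    exact_mod_cast h1
  have hq1 : 0 < q := Nat.div_pos hFM hF0
  have hf4 : 4 ≤ 2 ^ f := by
    calc 4 = 2 ^ 2 := by norm_num
      _ ≤ 2 ^ f := Nat.pow_le_pow_right (by norm_num) (by omega)
  have hqF : ((2 : ℝ)) ^ m ≤ F * (q + 1) := by
    have h1 : 2 ^ m < F * (q + 1) := by
      have := Nat.lt_mul_div_succ (2 ^ m) hF0
      exact this
    exact_mod_cast h1.le
  refine ⟨m, f, F, q * ((2 ^ f - 2) * 2 ^ F), by omega, ?_, by omega, hF0, ?_, le_rfl, ?_⟩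
  · have h1 : 0 < 2 ^ f - 2 := by omega
    positivity
  · exact (Nat.lt_two_pow_self (n := F)).le
  · have hkey := INum.real_ineq (δ := δ) (M := 2 ^ m) (R := 2 ^ r0) (Φ := 2 ^ f) (G := 2 ^ F)
      (F := F) (q := q) hδ hδ1 (by positivity) (by positivity) (by positivity) (by positivity)
      hFle hRM hΦ hqF
    have hβ : ((2 : ℝ)) ^ (m + f + F + 1 - r0) * 2 ^ r0 = 2 ^ m * 2 ^ f * 2 ^ F * 2 := by
      rw [← pow_add, Nat.sub_add_cancel (by omega), pow_succ, pow_add, pow_add]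
    have hcast : ((q * ((2 ^ f - 2) * 2 ^ F) : ℕ) : ℝ) = q * (((2 : ℝ) ^ f - 2) * 2 ^ F) := by
      rw [Nat.cast_mul, Nat.cast_mul, Nat.cast_sub (by omega)]
      push_cast
      ring
    rw [hcast]
    have hR0 : (0 : ℝ) < 2 ^ r0 := by positivity
    rw [← hβ] at hkey
    have h2 : (1 - δ) * 2 ^ (m + f + F + 1 - r0) * 2 ^ r0 ≤
        (1 - 2 * (δ / 8)) * (2 * (q * (((2 : ℝ) ^ f - 2) * 2 ^ F))) * 2 ^ r0 := by
      calc (1 - δ) * 2 ^ (m + f + F + 1 - r0) * 2 ^ r0 =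
          (1 - δ) * (2 ^ (m + f + F + 1 - r0) * 2 ^ r0) := by ring
        _ ≤ _ := hkey
    exact le_of_mul_le_mul_right h2 hR0

end Pool.Agent.Work.MP_bf01b2_co.Fw
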