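import Pool.Agent.Work.MP_bf01b2_co.Fw.StmtsL

/-!
# MP_bf01b2_co, trees with few leaves: item PaL, choice of the parameters
-/

set_option autoImplicit false

namespace Pool.Agent.Work.MP_bf01b2_co.Fw

open Pool.Agent.Work.MP_bf01b2_co.Bd

open Classical

namespace IPaL

theorem nu_pow (L : ℕ) (hL : 41 ≤ L) : 4000000 * L ^ 2 ≤ 2 ^ (L - 1) := by
  induction L, hL using Nat.le_induction with
  | base => norm_num
  | succ L hL ih =>
    have h1 : 2 ^ (L + 1 - 1) = 2 * 2 ^ (L - 1) := by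
      rw [← pow_succ']
      congr 1
      omega
    rw [h1]
    nlinarith

theorem nu_r : ((823543 : ℝ) / 884736) ^ 10 ≤ 1 / 2 := by norm_num

/-- Lower bound for the powers of `Z`. -/
theorem nu_Z (h : ZLow) (q : ℝ) (hq : 0 < q) (hq1 : q ≤ 1) (L c k : ℕ)
    (hc : 16 ≤ q * 2 ^ c) (hk : k ≤ 2 ^ L) :
    (2 : ℝ) ^ (7 * (10 * (L + c)) * k) * (1 - q / 8) ≤ (Z (10 * (L + c)) : ℝ) ^ k := by
  have h1 := h (10 * (L + c))
  have h2 : ((823543 : ℝ) / 884736) ^ (10 * (L + c)) ≤ (1 / 2) ^ (L + c) := by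
    rw [pow_mul]
    exact pow_le_pow_left₀ (by positivity) nu_r _
  set δ : ℝ := 2 * ((823543 : ℝ) / 884736) ^ (10 * (L + c)) with hδ
  have hδ0 : 0 ≤ δ := by positivity
  have hL1 : (1 : ℝ) ≤ 2 ^ L := one_le_pow₀ (by norm_num)
  have hc1 : (0 : ℝ) < 2 ^ c := by positivity
  have h3 : δ * (2 ^ L * 2 ^ c) ≤ 2 := by
    have h4 : (1 / 2 : ℝ) ^ (L + c) * (2 ^ L * 2 ^ c) = 1 := by
      rw [← pow_add, ← mul_pow]
      norm_num
    have h5 : ((823543 : ℝ) / 884736) ^ (10 * (L + c)) * (2 ^ L * 2 ^ c) ≤ 1 := by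
      rw [← h4]
      exact mul_le_mul_of_nonneg_right h2 (by positivity)
    rw [hδ]
    linarith
  have h6 : δ * 2 ^ L ≤ q / 8 := by
    have h7 : δ * 2 ^ L * 2 ^ c ≤ q / 8 * 2 ^ c := by
      calc δ * 2 ^ L * 2 ^ c = δ * (2 ^ L * 2 ^ c) := by ring
        _ ≤ 2 := h3
        _ ≤ q / 8 * 2 ^ c := by linarith
    exact le_of_mul_le_mul_right h7 hc1
  have hkδ : (k : ℝ) * δ ≤ q / 8 := by
    have hk' : (k : ℝ) ≤ 2 ^ L := by exact_mod_cast hk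
    calc (k : ℝ) * δ ≤ 2 ^ L * δ := mul_le_mul_of_nonneg_right hk' hδ0
      _ ≤ q / 8 := by linarith
  have hδ1 : δ ≤ 1 / 8 := by
    have : δ * 1 ≤ δ * 2 ^ L := mul_le_mul_of_nonneg_left hL1 hδ0
    linarith
  have h7 : 1 + (k : ℝ) * (-δ) ≤ (1 + -δ) ^ k := one_add_mul_le_pow (by linarith) k
  have h8 : ((2 : ℝ) ^ (7 * (10 * (L + c))) * (1 - δ)) ^ k ≤ (Z (10 * (L + c)) : ℝ) ^ k :=
    pow_le_pow_left₀ (mul_nonneg (by positivity) (by linarith)) h1 k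
  rw [mul_pow, ← pow_mul] at h8
  have h9 : 1 - q / 8 ≤ (1 - δ) ^ k := by
    have : (1 + -δ) = 1 - δ := by ring
    rw [this] at h7
    linarith
  exact (mul_le_mul_of_nonneg_left h9 (by positivity)).trans h8

/-- The statement for `q ≤ 1`. -/
theorem main (h : ZLow) (q A : ℝ) (r0 : ℕ) (hq : 0 < q) (hq1 : q ≤ 1) :
    ∃ n0 : ℕ, ∀ n : ℕ, n0 ≤ n → ∃ s B : ℕ,
      0 < s ∧ 4 ≤ B ∧ 7 * s * B + r0 ≤ n ∧
      (2 : ℝ) ^ (5 * s * (B + 1)) ≤ q * (Z s : ℝ) ^ (B - 1) ∧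
      (2 : ℝ) ^ (7 * s * B) ≤ (1 + q) * (Z s : ℝ) ^ B ∧
      A * (B + 1) * (2 * n + 10) ≤ 2 ^ (n - 7 * s * B) ∧
      20 * (n - 7 * s * B) ^ 2 ≤ (B - 2) * (5 * s) := by
  obtain ⟨c1, hc1⟩ := pow_unbounded_of_one_lt (16 / q) (by norm_num : (1 : ℝ) < 2)
  obtain ⟨c2, hc2⟩ := pow_unbounded_of_one_lt (24 * |A|) (by norm_num : (1 : ℝ) < 2)
  obtain ⟨c, hc⟩ : ∃ c, c = c1 + c2 + r0 + 4 := ⟨_, rfl⟩
  have hcq : 16 ≤ q * 2 ^ c := by
    have h1 : (2 : ℝ) ^ c1 ≤ 2 ^ c := pow_le_pow_right₀ (by norm_num) (by omega)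
    have h2 : 16 / q ≤ 2 ^ c := hc1.le.trans h1
    rw [div_le_iff₀ hq] at h2
    linarith
  have hcA : 24 * |A| ≤ 2 ^ c := by
    have h1 : (2 : ℝ) ^ c2 ≤ 2 ^ c := pow_le_pow_right₀ (by norm_num) (by omega)
    exact hc2.le.trans h1
  have hcr : r0 ≤ c := by omega
  clear hc hc1 hc2
  refine ⟨2 ^ (40 + c), ?_⟩
  intro n hn
  have hn0 : n ≠ 0 := by
    have : 0 < 2 ^ (40 + c) := by positivity
    omega
  set L := Nat.log 2 n + 1 with hL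
  have hL1 : n < 2 ^ L := Nat.lt_pow_succ_log_self (by norm_num) n
  have hL2 : 2 ^ (L - 1) ≤ n := by
    rw [hL, Nat.add_sub_cancel]
    exact Nat.pow_log_le_self 2 hn0
  have hL3 : 41 + c ≤ L := by
    have : 40 + c ≤ Nat.log 2 n := Nat.le_log_of_pow_le (by norm_num) hn
    omega
  have hL4 : 4000000 * L ^ 2 ≤ n := (nu_pow L (by omega)).trans hL2
  clear_value L
  clear hn hL2 hL
  obtain ⟨K, hK⟩ : ∃ K, K = L + c := ⟨_, rfl⟩
  have hK1 : 1000000 * K ^ 2 ≤ n := by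
    have h1 : K ≤ 2 * L := by omega
    have h2 : K ^ 2 ≤ (2 * L) ^ 2 := Nat.pow_le_pow_left h1 2
    have h3 : (2 * L) ^ 2 = 4 * L ^ 2 := by ring
    omega
  have hK2 : 41 ≤ K := by omega
  have hKK : 41 * K ≤ K ^ 2 := by nlinarith
  obtain ⟨s, hs⟩ : ∃ s, s = 10 * (L + c) := ⟨_, rfl⟩
  obtain ⟨B, hB⟩ : ∃ B, B = (n - 2 * L - c) / (7 * s) := ⟨_, rfl⟩
  have hs0 : 0 < 7 * s := by omega
  have hup : 7 * s * B ≤ n - 2 * L - c := by
    rw [hB]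
    exact Nat.mul_div_le _ _
  have hlo : n - 2 * L - c < 7 * s * B + 7 * s := by
    have := Nat.lt_mul_div_succ (n - 2 * L - c) hs0
    rw [← hB] at this
    linarith [Nat.mul_succ (7 * s) B]
  have hB7 : 7 ≤ B := by
    rw [hB, Nat.le_div_iff_mul_le hs0]
    omega
  have hBn : B ≤ 2 ^ L := by
    have h1 : B ≤ 7 * s * B := Nat.le_mul_of_pos_left _ hs0
    omega
  refine ⟨s, B, by omega, by omega, by omega, ?_, ?_, ?_, ?_⟩
  · have h1 := nu_Z h q hq hq1 L c (B - 1) hcq (by omega)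
    rw [← hs] at h1
    have h2 : 5 * s * (B + 1) + c ≤ 7 * s * (B - 1) := by
      obtain ⟨b, rfl⟩ : ∃ b, B = b + 7 := ⟨B - 7, by omega⟩
      have e1 : b + 7 - 1 = b + 6 := by omega
      rw [e1]
      have e2 : 5 * s * (b + 7 + 1) = 5 * (s * b) + 40 * s := by ring
      have e3 : 7 * s * (b + 6) = 7 * (s * b) + 42 * s := by ring
      rw [e2, e3]
      omega
    have h3 : (2 : ℝ) ^ (5 * s * (B + 1) + c) ≤ 2 ^ (7 * s * (B - 1)) :=
      pow_le_pow_right₀ (by norm_num) h2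
    rw [pow_add] at h3
    have h4 : (2 : ℝ) ^ (5 * s * (B + 1)) * 2 ^ c * (1 - q / 8) ≤ (Z s : ℝ) ^ (B - 1) :=
      (mul_le_mul_of_nonneg_right h3 (by linarith)).trans h1
    have h5 : q * ((2 : ℝ) ^ (5 * s * (B + 1)) * 2 ^ c * (1 - q / 8)) ≤
        q * (Z s : ℝ) ^ (B - 1) := mul_le_mul_of_nonneg_left h4 hq.le
    refine le_trans ?_ h5
    have h6 : 1 ≤ q * 2 ^ c * (1 - q / 8) := by nlinarith
    calc (2 : ℝ) ^ (5 * s * (B + 1)) = 2 ^ (5 * s * (B + 1)) * 1 := by ring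
      _ ≤ 2 ^ (5 * s * (B + 1)) * (q * 2 ^ c * (1 - q / 8)) :=
          mul_le_mul_of_nonneg_left h6 (by positivity)
      _ = q * ((2 : ℝ) ^ (5 * s * (B + 1)) * 2 ^ c * (1 - q / 8)) := by ring
  · have h1 := nu_Z h q hq hq1 L c B hcq hBn
    rw [← hs] at h1
    have h2 : (1 + q) * ((2 : ℝ) ^ (7 * s * B) * (1 - q / 8)) ≤ (1 + q) * (Z s : ℝ) ^ B :=
      mul_le_mul_of_nonneg_left h1 (by linarith)
    refine le_trans ?_ h2
    have h3 : 1 ≤ (1 + q) * (1 - q / 8) := by nlinarith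
    calc (2 : ℝ) ^ (7 * s * B) = 2 ^ (7 * s * B) * 1 := by ring
      _ ≤ 2 ^ (7 * s * B) * ((1 + q) * (1 - q / 8)) :=
          mul_le_mul_of_nonneg_left h3 (by positivity)
      _ = (1 + q) * ((2 : ℝ) ^ (7 * s * B) * (1 - q / 8)) := by ring
  · have h1 : (2 : ℝ) ^ (2 * L + c) ≤ 2 ^ (n - 7 * s * B) :=
      pow_le_pow_right₀ (by norm_num) (by omega)
    refine le_trans ?_ h1
    have h3 : B + 1 ≤ 2 * n := by
      have h1 : B ≤ 7 * s * B := Nat.le_mul_of_pos_left _ hs0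
      omega
    have h4 : 2 * n + 10 ≤ 12 * n := by omega
    have h5 : n * n ≤ 2 ^ L * 2 ^ L := Nat.mul_le_mul hL1.le hL1.le
    have h6 : (B + 1) * (2 * n + 10) ≤ 24 * (2 ^ L * 2 ^ L) := by
      calc (B + 1) * (2 * n + 10) ≤ (2 * n) * (12 * n) := Nat.mul_le_mul h3 h4
        _ = 24 * (n * n) := by ring
        _ ≤ 24 * (2 ^ L * 2 ^ L) := Nat.mul_le_mul_left _ h5
    have h7 : ((B : ℝ) + 1) * (2 * n + 10) ≤ 24 * (2 ^ L * 2 ^ L) := by exact_mod_cast h6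
    have h8 : (2 : ℝ) ^ (2 * L + c) = 2 ^ c * (2 ^ L * 2 ^ L) := by
      rw [pow_add, two_mul, pow_add]
      ring
    rw [h8]
    calc A * (B + 1) * (2 * n + 10) = A * (((B : ℝ) + 1) * (2 * n + 10)) := by ring
      _ ≤ |A| * (((B : ℝ) + 1) * (2 * n + 10)) :=
          mul_le_mul_of_nonneg_right (le_abs_self A) (by positivity)
      _ ≤ |A| * (24 * (2 ^ L * 2 ^ L)) := mul_le_mul_of_nonneg_left h7 (abs_nonneg A)
      _ = 24 * |A| * (2 ^ L * 2 ^ L) := by ring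
      _ ≤ 2 ^ c * (2 ^ L * 2 ^ L) := mul_le_mul_of_nonneg_right hcA (by positivity)
  · have h1 : n - 7 * s * B ≤ 72 * K := by omega
    have h2 : 20 * (n - 7 * s * B) ^ 2 ≤ 20 * (72 * K) ^ 2 :=
      Nat.mul_le_mul_left _ (Nat.pow_le_pow_left h1 2)
    refine h2.trans ?_
    obtain ⟨b, hb⟩ : ∃ b, B = b + 2 := ⟨B - 2, by omega⟩
    have e1 : B - 2 = b := by omega
    rw [e1]
    have e2 : 7 * s * B = 7 * (b * s) + 14 * s := by rw [hb]; ring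
    have e3 : b * (5 * s) = 5 * (b * s) := by ring
    rw [e3]
    have e4 : 20 * (72 * K) ^ 2 = 103680 * K ^ 2 := by ring
    rw [e4]
    rw [e2] at hlo
    omega

end IPaL

/-- **Item PaL**: the choice of the parameters. -/
theorem pr_PaL (h : ZLow) : StPaL := by
  intro q A r0 hq
  obtain ⟨n0, hn0⟩ := IPaL.main h (min q 1) A r0 (lt_min hq one_pos) (min_le_right _ _)
  refine ⟨n0, fun n hn => ?_⟩
  obtain ⟨s, B, h1, h2, h3, h4, h5, h6, h7⟩ := hn0 n hn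
  refine ⟨s, B, h1, h2, h3, ?_, ?_, h6, h7⟩
  · exact h4.trans (mul_le_mul_of_nonneg_right (min_le_left _ _) (by positivity))
  · refine h5.trans (mul_le_mul_of_nonneg_right ?_ (by positivity))
    linarith [min_le_left q 1]

end Pool.Agent.Work.MP_bf01b2_co.Fw
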