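import Pool.Agent.Work.MP_bf01b2_co.Fw.StmtsD

/-!
Item [Fw Rt] of the project on MP_bf01b2_co: the root of a block.
-/

namespace Pool.Agent.Work.MP_bf01b2_co.Fw

open Pool.Agent.Work.MP_bf01b2_co.Bd
open Classical

namespace IRt

theorem rt_len (H : ℕ) (v : List Bool) : (rt H v).length = v.length / H * H := by
  unfold rt
  rw [List.length_take]
  exact min_eq_left (Nat.div_mul_le_self _ _)

theorem rt_of_dvd (H : ℕ) (v : List Bool) (h : v.length % H = 0) : rt H v = v := by
  unfold rt
  have h1 : v.length / H * H = v.length := Nat.div_mul_cancel (Nat.dvd_of_mod_eq_zero h)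
  rw [h1]
  exact List.take_length

theorem div_succ_eq (H n : ℕ) (h : (n + 1) % H ≠ 0) : (n + 1) / H = n / H := by
  have h1 : ¬ H ∣ n + 1 := fun hd => h (Nat.mod_eq_zero_of_dvd hd)
  rw [Nat.succ_div]
  simp [h1]

end IRt

open IRt in
/-- Item [Rt]. -/
theorem pr_Rt : StRt := by
  intro H hH v
  refine ⟨rt_len H v, ?_, ?_, rt_of_dvd H v, ?_⟩
  · rw [rt_len]
    exact Nat.mul_mod_left _ _
  · apply rt_of_dvd
    rw [rt_len]
    exact Nat.mul_mod_left _ _
  · intro e
    refine ⟨?_, ?_⟩
    · intro h
      unfold rt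
      have h1 : (v ++ [e]).length = v.length + 1 := by simp
      rw [h1, div_succ_eq H v.length h]
      exact List.take_append_of_le_length (Nat.div_mul_le_self _ _)
    · intro h
      apply rt_of_dvd
      have h1 : (v ++ [e]).length = v.length + 1 := by simp
      rw [h1]
      exact h

end Pool.Agent.Work.MP_bf01b2_co.Fw
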