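import Pool.Agent.Work.MP_bf01b2_co.Fw.StmtsC

/-!
# MP_bf01b2_co, trees with few leaves, item Str: the theorem for prefix closed sets
-/

set_option autoImplicit false

namespace Pool.Agent.Work.MP_bf01b2_co.Fw

open Pool.Agent.Work.MP_bf01b2_co.Bd

open Classical

theorem pr_Str (hEmb : StEmb) (hDec : StDec) (hCnt : StCnt) (hMap : StMap) (hCub : StCub)
    (hNum : StNum) : StStr := by
  intro δ hδ
  rcases le_or_gt 1 δ with h1 | h1
  · refine ⟨1, 0, one_pos, ?_⟩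
    intro n _ T _ hT _
    have hT0 : T = ∅ := by
      have h2 : (T.card : ℝ) ≤ 0 := hT.trans (mul_nonpos_of_nonpos_of_nonneg (by linarith) (by positivity))
      have h3 : T.card = 0 := by exact_mod_cast le_antisymm h2 (Nat.cast_nonneg _)
      exact Finset.card_eq_zero.1 h3
    subst hT0
    exact ⟨fun _ _ => false, fun u hu => absurd hu (Finset.notMem_empty u),
      fun v e hv => absurd hv (Finset.notMem_empty _)⟩
  obtain ⟨τ, r0, hτ, hr0, hN⟩ := hNum δ hδ h1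
  obtain ⟨m0, n1, hE⟩ := hEmb τ r0 hτ hr0
  obtain ⟨m, f, g, L, hm, hL, hβ, hF0, hFg, hLle, hmain⟩ := hN m0
  obtain ⟨β, hβd⟩ : ∃ β, β = m + f + g + 1 - r0 := ⟨_, rfl⟩
  rw [← hβd] at hmain
  obtain ⟨H, hH⟩ : ∃ H, H = 2 * L := ⟨_, rfl⟩
  have hHpos : 0 < H := by omega
  refine ⟨τ / 2 ^ (H + 1 + β), n1 + β, by positivity, ?_⟩
  intro n hn T hT hcard hlf
  obtain ⟨n', hn'⟩ : ∃ n', n = n' + β := ⟨n - β, by omega⟩
  obtain ⟨hrn, hE2⟩ := hE m n' hm (by omega)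
  obtain ⟨hd1, hd2, hd3, hd4, hd5⟩ := hDec H T hHpos hT
  obtain ⟨hc1, hc2⟩ := hCnt H T hHpos hT
  have hHR : (0 : ℝ) < H := by exact_mod_cast hHpos
  have hHL : (H : ℝ) = 2 * L := by rw [hH]; push_cast; ring
  have h2n : (2 : ℝ) ^ n = 2 ^ n' * 2 ^ β := by rw [hn', pow_add]
  have hcT : ((cT H T).card : ℝ) ≤ (1 - τ) * 2 ^ n' := by
    have e1 : ((cT H T).card : ℝ) ≤ (cD H T).card + 2 ^ H * (2 * (lf T).card) := by exact_mod_cast hc2
    have e2 : ((cD H T).card : ℝ) * H ≤ T.card := by exact_mod_cast hc1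
    have e3 : ((cD H T).card : ℝ) ≤ (1 - 2 * τ) * 2 ^ n' := by
      have e4 : ((cD H T).card : ℝ) * H ≤ ((1 - 2 * τ) * 2 ^ n') * H := by
        refine e2.trans (hcard.trans ?_)
        have e5 : (1 - δ) * 2 ^ n = ((1 - δ) * 2 ^ β) * 2 ^ n' := by rw [h2n]; ring
        have e6 : ((1 - 2 * τ) * 2 ^ n') * (H : ℝ) = ((1 - 2 * τ) * (2 * L)) * 2 ^ n' := by rw [hHL]; ring
        rw [e5, e6]
        exact mul_le_mul_of_nonneg_right hmain (by positivity)
      exact le_of_mul_le_mul_right e4 hHR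
    have e7 : (2 : ℝ) ^ H * (2 * (lf T).card) ≤ τ * 2 ^ n' := by
      have e8 : (2 : ℝ) ^ H * (2 * (lf T).card) ≤ 2 ^ H * (2 * (τ / 2 ^ (H + 1 + β) * 2 ^ n)) := by
        apply mul_le_mul_of_nonneg_left _ (by positivity)
        linarith
      refine e8.trans (le_of_eq ?_)
      rw [h2n, pow_add, pow_add, pow_one]
      field_simp
    linarith
  obtain ⟨Φ, ψ, hEm, hFib⟩ := hE2 (cT H T) hd1 hcT
  obtain ⟨Θ, t1, t2, t3⟩ := hMap (n' - r0) m f g ⌊aa r0⌋₊ L (cT H T) (cD H T) Φ ψ hd1 hd2 hEm hFib hF0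
    hFg hL hLle
  obtain ⟨c', hinj, hadj⟩ := hCub (n' - r0) m f g n (by omega)
  rw [← hH] at t1 t2 t3
  refine ⟨fun v => c' (Θ (cs H T v) (ix H T v)), ?_, ?_⟩
  · intro u hu v hv huv
    have h2 := hinj huv
    obtain ⟨h3, h4⟩ := t1 (cs H T u) (Finset.mem_image_of_mem _ hu) (cs H T v) (Finset.mem_image_of_mem _ hv)
      (ix H T u) (ix H T v) (hd3 u hu).1 (hd3 v hv).1 (hd3 u hu).2 (hd3 v hv).2 h2
    exact hd4 u hu v hv h3 h4
  · intro v e hv
    apply hadj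
    rcases hd5 v e hv with ⟨h2, h3, h4⟩ | ⟨h2, h3, h4⟩
    · rw [h2, h4]
      refine t2 (cs H T v) h3 (ix H T v) ?_
      rw [← h4]
      exact (hd3 _ hv).1
    · have h5 : cs H T v ++ [e] ∈ cT H T := by
        rw [← h2]
        exact Finset.mem_image_of_mem _ hv
      have h6 := t3 (cs H T v) e h5
      rw [h2, h3, h4]
      exact h6

end Pool.Agent.Work.MP_bf01b2_co.Fw
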