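import Pool.Agent.Work.MP_bf01b2_co.Fw.Asm
import Pool.Agent.Work.MP_bf01b2_co.Fw.I_MomL
import Pool.Agent.Work.MP_bf01b2_co.Fw.I_SumL
import Pool.Agent.Work.MP_bf01b2_co.Fw.I_LdL
import Pool.Agent.Work.MP_bf01b2_co.Fw.I_ItL
import Pool.Agent.Work.MP_bf01b2_co.Fw.I_PaL
import Pool.Agent.Work.MP_bf01b2_co.Fw.I_CoL
import Pool.Agent.Work.MP_bf01b2_co.Fw.I_Emb
import Pool.Agent.Work.MP_bf01b2_co.Fw.I_Rt
import Pool.Agent.Work.MP_bf01b2_co.Fw.I_Csn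
import Pool.Agent.Work.MP_bf01b2_co.Fw.I_Cr
import Pool.Agent.Work.MP_bf01b2_co.Fw.I_Ij
import Pool.Agent.Work.MP_bf01b2_co.Fw.I_Dec
import Pool.Agent.Work.MP_bf01b2_co.Fw.I_Br
import Pool.Agent.Work.MP_bf01b2_co.Fw.I_Bad
import Pool.Agent.Work.MP_bf01b2_co.Fw.I_Cnt
import Pool.Agent.Work.MP_bf01b2_co.Fw.I_Ham
import Pool.Agent.Work.MP_bf01b2_co.Fw.I_Bou
import Pool.Agent.Work.MP_bf01b2_co.Fw.I_Lst
import Pool.Agent.Work.MP_bf01b2_co.Fw.I_Col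
import Pool.Agent.Work.MP_bf01b2_co.Fw.I_Map
import Pool.Agent.Work.MP_bf01b2_co.Fw.I_Cub
import Pool.Agent.Work.MP_bf01b2_co.Fw.I_Num
import Pool.Agent.Work.MP_bf01b2_co.Fw.I_Str
import Pool.Agent.Work.MP_bf01b2_co.Fw.I_Lvs
import Pool.Agent.Work.MP_bf01b2_co.Fw.I_Fin

/-!
# Trees with few leaves: all items together
-/

set_option autoImplicit false

namespace Pool.Agent.Work.MP_bf01b2_co.Fw

theorem all : StFin :=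
  asm pr_MomL pr_SumL pr_LdL pr_ItL pr_PaL pr_CoL pr_Emb pr_Rt pr_Csn pr_Cr pr_Ij pr_Dec pr_Br
    pr_Bad pr_Cnt pr_Ham pr_Bou pr_Lst pr_Col pr_Map pr_Cub pr_Num pr_Str pr_Lvs pr_Fin

end Pool.Agent.Work.MP_bf01b2_co.Fw
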