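import Pool.Agent.Work.MP_bf01b2_co.Fw.StmtsE

/-!
# MP_bf01b2_co, part E, item Cat: the theorem for prefix closed sets
-/

set_option autoImplicit false

namespace Pool.Agent.Work.MP_bf01b2_co.Fw

open Pool.Agent.Work.MP_bf01b2_co.Bd

open Classical

theorem pr_Cat (hStr : StStr) (hRmv : StRmv) (hExt : StExt) : StCat := by
  obtain ⟨ε1, n1, he1, h1⟩ := hStr (1 / 2) (by norm_num)
  obtain ⟨ε2, n2, he2, h2⟩ := hStr ε1 he1
  refine ⟨min ε1 ε2, max n1 n2, lt_min he1 he2, ?_⟩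
  intro n hn T hT hcard hPn
  have hn1 : n1 ≤ n := le_trans (le_max_left _ _) hn
  have hn2 : n2 ≤ n := le_trans (le_max_right _ _) hn
  have hp : (0 : ℝ) < 2 ^ n := by positivity
  have hPn1 : ((Pn T).card + 1 : ℝ) ≤ ε1 * 2 ^ n :=
    hPn.trans (mul_le_mul_of_nonneg_right (min_le_left _ _) hp.le)
  have hPn2 : ((Pn T).card + 1 : ℝ) ≤ ε2 * 2 ^ n :=
    hPn.trans (mul_le_mul_of_nonneg_right (min_le_right _ _) hp.le)
  have h2n : (2 : ℝ) ^ (n + 1) = 2 * 2 ^ n := by rw [pow_succ]; ring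
  rcases le_or_gt ((lf T).card : ℝ) (ε1 * 2 ^ (n + 1)) with h3 | h3
  · exact h1 (n + 1) (by omega) T hT (by rw [h2n]; linarith) h3
  · obtain ⟨r1, -, -, r4, r5⟩ := hRmv T hT
    have r4' : ((lf T).card : ℝ) ≤ (Rm T).card + (lf (T \ Rm T)).card := by exact_mod_cast r4
    have r5' : ((lf (T \ Rm T)).card : ℝ) ≤ (Pn T).card + 1 := by exact_mod_cast r5
    have hsub : Rm T ⊆ T := Finset.filter_subset _ _
    have hsd : ((T \ Rm T).card : ℝ) = T.card - (Rm T).card := by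
      rw [Finset.card_sdiff_of_subset hsub, Nat.cast_sub (Finset.card_le_card hsub)]
    obtain ⟨c, hc1, hc2⟩ := h2 n hn2 (T \ Rm T) r1 (by rw [hsd]; rw [h2n] at h3; nlinarith) (r5'.trans hPn2)
    exact hExt n T c hT hc1 hc2

end Pool.Agent.Work.MP_bf01b2_co.Fw
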