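import Pool.Agent.Work.MP_bf01b2_co.Fw.StmtsE

/-!
# MP_bf01b2_co, trees whose derived tree has few leaves, item Cfn: the final statement
-/

set_option autoImplicit false

namespace Pool.Agent.Work.MP_bf01b2_co.Fw

open Pool.Agent.Work.MP_bf01b2_co.Bd

open Classical

namespace ICfn

/-- at most two vertices -/
theorem small (n : ℕ) (V : Type) [Fintype V] (G : SimpleGraph V) (h : Fintype.card V ≤ 2) :
    ∃ f : G →g SimpleGraph.fromRel (fun x y : Fin (n + 1) → Bool => hammingDist x y = 1),
      Function.Injective f := by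
  obtain ⟨b⟩ : Nonempty (V ↪ Bool) := Function.Embedding.nonempty_of_card_le
    (by rw [Fintype.card_bool]; exact h)
  have hinj : Function.Injective fun (v : V) (i : Fin (n + 1)) => if i = 0 then b v else false := by
    intro u v huv
    have h1 := congrFun huv 0
    simp only [if_true] at h1
    exact b.injective h1
  refine ⟨⟨fun v i => if i = 0 then b v else false, ?_⟩, hinj⟩
  intro u v huv
  rw [SimpleGraph.fromRel_adj]
  refine ⟨fun h => huv.ne (hinj h), Or.inl ?_⟩
  have hne : b u ≠ b v := fun h => huv.ne (b.injective h)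
  unfold hammingDist
  rw [Finset.card_eq_one]
  refine ⟨0, ?_⟩
  ext i
  rw [Finset.mem_filter, Finset.mem_singleton]
  by_cases hi : i = 0
  · simp [hi, hne]
  · simp [hi]

end ICfn

theorem pr_Cfn (hCat : StCat) (hPnl : StPnl) (hTree : MP_bf01b2_co.TreeStr) : StCfn := by
  obtain ⟨ε', n0', hε', h⟩ := hCat
  obtain ⟨m, hm⟩ := pow_unbounded_of_one_lt (4 / ε') (one_lt_two)
  set n0 : ℕ := max n0' m with hn0
  refine ⟨min (ε' / 2) (1 / 2 ^ (n0 + 1)), lt_min (by positivity) (by positivity), ?_⟩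
  intro n V _ _ G _ hG hdeg hcard hleaf
  by_cases h2 : Fintype.card V ≤ 2
  · exact ICfn.small n V G h2
  · have h3 : 3 ≤ Fintype.card V := by omega
    obtain ⟨s, hs, hpre, hadj⟩ := hTree V G hG hdeg
    obtain ⟨hP1, hP2⟩ := hPnl V G s hG hs hpre hadj
    have hP2' := hP2 h3
    set L : ℕ := (Finset.univ.filter fun v => 2 ≤ G.degree v ∧
      ((G.neighborFinset v).filter fun u => 2 ≤ G.degree u).card ≤ 1).card with hL
    have hL1 : (1 : ℝ) ≤ (L : ℝ) := by exact_mod_cast hP2'
    have h2n : (0 : ℝ) < 2 ^ n := by positivity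
    have hn : n0 ≤ n := by
      by_contra hcon
      push Not at hcon
      have h4 : (1 : ℝ) ≤ 1 / 2 ^ (n0 + 1) * 2 ^ n :=
        (hL1.trans hleaf).trans (mul_le_mul_of_nonneg_right (min_le_right _ _) h2n.le)
      have h5 : (2 : ℝ) ^ n < 2 ^ (n0 + 1) :=
        pow_lt_pow_right₀ (by norm_num) (by omega)
      rw [one_div, inv_mul_eq_div, le_div_iff₀ (by positivity)] at h4
      linarith
    have hT : ∀ v, s v ∈ Finset.univ.image s := fun v =>
      Finset.mem_image.mpr ⟨v, Finset.mem_univ _, rfl⟩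
    have hPC : Bd.PrefClosed (Finset.univ.image s) := by
      intro v hv k
      obtain ⟨a, -, rfl⟩ := Finset.mem_image.mp hv
      obtain ⟨u, hu⟩ := hpre a k
      exact Finset.mem_image.mpr ⟨u, Finset.mem_univ _, hu⟩
    have hTc : ((Finset.univ.image s).card : ℝ) ≤ 2 ^ n := by
      have h5 : (Finset.univ.image s).card ≤ 2 ^ n := Finset.card_image_le.trans hcard
      exact_mod_cast h5
    have hpn : (((Pn (Finset.univ.image s)).card : ℝ) + 1) ≤ ε' * 2 ^ n := by
      have h6 : ((Pn (Finset.univ.image s)).card : ℝ) ≤ (L : ℝ) + 1 := by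
        exact_mod_cast hP1
      have h7 : (L : ℝ) ≤ ε' / 2 * 2 ^ n :=
        hleaf.trans (mul_le_mul_of_nonneg_right (min_le_left _ _) h2n.le)
      have h8 : (2 : ℝ) ^ m ≤ 2 ^ n :=
        pow_le_pow_right₀ (by norm_num) ((le_max_right n0' m).trans hn)
      have h9 : 4 < ε' * 2 ^ m := by
        rw [div_lt_iff₀ hε'] at hm
        linarith
      have h10 : ε' * 2 ^ m ≤ ε' * 2 ^ n := mul_le_mul_of_nonneg_left h8 hε'.le
      linarith
    obtain ⟨c, hc1, hc2⟩ := h n ((le_max_left n0' m).trans hn) (Finset.univ.image s) hPC hTc hpn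
    have hinj : Function.Injective fun v => c (s v) := by
      intro u v huv
      exact hs (hc1 _ (hT u) _ (hT v) huv)
    refine ⟨⟨fun v => c (s v), ?_⟩, hinj⟩
    intro a b hab
    rw [SimpleGraph.fromRel_adj]
    refine ⟨fun h => hab.ne (hinj h), ?_⟩
    rcases hadj a b hab with ⟨e, he⟩ | ⟨e, he⟩
    · left
      have h6 := hc2 (s a) e (he ▸ hT b)
      rw [← he] at h6
      exact h6
    · right
      have h6 := hc2 (s b) e (he ▸ hT a)
      rw [← he] at h6
      exact h6

end Pool.Agent.Work.MP_bf01b2_co.Fw
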