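import Pool.Agent.Work.MP_bf01b2_co.Fw.StmtsE

set_option autoImplicit false

/-!
Item Ext: the removed vertices go above their parents.
-/

namespace Pool.Agent.Work.MP_bf01b2_co.Fw

open Pool.Agent.Work.MP_bf01b2_co.Bd

open Classical

namespace IExt

theorem ham {n : ℕ} (a b : Bool) (x y : Fin n → Bool) :
    hammingDist (Fin.cons a x : Fin (n + 1) → Bool) (Fin.cons b y : Fin (n + 1) → Bool) =
      (if a ≠ b then 1 else 0) + hammingDist x y := by
  unfold hammingDist
  rw [Finset.card_filter, Finset.card_filter, Fin.sum_univ_succ]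
  simp only [Fin.cons_zero, Fin.cons_succ]

theorem mem {T : Finset (List Bool)} (hRmv : StRmv) (hT : Bd.PrefClosed T) {v : List Bool}
    (hv : v ∈ Rm T) : ∃ e, v = v.dropLast ++ [e] ∧ v.dropLast ∈ T \ Rm T := by
  obtain ⟨h1, _, p, e, hp, _, _⟩ := Finset.mem_filter.1 hv
  have hd : v.dropLast = p := by
    rw [hp]
    simp
  refine ⟨e, by rw [hd]; exact hp, ?_⟩
  rw [hd, Finset.mem_sdiff]
  refine ⟨?_, (hRmv T hT).2.2.1 p e (hp ▸ h1)⟩
  have h3 := hT v h1 p.length
  rw [hp] at h3
  simpa using h3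

end IExt

theorem pr_Ext (hRmv : StRmv) : StExt := by
  intro n T c hT hinj hedge
  have h2 := (hRmv T hT).2.1
  have h3 := (hRmv T hT).2.2.1
  refine ⟨fun v => if v ∈ Rm T then (Fin.cons true (c v.dropLast) : Fin (n + 1) → Bool)
    else (Fin.cons false (c v) : Fin (n + 1) → Bool), ?_, ?_⟩
  · intro u hu v hv h
    by_cases hur : u ∈ Rm T <;> by_cases hvr : v ∈ Rm T
    · simp only [if_pos hur, if_pos hvr] at h
      have h4 : c u.dropLast = c v.dropLast := (Fin.cons_inj.1 h).2
      obtain ⟨e, he, hem⟩ := IExt.mem hRmv hT hur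
      obtain ⟨e', he', hem'⟩ := IExt.mem hRmv hT hvr
      have h5 := hinj _ hem _ hem' h4
      rw [← h5] at he'
      rw [he] at hur
      rw [he'] at hvr
      rw [he, he']
      cases e <;> cases e'
      · rfl
      · exact absurd hur (h2 _ hvr)
      · exact absurd hvr (h2 _ hur)
      · rfl
    · simp only [if_pos hur, if_neg hvr] at h
      have := (Fin.cons_inj.1 h).1
      cases this
    · simp only [if_neg hur, if_pos hvr] at h
      have := (Fin.cons_inj.1 h).1
      cases this
    · simp only [if_neg hur, if_neg hvr] at h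
      exact hinj _ (Finset.mem_sdiff.2 ⟨hu, hur⟩) _ (Finset.mem_sdiff.2 ⟨hv, hvr⟩)
        (Fin.cons_inj.1 h).2
  · intro v e hve
    have hv := h3 v e hve
    by_cases hr : v ++ [e] ∈ Rm T
    · simp only [if_neg hv, if_pos hr, List.dropLast_concat, IExt.ham, hammingDist_self]
      rfl
    · simp only [if_neg hv, if_neg hr, IExt.ham]
      rw [hedge v e (Finset.mem_sdiff.2 ⟨hve, hr⟩)]
      rfl

end Pool.Agent.Work.MP_bf01b2_co.Fw
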