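import Pool.Agent.Work.MP_bf01b2_co.Fw.StmtsE

/-!
# Item Pnl: the vertices of `Pn` are leaves of the derived tree
-/

set_option autoImplicit false

namespace Pool.Agent.Work.MP_bf01b2_co.Fw

open Pool.Agent.Work.MP_bf01b2_co.Bd

open Classical

namespace IPnl

variable {V : Type} {G : SimpleGraph V} {s : V → List Bool}

/-- a vertex is adjacent to its parent -/
theorem adj_child (hG : G.IsTree) (hs : Function.Injective s)
    (hpre : ∀ (v : V) (k : ℕ), ∃ u, s u = (s v).take k)
    (hadj : ∀ u v, G.Adj u v → (∃ e, s v = s u ++ [e]) ∨ (∃ e, s u = s v ++ [e]))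
    {u v : V} {e : Bool} (h : s u = s v ++ [e]) : G.Adj v u := by
  obtain ⟨r, hr⟩ := hpre u 0
  rw [List.take_zero] at hr
  obtain ⟨p⟩ := hG.1.preconnected u r
  have h1 : r ∉ {x : V | s u <+: s x} := by
    intro h2
    have h3 : s u <+: s r := h2
    rw [hr, List.prefix_nil, h] at h3
    simp at h3
  have h0 : u ∈ {x : V | s u <+: s x} := List.prefix_rfl
  obtain ⟨d, -, hd1, hd2⟩ := p.exists_boundary_dart {x : V | s u <+: s x} h0 h1
  have hd1' : s u <+: s d.fst := hd1
  have hd2' : ¬ s u <+: s d.snd := hd2
  rcases hadj d.fst d.snd d.adj with ⟨e', he⟩ | ⟨e', he⟩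
  · exact absurd (he ▸ hd1'.trans (List.prefix_append _ _)) hd2'
  · rw [he, List.prefix_concat_iff] at hd1'
    rcases hd1' with h2 | h2
    · have h3 : u = d.fst := hs (h2.trans he.symm)
      have h4 : v = d.snd := by
        apply hs
        rw [h] at h2
        exact (List.append_inj' h2 rfl).1
      rw [h3, h4]
      exact d.adj.symm
    · exact absurd h2 hd2'

variable [Fintype V] [DecidableEq V] [DecidableRel G.Adj]

/-- childless vertices have degree at most one -/
theorem deg_le (hs : Function.Injective s)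
    (hadj : ∀ u v, G.Adj u v → (∃ e, s v = s u ++ [e]) ∨ (∃ e, s u = s v ++ [e]))
    {v : V} (hv : ∀ e, s v ++ [e] ∉ Finset.univ.image s) : G.degree v ≤ 1 := by
  have h2 : ∀ u, G.Adj v u → s u = (s v).dropLast := by
    intro u hu
    rcases hadj v u hu with ⟨e, he⟩ | ⟨e, he⟩
    · exfalso
      exact hv e (Finset.mem_image.2 ⟨u, Finset.mem_univ u, he⟩)
    · rw [he, List.dropLast_concat]
  rw [← G.card_neighborFinset_eq_degree, Finset.card_le_one]
  intro a ha b hb
  rw [SimpleGraph.mem_neighborFinset] at ha hb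
  exact hs ((h2 a ha).trans (h2 b hb).symm)

/-- at most one neighbour of large degree -/
theorem filt (hs : Function.Injective s)
    (hadj : ∀ u v, G.Adj u v → (∃ e, s v = s u ++ [e]) ∨ (∃ e, s u = s v ++ [e]))
    {v : V} (hv : ∀ e, s v ++ [e] ∈ Finset.univ.image s → ∀ e', s v ++ [e] ++ [e'] ∉
      Finset.univ.image s) : ((G.neighborFinset v).filter fun u => 2 ≤ G.degree u).card ≤ 1 := by
  rw [Finset.card_le_one]
  have h2 : ∀ u ∈ ((G.neighborFinset v).filter fun u => 2 ≤ G.degree u), s u = (s v).dropLast := by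
    intro u hu
    obtain ⟨hu1, hu2⟩ := Finset.mem_filter.1 hu
    rw [SimpleGraph.mem_neighborFinset] at hu1
    rcases hadj v u hu1 with ⟨e, he⟩ | ⟨e, he⟩
    · exfalso
      have h3 := hv e (Finset.mem_image.2 ⟨u, Finset.mem_univ u, he⟩)
      rw [← he] at h3
      have h4 := deg_le hs hadj h3
      omega
    · rw [he, List.dropLast_concat]
  intro a ha b hb
  exact hs ((h2 a ha).trans (h2 b hb).symm)

theorem two_deg {v a b : V} (ha : G.Adj v a) (hb : G.Adj v b) (hab : a ≠ b) : 2 ≤ G.degree v := by
  rw [← G.card_neighborFinset_eq_degree]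
  exact Finset.one_lt_card.2 ⟨a, (G.mem_neighborFinset v a).2 ha, b,
    (G.mem_neighborFinset v b).2 hb, hab⟩

end IPnl

open IPnl in
theorem pr_Pnl : StPnl := by
  intro V _ _ G _ s hG hs hpre hadj
  have key : ∀ v : V, s v ∈ Pn (Finset.univ.image s) → s v ≠ [] →
      v ∈ Finset.univ.filter fun v =>
        2 ≤ G.degree v ∧ ((G.neighborFinset v).filter fun u => 2 ≤ G.degree u).card ≤ 1 := by
    intro v hv hne
    obtain ⟨-, ⟨e, he⟩, h2⟩ := Finset.mem_filter.1 hv
    refine Finset.mem_filter.2 ⟨Finset.mem_univ v, ?_, filt hs hadj h2⟩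
    obtain ⟨u, -, hu⟩ := Finset.mem_image.1 he
    obtain ⟨q, e', hq⟩ : ∃ q e', s v = q ++ [e'] :=
      ⟨(s v).dropLast, (s v).getLast hne, (List.dropLast_append_getLast hne).symm⟩
    obtain ⟨u', hu'⟩ := hpre v q.length
    have h3 : s u' = q := by rw [hu', hq, List.take_left]
    have h4 : s v = s u' ++ [e'] := by rw [h3, hq]
    refine two_deg (adj_child hG hs hpre hadj hu) (adj_child hG hs hpre hadj h4).symm ?_
    intro h5
    have h6 := congrArg List.length hu
    rw [h5, h3, hq] at h6
    simp at h6
  refine ⟨?_, ?_⟩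
  · have h1 : Pn (Finset.univ.image s) ⊆ insert [] ((Finset.univ.filter fun v =>
        2 ≤ G.degree v ∧ ((G.neighborFinset v).filter fun u => 2 ≤ G.degree u).card ≤ 1).image s) := by
      intro w hw
      obtain ⟨v, -, rfl⟩ := Finset.mem_image.1 (Finset.mem_filter.1 hw).1
      by_cases h2 : s v = []
      · rw [h2]
        exact Finset.mem_insert_self _ _
      · exact Finset.mem_insert_of_mem (Finset.mem_image.2 ⟨v, key v hw h2, rfl⟩)
    exact (Finset.card_le_card h1).trans ((Finset.card_insert_le _ _).trans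
      (Nat.succ_le_succ Finset.card_image_le))
  · intro hV
    have hTc : (Finset.univ.image s).card = Fintype.card V := by
      rw [Finset.card_image_of_injective _ hs, Finset.card_univ]
    have hTne : (Finset.univ.image s).Nonempty := Finset.card_pos.1 (by omega)
    obtain ⟨w, hw, hmax⟩ := Finset.exists_max_image (Finset.univ.image s) List.length hTne
    have hwne : w ≠ [] := by
      intro h
      have h1 : Finset.univ.image s ⊆ {[]} := by
        intro x hx
        have h2 := hmax x hx
        rw [h] at h2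
        rw [Finset.mem_singleton]
        exact List.eq_nil_of_length_eq_zero (by simpa using h2)
      have h2 := Finset.card_le_card h1
      rw [Finset.card_singleton] at h2
      omega
    obtain ⟨p, e, hp⟩ : ∃ p e, w = p ++ [e] :=
      ⟨w.dropLast, w.getLast hwne, (List.dropLast_append_getLast hwne).symm⟩
    obtain ⟨x, -, hx⟩ := Finset.mem_image.1 hw
    obtain ⟨v, hv⟩ := hpre x p.length
    have hvp : s v = p := by rw [hv, hx, hp, List.take_left]
    have hvc : ∀ e, s v ++ [e] ∈ Finset.univ.image s → ∀ e', s v ++ [e] ++ [e'] ∉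
        Finset.univ.image s := by
      intro e1 _ e2 h2
      have h3 := hmax _ h2
      rw [hp, hvp] at h3
      simp at h3
    have hpn : s v ∈ Pn (Finset.univ.image s) := by
      refine Finset.mem_filter.2 ⟨Finset.mem_image.2 ⟨v, Finset.mem_univ v, rfl⟩, ⟨e, ?_⟩, hvc⟩
      rw [hvp, ← hp]
      exact hw
    by_cases hp0 : s v = []
    · -- the whole tree is the root with two children
      have hsub : Finset.univ.image s ⊆ {[], [true], [false]} := by
        intro y hy
        have h2 := hmax y hy
        rw [hp, ← hvp, hp0] at h2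
        simp only [List.nil_append, List.length_singleton] at h2
        rcases y with _ | ⟨b, _ | ⟨c, y⟩⟩
        · simp
        · cases b <;> simp
        · simp at h2
      have heq : Finset.univ.image s = {[], [true], [false]} := by
        refine Finset.eq_of_subset_of_card_le hsub ?_
        rw [hTc]
        refine le_trans ?_ hV
        exact Finset.card_le_three
      have ht : [true] ∈ Finset.univ.image s := by rw [heq]; simp
      have hf : [false] ∈ Finset.univ.image s := by rw [heq]; simp
      obtain ⟨a, -, ha⟩ := Finset.mem_image.1 ht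
      obtain ⟨b, -, hb⟩ := Finset.mem_image.1 hf
      have ha' : s a = s v ++ [true] := by rw [hp0, ha]; rfl
      have hb' : s b = s v ++ [false] := by rw [hp0, hb]; rfl
      refine Finset.card_pos.2 ⟨v, Finset.mem_filter.2 ⟨Finset.mem_univ v, ?_, filt hs hadj hvc⟩⟩
      refine two_deg (adj_child hG hs hpre hadj ha') (adj_child hG hs hpre hadj hb') ?_
      intro h2
      rw [h2, hb] at ha
      simp at ha
    · exact Finset.card_pos.2 ⟨v, key v hpn hp0⟩

end Pool.Agent.Work.MP_bf01b2_co.Fw
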