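import Pool.Agent.Work.MP_bf01b2_co.Fw.StmtsE

/-!
# Item Rmv: the properties of the removed set
-/

set_option autoImplicit false

namespace Pool.Agent.Work.MP_bf01b2_co.Fw

open Pool.Agent.Work.MP_bf01b2_co.Bd

open Classical

namespace IRmv

theorem mem_Rm {T : Finset (List Bool)} {p : List Bool} {e : Bool} :
    p ++ [e] ∈ Rm T ↔ p ++ [e] ∈ T ∧ (∀ e', p ++ [e] ++ [e'] ∉ T) ∧ p ++ [!e] ∈ T ∧
      (e = true ∨ ∃ e', p ++ [!e] ++ [e'] ∈ T) := by
  unfold Rm
  rw [Finset.mem_filter]
  constructor
  · rintro ⟨h1, h2, q, f, h3, h4, h5⟩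
    obtain ⟨h6, h7⟩ := List.append_inj' h3 rfl
    have h8 : e = f := by simpa using h7
    subst h6 h8
    exact ⟨h1, h2, h4, h5⟩
  · rintro ⟨h1, h2, h3, h4⟩
    exact ⟨h1, h2, p, e, rfl, h3, h4⟩

theorem two (T : Finset (List Bool)) (p : List Bool) (h : p ++ [true] ∈ Rm T) :
    p ++ [false] ∉ Rm T := by
  intro h'
  rw [mem_Rm] at h h'
  obtain ⟨-, h2, -, -⟩ := h
  obtain ⟨-, -, -, h4⟩ := h'
  rcases h4 with h4 | ⟨e', h4⟩
  · exact absurd h4 (by decide)
  · exact h2 e' h4

theorem three (T : Finset (List Bool)) (p : List Bool) (e : Bool) (h : p ++ [e] ∈ T) :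
    p ∉ Rm T := by
  intro h'
  unfold Rm at h'
  rw [Finset.mem_filter] at h'
  exact h'.2.1 e h

theorem childless (T : Finset (List Bool)) (v : List Bool) (hv : v ∈ lf (T \ Rm T)) (e : Bool) :
    v ++ [e] ∉ T := by
  intro h
  unfold lf at hv
  rw [Finset.mem_filter] at hv
  have h1 : v ++ [e] ∈ Rm T := by
    by_contra h2
    exact hv.2 e (Finset.mem_sdiff.2 ⟨h, h2⟩)
  have h3 : v ++ [!e] ∈ T := (mem_Rm.1 h1).2.2.1
  have h4 : v ++ [!e] ∈ Rm T := by
    by_contra h2
    exact hv.2 (!e) (Finset.mem_sdiff.2 ⟨h3, h2⟩)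
  cases e with
  | true => exact two T v h1 h4
  | false => exact two T v h4 h1

end IRmv

open IRmv in
theorem pr_Rmv : StRmv := by
  intro T hT
  refine ⟨?_, two T, three T, ?_, ?_⟩
  · intro v hv t
    rw [Finset.mem_sdiff] at hv ⊢
    refine ⟨hT v hv.1 t, ?_⟩
    by_cases ht : v.length ≤ t
    · rw [List.take_of_length_le ht]
      exact hv.2
    · push Not at ht
      refine three T _ v[t] ?_
      rw [List.take_append_getElem ht]
      exact hT v hv.1 (t + 1)
  · refine le_trans (Finset.card_le_card ?_) (Finset.card_union_le _ _)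
    intro v hv
    rw [Finset.mem_union]
    by_cases h : v ∈ Rm T
    · exact Or.inl h
    · right
      unfold lf at hv ⊢
      rw [Finset.mem_filter] at hv ⊢
      exact ⟨Finset.mem_sdiff.2 ⟨hv.1, h⟩, fun e he => hv.2 e (Finset.mem_sdiff.1 he).1⟩
  · have key : ((lf (T \ Rm T)).erase []).card ≤ (Pn T).card := by
      refine Finset.card_le_card_of_injOn List.dropLast ?_ ?_
      · intro v hv
        have hv' : v ∈ (lf (T \ Rm T)).erase [] := hv
        rw [Finset.mem_erase] at hv'
        obtain ⟨hne, hA⟩ := hv'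
        have hc := childless T v hA
        have hm : v ∈ T \ Rm T := (Finset.mem_filter.1 hA).1
        rw [Finset.mem_sdiff] at hm
        obtain ⟨p, e, rfl⟩ : ∃ p e, v = p ++ [e] :=
          ⟨v.dropLast, v.getLast hne, (List.dropLast_append_getLast hne).symm⟩
        have hpT : p ∈ T := by
          have := hT _ hm.1 p.length
          rwa [List.take_left'] at this
          rfl
        rw [List.dropLast_concat]
        show p ∈ Pn T
        unfold Pn
        rw [Finset.mem_filter]
        refine ⟨hpT, ⟨e, hm.1⟩, ?_⟩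
        intro e1 h1 e2 h2
        by_cases hee : e1 = e
        · subst hee
          exact hc e2 h2
        · have h3 : e1 = !e := by
            cases e <;> cases e1 <;> simp_all
          subst h3
          exact hm.2 (mem_Rm.2 ⟨hm.1, hc, h1, Or.inr ⟨e2, h2⟩⟩)
      · intro v hv w hw hvw
        have hv' : v ∈ (lf (T \ Rm T)).erase [] := hv
        have hw' : w ∈ (lf (T \ Rm T)).erase [] := hw
        rw [Finset.mem_erase] at hv' hw'
        obtain ⟨hne, hA⟩ := hv'
        obtain ⟨hne', hA'⟩ := hw'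
        have hc := childless T v hA
        have hc' := childless T w hA'
        have hm : v ∈ T \ Rm T := (Finset.mem_filter.1 hA).1
        have hm' : w ∈ T \ Rm T := (Finset.mem_filter.1 hA').1
        rw [Finset.mem_sdiff] at hm hm'
        obtain ⟨p, e, rfl⟩ : ∃ p e, v = p ++ [e] :=
          ⟨v.dropLast, v.getLast hne, (List.dropLast_append_getLast hne).symm⟩
        obtain ⟨p', e', rfl⟩ : ∃ p e, w = p ++ [e] :=
          ⟨w.dropLast, w.getLast hne', (List.dropLast_append_getLast hne').symm⟩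
        rw [List.dropLast_concat, List.dropLast_concat] at hvw
        subst hvw
        cases e <;> cases e'
        · rfl
        · exact absurd (mem_Rm.2 ⟨hm'.1, hc', hm.1, Or.inl rfl⟩) hm'.2
        · exact absurd (mem_Rm.2 ⟨hm.1, hc, hm'.1, Or.inl rfl⟩) hm.2
        · rfl
    have h1 : (lf (T \ Rm T)).card ≤ ((lf (T \ Rm T)).erase []).card + 1 :=
      by have := Finset.pred_card_le_card_erase (s := lf (T \ Rm T)) (a := ([] : List Bool)); omega
    omega

end Pool.Agent.Work.MP_bf01b2_co.Fw
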