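import Pool.Agent.Work.MP_bf01b2_co.Fw.All
import Pool.Agent.Work.MP_bf01b2_co.Fw.I_Rmv
import Pool.Agent.Work.MP_bf01b2_co.Fw.I_Ext
import Pool.Agent.Work.MP_bf01b2_co.Fw.I_Cat
import Pool.Agent.Work.MP_bf01b2_co.Fw.I_Pnl
import Pool.Agent.Work.MP_bf01b2_co.Fw.I_Cfn

/-!
# Trees whose derived tree has few leaves: all items together
-/

set_option autoImplicit false

namespace Pool.Agent.Work.MP_bf01b2_co.Fw

open Pool.Agent.Work.MP_bf01b2_co Pool.Agent.Work.MP_bf01b2_co.Bd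

theorem str : StStr :=
  have hqs := qSet lbInj lbBasic
  have hsu := supp lbBasic
  have hne := near (blkInj lbInj lbBasic) hqs decomp lbBasic
  have hpr := probS (uni lbInj lbBasic) cardOpt decomp hne prodCount
  have hld := pr_LdL (pr_SumL peel (pr_MomL hpr) (indZ localP) hsu) hne
  have hco := pr_CoL (pr_PaL zLow) hld (nearP hne) (pr_ItL half rulThm)
    (locP (blkLoc lbInj lbBasic) hqs decomp edgeP edgeB lbBasic) finish edgeP edgeB
  have hcr := pr_Cr pr_Rt pr_Csn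
  pr_Str (pr_Emb hco edgeP edgeB hsu) (pr_Dec pr_Rt pr_Csn hcr (pr_Ij pr_Rt pr_Csn hcr))
    (pr_Cnt pr_Rt hcr pr_Br (pr_Bad pr_Rt)) (pr_Map (pr_Col pr_Ham pr_Bou) pr_Lst) pr_Cub pr_Num

theorem cfn : StCfn := pr_Cfn (pr_Cat str pr_Rmv (pr_Ext pr_Rmv)) pr_Pnl treeStr

end Pool.Agent.Work.MP_bf01b2_co.Fw
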