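import Pool.Agent.Work.MP_bf01b2_co.Fw.StmtsC
import Pool.Agent.Work.MP_bf01b2_co.Bd.LB
import Pool.Agent.Work.MP_bf01b2_co.Bd.BI
import Pool.Agent.Work.MP_bf01b2_co.Bd.BL
import Pool.Agent.Work.MP_bf01b2_co.Bd.QS
import Pool.Agent.Work.MP_bf01b2_co.Bd.UN
import Pool.Agent.Work.MP_bf01b2_co.Bd.CZ
import Pool.Agent.Work.MP_bf01b2_co.Bd.DE
import Pool.Agent.Work.MP_bf01b2_co.Bd.NE
import Pool.Agent.Work.MP_bf01b2_co.Bd.PE
import Pool.Agent.Work.MP_bf01b2_co.Bd.PP
import Pool.Agent.Work.MP_bf01b2_co.Bd.PS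
import Pool.Agent.Work.MP_bf01b2_co.Bd.IZ
import Pool.Agent.Work.MP_bf01b2_co.Bd.LL
import Pool.Agent.Work.MP_bf01b2_co.Bd.HO
import Pool.Agent.Work.MP_bf01b2_co.Bd.HN
import Pool.Agent.Work.MP_bf01b2_co.Bd.HA
import Pool.Agent.Work.MP_bf01b2_co.Bd.RU
import Pool.Agent.Work.MP_bf01b2_co.Bd.ED
import Pool.Agent.Work.MP_bf01b2_co.Bd.LI
import Pool.Agent.Work.MP_bf01b2_co.Bd.FI
import Pool.Agent.Work.MP_bf01b2_co.Tree

/-!
# Trees with few leaves: the assembly, with the items as hypotheses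
-/

set_option autoImplicit false

namespace Pool.Agent.Work.MP_bf01b2_co.Fw

open Pool.Agent.Work.MP_bf01b2_co Pool.Agent.Work.MP_bf01b2_co.Bd

theorem asm (iMomL : ProbS → StMomL) (iSumL : Peel → StMomL → IndZ → Supp → StSumL)
    (iLdL : StSumL → Near → StLdL) (iItL : Half → RulThm → StItL) (iPaL : ZLow → StPaL)
    (iCoL : StPaL → StLdL → NearP → StItL → LocP → Finish → EdgeP → EdgeB → StCoL)
    (iEmb : StCoL → EdgeP → EdgeB → Supp → StEmb)
    (iRt : StRt) (iCsn : StCsn) (iCr : StRt → StCsn → StCr)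
    (iIj : StRt → StCsn → StCr → StIj) (iDec : StRt → StCsn → StCr → StIj → StDec)
    (iBr : StBr) (iBad : StRt → StBad) (iCnt : StRt → StCr → StBr → StBad → StCnt)
    (iHam : StHam) (iBou : StBou) (iLst : StLst) (iCol : StHam → StBou → StCol)
    (iMap : StCol → StLst → StMap) (iCub : StCub) (iNum : StNum)
    (iStr : StEmb → StDec → StCnt → StMap → StCub → StNum → StStr) (iLvs : StLvs)
    (iFin : StStr → StLvs → MP_bf01b2_co.TreeStr → StFin) : StFin :=
  have hqs := qSet lbInj lbBasic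
  have hsu := supp lbBasic
  have hne := near (blkInj lbInj lbBasic) hqs decomp lbBasic
  have hpr := probS (uni lbInj lbBasic) cardOpt decomp hne prodCount
  have hld := iLdL (iSumL peel (iMomL hpr) (indZ localP) hsu) hne
  have hco := iCoL (iPaL zLow) hld (nearP hne) (iItL half rulThm)
    (locP (blkLoc lbInj lbBasic) hqs decomp edgeP edgeB lbBasic) finish edgeP edgeB
  have hcr := iCr iRt iCsn
  iFin
    (iStr (iEmb hco edgeP edgeB hsu) (iDec iRt iCsn hcr (iIj iRt iCsn hcr))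
      (iCnt iRt hcr iBr (iBad iRt)) (iMap (iCol iHam iBou) iLst) iCub iNum)
    iLvs treeStr

end Pool.Agent.Work.MP_bf01b2_co.Fw
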