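import Pool.Agent.Work.MP_bf01b2_co.Bd.Stmts

/-!
# MP_bf01b2_co, trees with few leaves: definitions

A tree is a prefix closed finite set `T` of bit strings. It is cut into blocks of `H` levels; a block
root `u` (length divisible by `H`) is good if the part of `T` below it in its block is a path with
`H` vertices. Good blocks are contracted to one vertex: the letters inside a good block are removed.
-/

set_option autoImplicit false

namespace Pool.Agent.Work.MP_bf01b2_co.Fw

open Pool.Agent.Work.MP_bf01b2_co.Bd

open Classical

/-! ### Contraction of good blocks -/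

/-- `u` is the root of a good block: `H` divides its length, and on each of the `H` levels of its
block there is exactly one vertex of `T` below `u` (in particular `u ∈ T`). -/
def Gd (H : ℕ) (T : Finset (List Bool)) (u : List Bool) : Prop :=
  u.length % H = 0 ∧ ∀ j < H, ∃! w, w ∈ T ∧ w.length = u.length + j ∧ w.take u.length = u

/-- The block root of `v`. -/
def rt (H : ℕ) (v : List Bool) : List Bool := v.take (v.length / H * H)

/-- The letter of the edge from `v` to `v ++ [e]` is kept. -/
def Kp (H : ℕ) (T : Finset (List Bool)) (v : List Bool) : Prop :=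
  ¬ (Gd H T (rt H v) ∧ (v.length + 1) % H ≠ 0)

/-- The contracted string: letter `t` is kept if `Kp` holds for `v.take t`. -/
noncomputable def cs (H : ℕ) (T : Finset (List Bool)) (v : List Bool) : List Bool :=
  ((List.range v.length).filter fun t => decide (Kp H T (v.take t))).map fun t => v.getD t false

/-- The position of `v` in its good block (`0` in a bad block). -/
noncomputable def ix (H : ℕ) (T : Finset (List Bool)) (v : List Bool) : ℕ :=
  if Gd H T (rt H v) then v.length % H else 0

/-- The contracted tree. -/
noncomputable def cT (H : ℕ) (T : Finset (List Bool)) : Finset (List Bool) := T.image (cs H T)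

/-- The contracted blocks. -/
noncomputable def cD (H : ℕ) (T : Finset (List Bool)) : Finset (List Bool) :=
  (T.filter fun u => Gd H T u).image (cs H T)

/-- Vertices without child. -/
noncomputable def lf (T : Finset (List Bool)) : Finset (List Bool) :=
  T.filter fun v => ∀ e, v ++ [e] ∉ T

/-! ### Products of graphs, cubes -/

/-- Two points of a cube differ in exactly one coordinate. -/
def A1 {ι : Type} (x y : ι → Bool) : Prop := ∃ i, ∀ j, (x j ≠ y j) ↔ j = i

/-- The product of two relations: exactly one component moves. -/
def Bx {α β : Type} (R : α → α → Prop) (S : β → β → Prop) (p q : α × β) : Prop :=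
  (R p.1 q.1 ∧ p.2 = q.2) ∨ (p.1 = q.1 ∧ S p.2 q.2)

/-- The column: cells, slots, labels. -/
abbrev Cl (m f g : ℕ) : Type := (Fin m → Bool) × ((Fin f → Bool) × (Fin g → Bool))

/-- Adjacency in a column. -/
def RC {m f g : ℕ} : Cl m f g → Cl m f g → Prop := Bx A1 (Bx A1 A1)

/-- The origin of the last two components. -/
def z0 {f g : ℕ} : (Fin f → Bool) × (Fin g → Bool) := (fun _ => false, fun _ => false)

/-- The whole cube: base, column, half. -/
abbrev Wh (k m f g : ℕ) : Type := (Fin k → Bool) × (Cl m f g × Bool)

/-- Adjacency in the whole cube. -/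
def RW {k m f g : ℕ} : Wh k m f g → Wh k m f g → Prop := Bx A1 (Bx RC (fun a b => a ≠ b))

/-- The fibres of `Φ` on `T` have at most `F` elements. -/
def Fib {X : Type} (T : Finset (List Bool)) (Φ : List Bool → X) (F : ℕ) : Prop :=
  ∀ x : X, (T.filter fun v => Φ v = x).card ≤ F

/-- `(Φ, ψ)` is an embedding of the prefix closed set `T` in a product of two cubes. -/
structure Emb {k m : ℕ} (T : Finset (List Bool)) (Φ : List Bool → Fin k → Bool)
    (ψ : List Bool → Fin m → Bool) : Prop where
  adj : ∀ y e, y ++ [e] ∈ T → Bx A1 A1 (Φ y, ψ y) (Φ (y ++ [e]), ψ (y ++ [e]))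
  inj : ∀ u ∈ T, ∀ v ∈ T, Φ u = Φ v → ψ u = ψ v → u = v

end Pool.Agent.Work.MP_bf01b2_co.Fw
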