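import Pool.Agent.Work.MP_bf01b2_co.Fw.StmtsC

/-!
# Trees with few leaves, item Col: disjoint long paths in a column
-/

set_option autoImplicit false

namespace Pool.Agent.Work.MP_bf01b2_co.Fw

open Pool.Agent.Work.MP_bf01b2_co.Bd

open Classical

namespace ICol

theorem A1_symm {ι : Type} (x y : ι → Bool) (h : A1 x y) : A1 y x := by
  obtain ⟨i, hi⟩ := h
  exact ⟨i, fun j => by rw [← hi j, ne_comm]⟩

theorem Bx_symm {α β : Type} {R : α → α → Prop} {S : β → β → Prop}
    (hR : ∀ x y, R x y → R y x) (hS : ∀ x y, S x y → S y x) (p q : α × β) (h : Bx R S p q) :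
    Bx R S q p := by
  rcases h with ⟨h1, h2⟩ | ⟨h1, h2⟩
  · exact Or.inl ⟨hR _ _ h1, h2.symm⟩
  · exact Or.inr ⟨h1.symm, hS _ _ h2⟩

/-- the part of a path up to a given vertex -/
theorem part {α : Type} {R : α → α → Prop} {l : List α} {x : α} (c : α) (h1 : l.Nodup)
    (h2 : l.IsChain R) (h3 : l.head? = some x) (h4 : c ∈ l) :
    ∃ l' : List α, l'.Nodup ∧ l'.IsChain R ∧ l'.head? = some x ∧ l'.getLast? = some c := by
  obtain ⟨s, t, hst⟩ := List.append_of_mem h4
  have h5 : l = (s ++ [c]) ++ t := by rw [hst, List.append_assoc, List.singleton_append]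
  refine ⟨s ++ [c], ?_, ?_, ?_, ?_⟩
  · rw [h5] at h1
    exact (List.nodup_append.1 h1).1
  · rw [h5] at h2
    exact (List.isChain_append.1 h2).1
  · rw [hst] at h3
    cases s with
    | nil => exact h3
    | cons y s => exact h3
  · rw [List.getLast?_append]
    rfl

/-- `K` consecutive elements -/
theorem mem_seg {α : Type} (H : List α) (s K : ℕ) (x : α) (h : x ∈ (H.drop s).take K) :
    ∃ i, i < K ∧ ∃ h : s + i < H.length, H[s + i] = x := by
  obtain ⟨i, hi, hx⟩ := List.mem_iff_getElem.1 h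
  rw [List.getElem_take, List.getElem_drop] at hx
  rw [List.length_take, List.length_drop] at hi
  exact ⟨i, lt_of_lt_of_le hi (min_le_left _ _), by omega, hx⟩

theorem seg_disj {α : Type} (H : List α) (hH : H.Nodup) (K a b : ℕ) (hab : a ≠ b) (x : α)
    (h1 : x ∈ (H.drop (a * K)).take K) (h2 : x ∈ (H.drop (b * K)).take K) : False := by
  obtain ⟨i, hi, h3, h4⟩ := mem_seg H _ _ _ h1
  obtain ⟨j, hj, h5, h6⟩ := mem_seg H _ _ _ h2
  have h7 : a * K + i = b * K + j := (hH.getElem_inj_iff).1 (h4.trans h6.symm)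
  rcases lt_or_gt_of_ne hab with h | h
  · have h8 : (a + 1) * K ≤ b * K := Nat.mul_le_mul_right K h
    rw [add_mul, one_mul] at h8
    omega
  · have h8 : (b + 1) * K ≤ a * K := Nat.mul_le_mul_right K h
    rw [add_mul, one_mul] at h8
    omega

end ICol

open ICol

theorem pr_Col (hHam : StHam) (hBou : StBou) : StCol := by
  intro m f g F L hF hFg hL hLK
  -- the numbers
  set K := 2 ^ m / F with hK
  have hK0 : 0 < K := by
    rcases Nat.eq_zero_or_pos K with h | h
    · rw [h, zero_mul] at hLK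
      omega
    · exact h
  have hf0 : 2 ^ f - 2 ≠ 0 := by
    intro h
    rw [h, zero_mul, mul_zero] at hLK
    omega
  have hFK : F * K ≤ 2 ^ m := Nat.mul_div_le _ _
  -- the paths
  obtain ⟨P, hP1, hP2, hP3, hP4, hP5⟩ := hHam f (fun _ => false)
  obtain ⟨H, hH1, hH2, hH3, hH4, hH5⟩ := hHam m (fun _ => false)
  obtain ⟨HG, hG1, hG2, hG3, hG4, hG5⟩ := hHam g (fun _ => false)
  obtain ⟨γ, hγ⟩ : ∃ γ : Fin F → (Fin g → Bool), Function.Injective γ := by
    have h1 : Fintype.card (Fin F) ≤ Fintype.card (Fin g → Bool) := by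
      rw [Fintype.card_fin, Fintype.card_fun, Fintype.card_bool, Fintype.card_fin]
      exact hFg
    obtain ⟨e⟩ := Function.Embedding.nonempty_of_card_le h1
    exact ⟨e, e.injective⟩
  obtain ⟨p1, p2, P2, hPe⟩ : ∃ p1 p2 P2, P = (fun _ => false) :: p1 :: p2 :: P2 := by
    rcases P with _ | ⟨q0, _ | ⟨q1, _ | ⟨q2, Q⟩⟩⟩
    · exact absurd hP3 (by simp)
    · rw [List.length_singleton] at hP5
      omega
    · rw [List.length_cons, List.length_singleton] at hP5
      omega
    · rw [List.head?_cons] at hP3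
      exact ⟨q1, q2, Q, by rw [Option.some.inj hP3]⟩
  set p0 : Fin f → Bool := fun _ => false with hp0
  rw [hPe] at hP1 hP2 hP5
  have hp01 : p0 ≠ p1 := fun h => (List.nodup_cons.1 hP1).1 (h ▸ List.mem_cons_self)
  have hp0P : p0 ∉ p2 :: P2 := fun h => (List.nodup_cons.1 hP1).1 (List.mem_cons_of_mem _ h)
  have hP1' := (List.nodup_cons.1 hP1).2
  have hp1P : p1 ∉ p2 :: P2 := (List.nodup_cons.1 hP1').1
  have hPn : (p2 :: P2).Nodup := (List.nodup_cons.1 hP1').2
  rw [List.isChain_cons_cons] at hP2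
  have hA01 : A1 p0 p1 := hP2.1
  have hP2' := hP2.2
  rw [List.isChain_cons_cons] at hP2'
  have hA12 : A1 p1 p2 := hP2'.1
  have hPc : (p2 :: P2).IsChain A1 := hP2'.2
  have hPl : (p2 :: P2).length = 2 ^ f - 2 := by
    rw [List.length_cons, List.length_cons] at hP5
    omega
  -- the parts (E)
  have hE : ∀ κ : Fin F, ∃ l' : List (Fin g → Bool), l'.Nodup ∧ l'.IsChain A1 ∧
      l'.head? = some (fun _ => false) ∧ l'.getLast? = some (γ κ) := fun κ =>
    part (γ κ) hG1 hG2 hG3 (hG4 _)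
  choose E0 hE1 hE2 hE3 hE4 using hE
  -- the intervals
  set I : Fin F → List (Fin m → Bool) := fun κ => (H.drop ((κ : ℕ) * K)).take K with hI
  have hIn : ∀ κ, (I κ).Nodup := fun κ =>
    hH1.sublist ((List.take_sublist _ _).trans (List.drop_sublist _ _))
  have hIc : ∀ κ, (I κ).IsChain A1 := fun κ => (hH2.drop _).take _
  have hIl : ∀ κ, (I κ).length = K := by
    intro κ
    rw [hI]
    change ((H.drop ((κ : ℕ) * K)).take K).length = K
    rw [List.length_take, List.length_drop, hH5]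
    have h1 : ((κ : ℕ) + 1) * K ≤ F * K := Nat.mul_le_mul_right K κ.2
    rw [add_mul, one_mul] at h1
    exact min_eq_left (by omega)
  have hIh : ∀ κ, ∃ c, (I κ).head? = some c := by
    intro κ
    rcases h : I κ with _ | ⟨c, t⟩
    · have := hIl κ
      rw [h, List.length_nil] at this
      omega
    · exact ⟨c, rfl⟩
  choose c hc using hIh
  -- the parts (R)
  have hR : ∀ (a : Fin m → Bool) (κ : Fin F), ∃ l' : List (Fin m → Bool), l'.Nodup ∧
      l'.IsChain A1 ∧ l'.head? = some a ∧ l'.getLast? = some (c κ) := by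
    intro a κ
    obtain ⟨l, h1, h2, h3, h4, h5⟩ := hHam m a
    exact part (c κ) h1 h2 h3 (h4 _)
  choose R0 hR1 hR2 hR3 hR4 using hR
  -- the parts (W)
  have hW : ∀ κ : Fin F, ∃ l' : List (Cl m f g), l'.Nodup ∧ l'.IsChain RC ∧
      l'.head? = some (c κ, (p2, γ κ)) ∧
      (∀ p ∈ l', p.1 ∈ I κ ∧ p.2.1 ∈ p2 :: P2) ∧
      l'.length = K * ((2 ^ f - 2) * 2 ^ g) := by
    intro κ
    obtain ⟨G', g1, g2, g3, g4, g5⟩ := hHam g (γ κ)
    obtain ⟨J, j1, j2, j3, j4, j5⟩ := hBou _ _ A1 A1 A1_symm A1_symm (p2 :: P2) G' p2 (γ κ) hPn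
      hPc rfl g1 g2 g3
    obtain ⟨W, w1, w2, w3, w4, w5⟩ := hBou _ _ A1 (Bx A1 A1) A1_symm (Bx_symm A1_symm A1_symm)
      (I κ) J (c κ) (p2, γ κ) (hIn κ) (hIc κ) (hc κ) j1 j2 j3
    refine ⟨W, w1, w2, w3, fun p hp => ?_, ?_⟩
    · obtain ⟨h1, h2⟩ := (w4 p).1 hp
      exact ⟨h1, ((j4 p.2).1 h2).1⟩
    · rw [w5, hIl, j5, hPl, g5]
  choose W hW1 hW2 hW3 hW4 hW5 using hW
  -- membership
  have hmE : ∀ (a : Fin m → Bool) (κ : Fin F) (p : Cl m f g),
      p ∈ (E0 κ).map (fun x => (a, (p0, x))) → p.1 = a ∧ p.2.1 = p0 := by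
    intro a κ p hp
    obtain ⟨x, _, rfl⟩ := List.mem_map.1 hp
    exact ⟨rfl, rfl⟩
  have hmR : ∀ (a : Fin m → Bool) (κ : Fin F) (p : Cl m f g),
      p ∈ (R0 a κ).map (fun y => (y, (p1, γ κ))) → p.2.1 = p1 ∧ p.2.2 = γ κ := by
    intro a κ p hp
    obtain ⟨x, _, rfl⟩ := List.mem_map.1 hp
    exact ⟨rfl, rfl⟩
  refine ⟨fun a κ => (E0 κ).map (fun x => (a, (p0, x))) ++
    ((R0 a κ).map (fun y => (y, (p1, γ κ))) ++ W κ), ?_, ?_, ?_⟩
  · intro a κ
    refine ⟨?_, ?_, ?_, ?_⟩
    · refine List.nodup_append.2 ⟨?_, List.nodup_append.2 ⟨?_, hW1 κ, ?_⟩, ?_⟩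
      · exact (hE1 κ).map fun x y h => (Prod.ext_iff.1 (Prod.ext_iff.1 h).2).2
      · exact (hR1 a κ).map fun x y h => (Prod.ext_iff.1 h).1
      · intro p hp q hq hpq
        rw [hpq] at hp
        have h1 := (hmR a κ q hp).1
        have h2 := (hW4 κ q hq).2
        rw [h1] at h2
        exact hp1P h2
      · intro p hp q hq hpq
        rw [hpq] at hp
        have h1 := (hmE a κ q hp).2
        rcases List.mem_append.1 hq with hq | hq
        · exact hp01 (h1.symm.trans (hmR a κ q hq).1)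
        · have h2 := (hW4 κ q hq).2
          rw [h1] at h2
          exact hp0P h2
    · refine List.isChain_append.2 ⟨?_, List.isChain_append.2 ⟨?_, hW2 κ, ?_⟩, ?_⟩
      · rw [List.isChain_map]
        exact (hE2 κ).imp fun x y h => Or.inr ⟨rfl, Or.inr ⟨rfl, h⟩⟩
      · rw [List.isChain_map]
        exact (hR2 a κ).imp fun x y h => Or.inl ⟨h, rfl⟩
      · intro p hp q hq
        rw [List.getLast?_map, hR4 a κ] at hp
        rw [hW3 κ] at hq
        have h1 : (c κ, (p1, γ κ)) = p := by simpa using hp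
        have h2 : (c κ, (p2, γ κ)) = q := by simpa using hq
        rw [← h1, ← h2]
        exact Or.inr ⟨rfl, Or.inl ⟨hA12, rfl⟩⟩
      · intro p hp q hq
        rw [List.getLast?_map, hE4 κ] at hp
        rw [List.head?_append, List.head?_map, hR3 a κ] at hq
        have h1 : (a, (p0, γ κ)) = p := by simpa using hp
        have h2 : (a, (p1, γ κ)) = q := by simpa using hq
        rw [← h1, ← h2]
        exact Or.inr ⟨rfl, Or.inl ⟨hA01, rfl⟩⟩
    · rw [List.head?_append, List.head?_map, hE3 κ]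
      rfl
    · rw [List.length_append, List.length_append, hW5 κ]
      omega
  · intro a a' κ κ' ha hκ p hp hp'
    rcases List.mem_append.1 hp with hp | hp
    · have h1 := hmE a κ p hp
      rcases List.mem_append.1 hp' with hp' | hp'
      · exact ha (h1.1.symm.trans (hmE a' κ' p hp').1)
      · rcases List.mem_append.1 hp' with hp' | hp'
        · exact hp01 (h1.2.symm.trans (hmR a' κ' p hp').1)
        · have h2 := (hW4 κ' p hp').2
          rw [h1.2] at h2
          exact hp0P h2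
    · rcases List.mem_append.1 hp with hp | hp
      · have h1 := hmR a κ p hp
        rcases List.mem_append.1 hp' with hp' | hp'
        · exact hp01 ((hmE a' κ' p hp').2.symm.trans h1.1)
        · rcases List.mem_append.1 hp' with hp' | hp'
          · exact hκ (hγ (h1.2.symm.trans (hmR a' κ' p hp').2))
          · have h2 := (hW4 κ' p hp').2
            rw [h1.1] at h2
            exact hp1P h2
      · have h1 := hW4 κ p hp
        rcases List.mem_append.1 hp' with hp' | hp'
        · have h2 := (hmE a' κ' p hp').2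
          rw [h2] at h1
          exact hp0P h1.2
        · rcases List.mem_append.1 hp' with hp' | hp'
          · have h2 := (hmR a' κ' p hp').1
            rw [h2] at h1
            exact hp1P h1.2
          · have h2 := hW4 κ' p hp'
            exact seg_disj H hH1 K κ κ' (fun h => hκ (Fin.ext h)) p.1 h1.1 h2.1
  · intro a κ a' ha' hp
    rcases List.mem_append.1 hp with hp | hp
    · exact ha' (hmE a κ _ hp).1
    · rcases List.mem_append.1 hp with hp | hp
      · exact hp01 (hmR a κ _ hp).1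
      · exact hp0P (hW4 κ _ hp).2

end Pool.Agent.Work.MP_bf01b2_co.Fw
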