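import Pool.Agent.Work.MP_bf01b2_co.Fw.StmtsD

/-!
# MP_bf01b2_co, block Fw, item Csn: the contracted string letter by letter
-/

set_option autoImplicit false

namespace Pool.Agent.Work.MP_bf01b2_co.Fw

open Pool.Agent.Work.MP_bf01b2_co.Bd

open Classical

namespace ICsn

theorem cs_nil (H : ℕ) (T : Finset (List Bool)) : cs H T [] = [] := rfl

theorem cs_snoc (H : ℕ) (T : Finset (List Bool)) (v : List Bool) (e : Bool) :
    cs H T (v ++ [e]) = cs H T v ++ (if Kp H T v then [e] else []) := by
  unfold cs
  rw [List.length_append, List.length_singleton, List.range_succ, List.filter_append,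
    List.map_append]
  congr 1
  · have h1 : (List.range v.length).filter (fun t => decide (Kp H T ((v ++ [e]).take t))) =
        (List.range v.length).filter (fun t => decide (Kp H T (v.take t))) := by
      apply List.filter_congr
      intro t ht
      rw [List.mem_range] at ht
      rw [List.take_append_of_le_length ht.le]
    rw [h1]
    apply List.map_congr_left
    intro t ht
    have ht' : t < v.length := List.mem_range.1 (List.mem_of_mem_filter ht)
    rw [List.getD_append _ _ _ _ ht']
  · have h2 : (v ++ [e]).take v.length = v := by
      rw [List.take_append_of_le_length le_rfl, List.take_length]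
    by_cases h : Kp H T v
    · simp [h2, h]
    · simp [h2, h]

theorem cs_take (H : ℕ) (T : Finset (List Bool)) (v : List Bool) :
    ∀ t : ℕ, ∃ s : ℕ, (cs H T v).take t = cs H T (v.take s) := by
  induction v using List.reverseRecOn with
  | nil =>
    intro t
    exact ⟨0, by rw [cs_nil, List.take_nil, List.take_nil, cs_nil]⟩
  | append_singleton v e ih =>
    intro t
    have key : ∀ s : ℕ, (v ++ [e]).take (min s v.length) = v.take s := by
      intro s
      rw [List.take_append_of_le_length (min_le_right _ _)]
      rcases le_total s v.length with h | h
      · rw [min_eq_left h]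
      · rw [min_eq_right h, List.take_length, List.take_of_length_le h]
    rw [cs_snoc]
    by_cases hK : Kp H T v
    · rw [if_pos hK]
      rcases le_or_gt t (cs H T v).length with h | h
      · obtain ⟨s, hs⟩ := ih t
        refine ⟨min s v.length, ?_⟩
        rw [key s, List.take_append_of_le_length h, hs]
      · refine ⟨v.length + 1, ?_⟩
        rw [List.take_of_length_le (l := cs H T v ++ [e]) (by
            rw [List.length_append, List.length_singleton]
            omega),
          List.take_of_length_le (l := v ++ [e]) (by
            rw [List.length_append, List.length_singleton]), cs_snoc, if_pos hK]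
    · rw [if_neg hK, List.append_nil]
      obtain ⟨s, hs⟩ := ih t
      exact ⟨min s v.length, by rw [key s, hs]⟩

end ICsn

open ICsn in
theorem pr_Csn : StCsn := by
  refine ⟨cs_nil, cs_snoc, ?_⟩
  intro H T hT w hw t
  unfold cT at hw ⊢
  rw [Finset.mem_image] at hw
  obtain ⟨v, hv, rfl⟩ := hw
  obtain ⟨s, hs⟩ := cs_take H T v t
  rw [hs]
  exact Finset.mem_image_of_mem _ (hT v hv s)

end Pool.Agent.Work.MP_bf01b2_co.Fw
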