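import Pool.Agent.Work.MP_bf01b2_co.Fw.Defs

/-!
# Trees with few leaves, part D: contraction of the good blocks

Every item `X` is a statement `StX`, file `Fw/I_X.lean`, theorem `pr_X`; the hypotheses named in the
docstring are other items of this file (nobody waits).
-/

set_option autoImplicit false

namespace Pool.Agent.Work.MP_bf01b2_co.Fw

open Pool.Agent.Work.MP_bf01b2_co.Bd

open Classical

/-- [Rt] (EASY) block roots: `List.take`, `Nat.div`, `Nat.mod`. If `(v.length + 1) % H ≠ 0` then
`(v.length + 1) / H = v.length / H`; if it is `0` then `(v.length + 1) / H * H = v.length + 1`. -/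
def StRt : Prop := ∀ H : ℕ, 0 < H → ∀ v : List Bool,
  (rt H v).length = v.length / H * H ∧ (rt H v).length % H = 0 ∧ rt H (rt H v) = rt H v ∧
  (v.length % H = 0 → rt H v = v) ∧
  ∀ e, ((v.length + 1) % H ≠ 0 → rt H (v ++ [e]) = rt H v) ∧
    ((v.length + 1) % H = 0 → rt H (v ++ [e]) = v ++ [e])

/-- [Csn] (EASY) the contracted string letter by letter. `List.range_succ`, `List.filter_append`,
and for `t < v.length` `(v ++ [e]).take t = v.take t`, `(v ++ [e]).getD t = v.getD t`. The third
claim: by induction on `v` (from the right) all prefixes of `cs v` are contracted prefixes of `v`;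
so `cT H T` is prefix closed. -/
def StCsn : Prop := (∀ (H : ℕ) (T : Finset (List Bool)), cs H T [] = []) ∧
  (∀ (H : ℕ) (T : Finset (List Bool)) (v : List Bool) (e : Bool),
    cs H T (v ++ [e]) = cs H T v ++ (if Kp H T v then [e] else [])) ∧
  (∀ (H : ℕ) (T : Finset (List Bool)), Bd.PrefClosed T → Bd.PrefClosed (cT H T))

/-- [Cr] (EASY) a good block is contracted to one vertex. (hRt : StRt) (hCsn : StCsn)
Proof. Induction on `v.length - (rt H v).length = v.length % H`: if it is not `0` write
`v = p ++ [e]`; `rt H p = rt H v` is good and `(p.length + 1) % H ≠ 0`, so the letter `e` is not kept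
(`StCsn`) and `cs v = cs p`. -/
def StCr : Prop := ∀ (H : ℕ) (T : Finset (List Bool)), 0 < H → ∀ v, Gd H T (rt H v) →
  cs H T v = cs H T (rt H v)

/-- [Ij] (EASY-MEDIUM) injectivity of the contraction. (hRt : StRt) (hCsn : StCsn) (hCr : StCr)
Proof. Call `v` a base vertex if it is the root of a good block or its block is bad. By `StCr` it is
enough to prove: base vertices `u, v ∈ T` with `cs u = cs v` are equal (for a general `u` with good
block pass to `rt H u`, which is in `T`; if one of the two blocks is good and the other bad, then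
`rt H u = v`, so `rt H v = rt H (rt H u) = rt H u` is good, contradiction). Strong induction on
`u.length + v.length`, for all pairs. A base vertex `p ++ [e]` has its last letter kept (otherwise
`rt H p` is good and `(p.length + 1) % H ≠ 0`, so `rt H (p ++ [e]) = rt H p` is good and different
from `p ++ [e]`). So if `u = []` then `cs v = []` and `v = []`. If `u = p ++ [e]`, `v = p' ++ [e']`:
`cs p = cs p'` and `e = e'`. By induction (the full claim for `p, p'`) either both blocks are bad and
`p = p'`, or both are good with the same root `r`; then, the letters being kept,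
`(p.length + 1) % H = 0 = (p'.length + 1) % H`, so `p` and `p'` are both the vertex of `T` on the level
`r.length + (H - 1)` below `r`, and `p = p'` by uniqueness in `Gd`. -/
def StIj : Prop := ∀ (H : ℕ) (T : Finset (List Bool)), 0 < H → Bd.PrefClosed T →
  ∀ u ∈ T, ∀ v ∈ T, cs H T u = cs H T v →
    (Gd H T (rt H u) ∧ Gd H T (rt H v) ∧ rt H u = rt H v) ∨
    (¬ Gd H T (rt H u) ∧ ¬ Gd H T (rt H v) ∧ u = v)

/-- [Dec] (EASY-MEDIUM) all properties of the contraction. (hRt : StRt) (hCsn : StCsn)
(hCr : StCr) (hIj : StIj)
Proof. (3) `ix v = v.length % H < H` if the block is good, and then `cs v = cs (rt H v) ∈ cD`.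
(4) By `StIj`: bad blocks: `u = v`; good: same root `r`, and `ix u = ix v` gives the same length
(`v.length = r.length + v.length % H`), so `u = v` by uniqueness in `Gd`. (5) Put `v` and `v ++ [e]`
in `T`. If the letter is not kept, `rt H v` is good, `(v.length + 1) % H ≠ 0`, so
`rt H (v ++ [e]) = rt H v` and `(v.length + 1) % H = v.length % H + 1`. If it is kept:
`(v.length + 1) % H = 0`, or `rt H v = rt H (v ++ [e])` is bad; in both cases `ix (v ++ [e]) = 0`. If
`cs v ∈ cD`, `cs v = cs u` with `u` good root, then `rt H v` is good by `StIj` and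
`(v.length + 1) % H = 0`, so `ix v = H - 1`. If `cs v ∉ cD`, then `rt H v` is bad (`StCr`), `ix v = 0`. -/
def StDec : Prop := ∀ (H : ℕ) (T : Finset (List Bool)), 0 < H → Bd.PrefClosed T →
  Bd.PrefClosed (cT H T) ∧ cD H T ⊆ cT H T ∧
  (∀ v ∈ T, ix H T v < H ∧ (ix H T v ≠ 0 → cs H T v ∈ cD H T)) ∧
  (∀ u ∈ T, ∀ v ∈ T, cs H T u = cs H T v → ix H T u = ix H T v → u = v) ∧
  ∀ v e, v ++ [e] ∈ T →
    (cs H T (v ++ [e]) = cs H T v ∧ cs H T v ∈ cD H T ∧ ix H T (v ++ [e]) = ix H T v + 1) ∨
    (cs H T (v ++ [e]) = cs H T v ++ [e] ∧ ix H T (v ++ [e]) = 0 ∧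
      ix H T v = if cs H T v ∈ cD H T then H - 1 else 0)

/-- [Br] (EASY) a binary tree has more leaves than branch vertices. Proof. If `T` is empty this is
trivial. Otherwise count the pairs `(v, e)` with `v ++ [e] ∈ T` (then `v ∈ T`): they correspond to the
elements of `T` other than `[]`, so `T.card - 1 = #(one child) + 2 #(two children)`, and
`T.card = #(no child) + #(one child) + #(two children)`. -/
def StBr : Prop := ∀ T : Finset (List Bool), Bd.PrefClosed T →
  (T.filter fun v => v ++ [true] ∈ T ∧ v ++ [false] ∈ T).card ≤ (lf T).card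

/-- [Bad] (EASY-MEDIUM) few bad blocks. (hRt : StRt)
Proof. Let `u ∈ T` be a bad root, `H ∣ u.length`. Let `j < H` be the least level on which there is not
exactly one vertex of `T` below `u`; `j > 0`, as `u` is the only one for `j = 0`. Let `w` be the only
vertex on the level `j - 1`. The vertices on the level `j` are the children of `w`, so `w` does not
have exactly one child. `rt H w = u` (`w.length < u.length + H`), so `u ↦ w` is injective. -/
def StBad : Prop := ∀ (H : ℕ) (T : Finset (List Bool)), 0 < H → Bd.PrefClosed T →
  (T.filter fun u => u.length % H = 0 ∧ ¬ Gd H T u).card ≤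
    (T.filter fun v => ¬ ∃! e, v ++ [e] ∈ T).card

/-- [Cnt] (EASY-MEDIUM) the size of the contracted tree. (hRt : StRt) (hCr : StCr) (hBr : StBr)
(hBad : StBad)
Proof. (1) The map `(u, j) ↦` the vertex of `T` on the level `u.length + j` below the good root `u`,
`j < H`, is injective (`u = rt H w`, `j = w.length - u.length`), so `#good roots * H ≤ T.card`, and
`cD` is the image of the good roots. (2) A vertex `v` with good block has `cs v = cs (rt H v) ∈ cD`. So
`(cT H T).card ≤ (cD H T).card + #(vertices in bad blocks)`. A vertex `v` in a bad block is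
determined by its root (a bad root in `T`) and the rest `v.drop (..)`, a word of length `< H`; there
are at most `2 ^ H` such words (`mz_card_short` in `Bd/MZ.lean`). By `StBad` and `StBr` there are at
most `#(no child) + #(two children) ≤ 2 (lf T).card` bad roots. -/
def StCnt : Prop := ∀ (H : ℕ) (T : Finset (List Bool)), 0 < H → Bd.PrefClosed T →
  (cD H T).card * H ≤ T.card ∧
  (cT H T).card ≤ (cD H T).card + 2 ^ H * (2 * (lf T).card)

end Pool.Agent.Work.MP_bf01b2_co.Fw
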