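import Pool.Agent.Work.MP_bf01b2_co.Fw.StmtsL
import Pool.Agent.Work.MP_bf01b2_co.Fw.StmtsD

/-!
# Trees with few leaves, part C: paths in the columns, the final map, the numbers

Every item `X` is a statement `StX`, file `Fw/I_X.lean`, theorem `pr_X`; the hypotheses named in the
docstring are other items (nobody waits).
-/

set_option autoImplicit false

namespace Pool.Agent.Work.MP_bf01b2_co.Fw

open Pool.Agent.Work.MP_bf01b2_co.Bd

open Classical

/-- [Ham] (EASY) a Hamiltonian path of the cube from a given vertex. Induction on `d`: for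
`x : Fin (d + 1) → Bool` take the path `l` of the smaller cube from `Fin.tail x`, and
`l.map (Fin.cons (x 0)) ++ l.reverse.map (Fin.cons (!x 0))`. -/
def StHam : Prop := ∀ (d : ℕ) (x : Fin d → Bool), ∃ l : List (Fin d → Bool),
  l.Nodup ∧ l.IsChain A1 ∧ l.head? = some x ∧ (∀ y, y ∈ l) ∧ l.length = 2 ^ d

/-- [Bou] (EASY) boustrophedon: the product of two paths has a Hamiltonian path from the pair of the
first vertices. Induction on `l1`, for all `l2` at the same time: if `l1 = [a]` take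
`l2.map (a, ·)`; if `l1 = a :: l1'` with `l1' ≠ []` take `l2.map (a, ·)` followed by the list for `l1'`
and `l2.reverse` (its first element is `(a', last of l2)`, `a'` the head of `l1'`). -/
def StBou : Prop := ∀ (α β : Type) (R : α → α → Prop) (S : β → β → Prop),
  (∀ x y, R x y → R y x) → (∀ x y, S x y → S y x) →
  ∀ (l1 : List α) (l2 : List β) (a : α) (b : β), l1.Nodup → l1.IsChain R → l1.head? = some a →
    l2.Nodup → l2.IsChain S → l2.head? = some b →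
    ∃ l : List (α × β), l.Nodup ∧ l.IsChain (Bx R S) ∧ l.head? = some (a, b) ∧
      (∀ p : α × β, p ∈ l ↔ p.1 ∈ l1 ∧ p.2 ∈ l2) ∧ l.length = l1.length * l2.length

/-- [Lst] (EASY) from lists to functions. `z a κ i = (l a κ).getD i (a, z0)`:
`List.isChain_iff_get` (or its present name), `List.Nodup.getElem_inj_iff`. (For `i + 1 < L` both
indices are smaller than the length.) -/
def StLst : Prop := ∀ (m f g F L : ℕ) (l : (Fin m → Bool) → Fin F → List (Cl m f g)), 0 < L →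
  (∀ a κ, (l a κ).Nodup ∧ (l a κ).IsChain RC ∧ (l a κ).head? = some (a, z0) ∧
    L ≤ (l a κ).length) →
  (∀ a a' κ κ', a ≠ a' → κ ≠ κ' → ∀ p, p ∈ l a κ → p ∉ l a' κ') →
  (∀ a κ a', a' ≠ a → (a', z0) ∉ l a κ) →
  ∃ z : (Fin m → Bool) → Fin F → ℕ → Cl m f g,
    (∀ a κ, z a κ 0 = (a, z0)) ∧
    (∀ a κ i, i + 1 < L → RC (z a κ i) (z a κ (i + 1))) ∧
    (∀ a κ i j, i < L → j < L → z a κ i = z a κ j → i = j) ∧
    (∀ a κ i a', 0 < i → i < L → z a κ i ≠ (a', z0)) ∧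
    ∀ a a' κ κ' i j, a ≠ a' → κ ≠ κ' → i < L → j < L → z a κ i ≠ z a' κ' j

/-- [Col] (MEDIUM) disjoint long paths in a column. (hHam : StHam) (hBou : StBou)
Proof. If `2 ^ f - 2 = 0` the hypotheses `0 < L ≤ 0` contradict each other, so `2 ≤ f`. Let
`p 0 = 0, p 1, p 2, ..` be the Hamiltonian path of `Fin f → Bool` from `0`, `H` the one of
`Fin m → Bool` from `0`, `γ κ` (`κ < F ≤ 2 ^ g`) distinct elements of `Fin g → Bool`,
`K = 2 ^ m / F` (so `0 < K`, `F * K ≤ 2 ^ m`), `I κ` the list of the `K` consecutive elements of `H`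
from the position `κ * K`, `c κ` its first element; the lists `I κ` are pairwise disjoint. The list
`l a κ` consists of three parts:
(E) `(a, p 0, x)`, `x` in the part of a Hamiltonian path of `Fin g → Bool` from `0` up to `γ κ`;
(R) `(y, p 1, γ κ)`, `y` in the part of a Hamiltonian path of `Fin m → Bool` from `a` up to `c κ`;
(W) the boustrophedon (`StBou`, twice) of `I κ` and of [`p 2, p 3, ..` and a Hamiltonian path of
`Fin g → Bool` from `γ κ`], from `(c κ, p 2, γ κ)`, with `K * ((2 ^ f - 2) * 2 ^ g) ≥ L` elements.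
The last vertex of (E) is `(a, p 0, γ κ)`, the first of (R) is `(a, p 1, γ κ)`; the last of (R) is
`(c κ, p 1, γ κ)`. The three parts have different second components, so `l a κ` has no repetition; it
starts at `(a, z0)`, and it contains no other `(a', z0)` (second component `0 = p 0`, so part (E), so
`a' = a`). For `a ≠ a'`, `κ ≠ κ'` the parts (E), (E) differ in `a`; (R), (R) in `γ κ`; (W), (W) in
the cells; different parts in the second component. -/
def StCol : Prop := ∀ m f g F L : ℕ, 0 < F → F ≤ 2 ^ g → 0 < L →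
  L ≤ 2 ^ m / F * ((2 ^ f - 2) * 2 ^ g) →
  ∃ l : (Fin m → Bool) → Fin F → List (Cl m f g),
    (∀ a κ, (l a κ).Nodup ∧ (l a κ).IsChain RC ∧ (l a κ).head? = some (a, z0) ∧
      L ≤ (l a κ).length) ∧
    (∀ a a' κ κ', a ≠ a' → κ ≠ κ' → ∀ p, p ∈ l a κ → p ∉ l a' κ') ∧
    (∀ a κ a', a' ≠ a → (a', z0) ∉ l a κ)

/-- [Map] (EASY-MEDIUM) the final map on the contracted tree. (hCol : StCol) (hLst : StLst)
Proof. Take `z` from `StLst`. Number the elements of every fibre of `Φ` on `S`: `κ s : Fin F` with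
`κ s ≠ κ t` for `s ≠ t` in `S` with `Φ s = Φ t`. Let `h s : Bool` be the parity of the number of
`t < s.length` with `s.take t ∈ D`; so `h (s ++ [e]) = h s` if `s ∉ D` and `!h s` if `s ∈ D`. Put
`Θ s i = (Φ s, z (ψ s) (κ s) i, h s)` for `i < L` and `(Φ s, z (ψ s) (κ s) (2 L - 1 - i), !h s)` for
`L ≤ i`. Injectivity: let `Θ s i = Θ t j`, so `Φ s = Φ t` and `z (ψ s) (κ s) i' = z (ψ t) (κ t) j'`,
`i' = i` or `2 L - 1 - i`. If `s ≠ t` then `ψ s ≠ ψ t` (`Emb.inj`) and `κ s ≠ κ t`, contradiction. So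
`s = t`, `i' = j'`, and the last component tells whether `i < L`; so `i = j` (for `i, j ≠ 0` this is
clear, also if one of them is `0`: `0 < L`). Edges: `i + 1 < L`: `RC`, same half. `i + 1 = L`: the
same point of the column (`2 L - 1 - L = L - 1`), the half changes. `L ≤ i`: `RC` backwards (`RC` is
symmetric). Last claim: `Θ s (2 L - 1) = (Φ s, (ψ s, z0), !h s)` for `s ∈ D`, `Θ s 0 =
(Φ s, (ψ s, z0), h s)`, `Θ (s ++ [e]) 0 = (Φ (s ++ [e]), (ψ (s ++ [e]), z0), h (s ++ [e]))`, and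
`Emb.adj`. -/
def StMap : Prop := ∀ (k m f g F L : ℕ) (S D : Finset (List Bool))
  (Φ : List Bool → Fin k → Bool) (ψ : List Bool → Fin m → Bool), Bd.PrefClosed S → D ⊆ S →
  Emb S Φ ψ → Fib S Φ F → 0 < F → F ≤ 2 ^ g → 0 < L →
  L ≤ 2 ^ m / F * ((2 ^ f - 2) * 2 ^ g) →
  ∃ Θ : List Bool → ℕ → Wh k m f g,
    (∀ s ∈ S, ∀ t ∈ S, ∀ i j, i < 2 * L → j < 2 * L → (i ≠ 0 → s ∈ D) → (j ≠ 0 → t ∈ D) →
      Θ s i = Θ t j → s = t ∧ i = j) ∧
    (∀ s ∈ D, ∀ i, i + 1 < 2 * L → RW (Θ s i) (Θ s (i + 1))) ∧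
    ∀ s e, s ++ [e] ∈ S → RW (Θ s (if s ∈ D then 2 * L - 1 else 0)) (Θ (s ++ [e]) 0)

/-- [Cub] (EASY) the product of cubes is a cube. Identify `Fin n` with
`Fin k ⊕ (Fin m ⊕ (Fin f ⊕ (Fin g ⊕ Unit)))` (same cardinality); `c p` = the corresponding
function. -/
def StCub : Prop := ∀ k m f g n : ℕ, n = k + m + f + g + 1 →
  ∃ c : Wh k m f g → Fin n → Bool, Function.Injective c ∧
    ∀ p q, RW p q → hammingDist (c p) (c q) = 1

/-- [Num] (EASY-MEDIUM) the numbers. Proof. `τ = δ / 8`; `r0 ≥ 45` with `4 / r0 ≤ δ / 8`;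
`F = ⌊aa r0⌋₊ ≥ 1`; `f` with `2 ^ (1 - f) ≤ δ / 8`, `f ≥ 2`; `g` with `F ≤ 2 ^ g`; `m ≥ m0`, `m ≥ r0`,
large (below). Let `β = m + f + g + 1 - r0`, `L = 2 ^ m / F * ((2 ^ f - 2) * 2 ^ g)` (the largest
allowed value). As `2 ^ m / F ≥ 2 ^ m / aa r0 - 1` (natural number division on the left),
`2 L ≥ 2 ^ β * (1 - 2 ^ (1 - f)) / (1 + 4 / r0) - 2 ^ (f + g + 1)
≥ 2 ^ β * (1 - δ / 8 - δ / 8 - 2 ^ (r0 - m)) ≥ 2 ^ β * (1 - δ / 2)` if `2 ^ (r0 - m) ≤ δ / 4`, and
`(1 - δ / 4) (1 - δ / 2) ≥ 1 - δ`. -/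
def StNum : Prop := ∀ δ : ℝ, 0 < δ → δ < 1 → ∃ (τ : ℝ) (r0 : ℕ), 0 < τ ∧ 45 ≤ r0 ∧
  ∀ m0 : ℕ, ∃ m f g L : ℕ, m0 ≤ m ∧ 0 < L ∧ r0 ≤ m + f + g + 1 ∧ 0 < ⌊aa r0⌋₊ ∧
    ⌊aa r0⌋₊ ≤ 2 ^ g ∧ L ≤ 2 ^ m / ⌊aa r0⌋₊ * ((2 ^ f - 2) * 2 ^ g) ∧
    (1 - δ) * 2 ^ (m + f + g + 1 - r0) ≤ (1 - 2 * τ) * (2 * L)

/-- [Str] (EASY-MEDIUM) the theorem for prefix closed sets. (hEmb : StEmb) (hDec : StDec)
(hCnt : StCnt) (hMap : StMap) (hCub : StCub) (hNum : StNum)
Proof. If `1 ≤ δ` then `T` is empty. Otherwise take `τ, r0` from `StNum`, `m0, n0'` from `StEmb`,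
`m, f, g, L` from `StNum`; `β = m + f + g + 1 - r0`, `H = 2 L`, `ε = τ / 2 ^ (H + 1 + β)`,
`n0 = n0' + β`. Let `n ≥ n0`, `n' = n - β`. By `StCnt` `(cT H T).card ≤ T.card / H +
2 ^ (H + 1) (lf T).card ≤ (1 - δ) 2 ^ β 2 ^ n' / (2 L) + τ 2 ^ n' ≤ (1 - τ) 2 ^ n'`. `StEmb` with
`cT H T` (prefix closed by `StDec`), `m`, `n'`; `StMap` with `k = n' - r0`, `S = cT H T`, `D = cD H T`,
`F = ⌊aa r0⌋₊`; `n = k + m + f + g + 1`. Finally `c v = c' (Θ (cs H T v) (ix H T v))`, with `c'` from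
`StCub`; the claims are those of `StDec` and `StMap`. -/
def StStr : Prop := ∀ δ : ℝ, 0 < δ → ∃ (ε : ℝ) (n0 : ℕ), 0 < ε ∧ ∀ n : ℕ, n0 ≤ n →
  ∀ T : Finset (List Bool), Bd.PrefClosed T → (T.card : ℝ) ≤ (1 - δ) * 2 ^ n →
  ((lf T).card : ℝ) ≤ ε * 2 ^ n → ∃ c : List Bool → Fin n → Bool,
    (∀ u ∈ T, ∀ v ∈ T, c u = c v → u = v) ∧
    ∀ v e, v ++ [e] ∈ T → hammingDist (c v) (c (v ++ [e])) = 1

/-- [Lvs] (EASY) the childless vertices have degree one. Proof. Let `f v` have no child. By the last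
hypothesis every neighbour `u` of `v` satisfies `f v = f u ++ [e]`, so `f u = (f v).dropLast` and `u` is
unique: the degree is at most one. It is not `0`, as `G` is connected with at least two vertices. -/
def StLvs : Prop := ∀ (V : Type) [Fintype V] [DecidableEq V] (G : SimpleGraph V)
  [DecidableRel G.Adj] (s : V → List Bool), G.IsTree → Function.Injective s →
  (∀ u v, G.Adj u v → (∃ e, s v = s u ++ [e]) ∨ (∃ e, s u = s v ++ [e])) →
  1 < Fintype.card V →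
    (lf (Finset.univ.image s)).card ≤ (Finset.univ.filter fun v => G.degree v = 1).card

/-- [Fin] (EASY-MEDIUM) the final statement. (hStr : StStr) (hLvs : StLvs)
(hTree : MP_bf01b2_co.TreeStr)
Proof. First claim: `ε', n0` from `StStr`, `ε = min ε' (1 / 2 ^ (n0 + 1))`. If `Fintype.card V ≤ 1` the
map to any point is an injective homomorphism. Let `Fintype.card V ≥ 2`. A tree with at least two
vertices has a vertex of degree one (`SimpleGraph.IsTree.exists_vert_degree_one_of_nontrivial` or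
its present name), so `1 ≤ ε 2 ^ n` and `n ≥ n0`. `TreeStr`, `T = univ.image s`, `StLvs`, `StStr`;
the homomorphism is `v ↦ c (s v)` (`SimpleGraph.fromRel_adj`; `hammingDist_comm`). Second claim: the
first with `δ = 1 / 2` and `n + 1` in place of `n`. -/
def StFin : Prop :=
  (∀ δ : ℝ, 0 < δ → ∃ ε : ℝ, 0 < ε ∧ ∀ n : ℕ,
    ∀ (V : Type) [Fintype V] [DecidableEq V] (G : SimpleGraph V) [DecidableRel G.Adj],
      G.IsTree → (∀ v : V, G.degree v ≤ 3) → (Fintype.card V : ℝ) ≤ (1 - δ) * 2 ^ n →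
      ((Finset.univ.filter fun v => G.degree v = 1).card : ℝ) ≤ ε * 2 ^ n →
        ∃ f : G →g SimpleGraph.fromRel (fun x y : Fin n → Bool => hammingDist x y = 1),
          Function.Injective f) ∧
  (∃ ε : ℝ, 0 < ε ∧ ∀ n : ℕ,
    ∀ (V : Type) [Fintype V] [DecidableEq V] (G : SimpleGraph V) [DecidableRel G.Adj],
      G.IsTree → (∀ v : V, G.degree v ≤ 3) → Fintype.card V ≤ 2 ^ n →
      ((Finset.univ.filter fun v => G.degree v = 1).card : ℝ) ≤ ε * 2 ^ n →
        ∃ f : G →g SimpleGraph.fromRel (fun x y : Fin (n + 1) → Bool => hammingDist x y = 1),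
          Function.Injective f)

end Pool.Agent.Work.MP_bf01b2_co.Fw
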