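import Pool.Agent.Work.MP_bf01b2_co.Fw.StmtsC

/-!
# Part E: trees whose derived tree (the tree without its leaves) has few leaves

Remove from every vertex with childless children one child; the rest `T \ Rm T` has few childless
vertices and is embedded in `Q_n`; the removed vertices go to the other half of `Q_(n+1)`, above
their parents. If there are too many vertices for this, there are few leaves and the theorem for few
leaves applies to the whole tree. Every item `X` is a statement `StX`, file `Fw/I_X.lean`, theorem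
`pr_X`; the hypotheses named in the docstring are other items (nobody waits).
-/

set_option autoImplicit false

namespace Pool.Agent.Work.MP_bf01b2_co.Fw

open Pool.Agent.Work.MP_bf01b2_co.Bd

open Classical

/-- The removed vertices: childless vertices `p ++ [e]` with a sibling; of two childless siblings
only the one with letter `true`. -/
noncomputable def Rm (T : Finset (List Bool)) : Finset (List Bool) :=
  T.filter fun v => (∀ e', v ++ [e'] ∉ T) ∧ ∃ p e, v = p ++ [e] ∧ p ++ [!e] ∈ T ∧
    (e = true ∨ ∃ e', p ++ [!e] ++ [e'] ∈ T)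

/-- The vertices which have a child and all of whose children are childless. -/
noncomputable def Pn (T : Finset (List Bool)) : Finset (List Bool) :=
  T.filter fun p => (∃ e, p ++ [e] ∈ T) ∧ ∀ e, p ++ [e] ∈ T → ∀ e', p ++ [e] ++ [e'] ∉ T

/-- [Rmv] (EASY) the properties of the removed set. Proof. (1) `T \ Rm T` is prefix closed: a proper
prefix of an element of `T` has a child in `T`, so it is not in `Rm T`. (2) Let `p ++ [true]` and
`p ++ [false]` be in `Rm T`; both are childless; from `p ++ [false] ∈ Rm T`, `p ++ [true]` has a child,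
contradiction. (3) `p ∈ T` has the child `p ++ [e]`, so it is not in `Rm T`. (4) A childless vertex
of `T` is in `Rm T` or it is a childless vertex of `T \ Rm T`. (5) Let `v` be a childless vertex of
`T \ Rm T`. It is childless in `T`: a child of `v` in `T` would be in `Rm T`, so it would have a
sibling in `T`, which is not in `Rm T` by (2), so it is in `T \ Rm T`. If `v ≠ []`, `v = p ++ [e]`,
then `p ∈ Pn T`: if the sibling `p ++ [!e]` is in `T` then, as `v ∉ Rm T`, it is childless. And
`v ↦ p` is injective: of two childless siblings one is in `Rm T`. -/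
def StRmv : Prop := ∀ T : Finset (List Bool), Bd.PrefClosed T →
  Bd.PrefClosed (T \ Rm T) ∧
  (∀ p : List Bool, p ++ [true] ∈ Rm T → p ++ [false] ∉ Rm T) ∧
  (∀ p e, p ++ [e] ∈ T → p ∉ Rm T) ∧
  (lf T).card ≤ (Rm T).card + (lf (T \ Rm T)).card ∧
  (lf (T \ Rm T)).card ≤ (Pn T).card + 1

/-- [Ext] (EASY) the removed vertices go above their parents. (hRmv : StRmv)
Proof. `c' v = Fin.cons false (c v)` if `v ∉ Rm T`, and `Fin.cons true (c v.dropLast)` if `v ∈ Rm T`.
For `v ∈ Rm T` write `v = p ++ [e]`; then `p ∈ T \ Rm T` by (3) and prefix closedness. Injectivity: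
equal first coordinates, then `c` is injective on `T \ Rm T`, and two elements of `Rm T` with the same
parent are equal by (2) of `StRmv`. Edges: `v ∉ Rm T` by (3); if `v ++ [e] ∉ Rm T` both are in
`T \ Rm T`, the Hamming distance of `Fin.cons b x` and `Fin.cons b y` is that of `x` and `y`; if
`v ++ [e] ∈ Rm T` the points are `Fin.cons false (c v)` and `Fin.cons true (c v)`. -/
def StExt : Prop := ∀ (n : ℕ) (T : Finset (List Bool)) (c : List Bool → Fin n → Bool),
  Bd.PrefClosed T → (∀ u ∈ T \ Rm T, ∀ v ∈ T \ Rm T, c u = c v → u = v) →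
  (∀ v e, v ++ [e] ∈ T \ Rm T → hammingDist (c v) (c (v ++ [e])) = 1) →
  ∃ c' : List Bool → Fin (n + 1) → Bool,
    (∀ u ∈ T, ∀ v ∈ T, c' u = c' v → u = v) ∧
    ∀ v e, v ++ [e] ∈ T → hammingDist (c' v) (c' (v ++ [e])) = 1

/-- [Cat] (EASY-MEDIUM) the theorem for prefix closed sets. (hStr : StStr) (hRmv : StRmv)
(hExt : StExt)
Proof. `ε1, n1` from `StStr` with `δ = 1 / 2`, `ε2, n2` from `StStr` with `δ = ε1`;
`ε = min ε1 ε2`, `n0 = max n1 n2`. If `(lf T).card ≤ ε1 * 2 ^ (n + 1)` use `StStr` (`δ = 1 / 2`) for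
`n + 1`. Otherwise, by `StRmv`, `(lf (T \ Rm T)).card ≤ (Pn T).card + 1 ≤ ε * 2 ^ n` and
`(Rm T).card ≥ 2 ε1 2 ^ n - ε 2 ^ n ≥ ε1 2 ^ n`, so `(T \ Rm T).card ≤ (1 - ε1) 2 ^ n`. `StStr`
(`δ = ε1`) for `n` and `T \ Rm T`, and `StExt`. -/
def StCat : Prop := ∃ (ε : ℝ) (n0 : ℕ), 0 < ε ∧ ∀ n : ℕ, n0 ≤ n →
  ∀ T : Finset (List Bool), Bd.PrefClosed T → (T.card : ℝ) ≤ 2 ^ n →
  ((Pn T).card + 1 : ℝ) ≤ ε * 2 ^ n → ∃ c : List Bool → Fin (n + 1) → Bool,
    (∀ u ∈ T, ∀ v ∈ T, c u = c v → u = v) ∧
    ∀ v e, v ++ [e] ∈ T → hammingDist (c v) (c (v ++ [e])) = 1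

/-- [Pnl] (EASY-MEDIUM) the vertices of `Pn` are leaves of the derived tree. Proof. Let
`T = Finset.univ.image s`. (1) Let `p ∈ Pn T`, `p ≠ []`, `p = s v`. As in `Fw/I_Lvs.lean`: a neighbour
`u` of `v` has `s u = s v ++ [e]` or `s v = s u ++ [e]`, so `s u = p.dropLast`. In the first case `s u` is
childless, so `G.degree u ≤ 1` (`I_Lvs`). So `v` has at most one neighbour of degree `≥ 2`. Moreover
`v` has degree `≥ 2`: it has the neighbour `u` with `s u = p ++ [e]`, and the neighbour `u'` with
`s u' = p.dropLast` (if `v` had no neighbour `u'` with shorter string, then all strings of the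
component of `v` would extend `p`; but `[] = s w` for some `w`, `G` is connected). So
`Pn T ⊆ s '' (..) ∪ {[]}`. (2) If `3 ≤ Fintype.card V` then the set on the right is not empty: let
`w` be a longest string in `T`, `w ≠ []`, `p = w.dropLast`; all children of `p` are childless, so
`p ∈ Pn T`. If `p ≠ []` use (1). If `p = []` then `T ⊆ {[], [true], [false]}`, so `T` has the three
elements and the root has two neighbours, both of degree `1`. -/
def StPnl : Prop := ∀ (V : Type) [Fintype V] [DecidableEq V] (G : SimpleGraph V)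
  [DecidableRel G.Adj] (s : V → List Bool), G.IsTree → Function.Injective s →
  (∀ (v : V) (k : ℕ), ∃ u, s u = (s v).take k) →
  (∀ u v, G.Adj u v → (∃ e, s v = s u ++ [e]) ∨ (∃ e, s u = s v ++ [e])) →
  (Pn (Finset.univ.image s)).card ≤ (Finset.univ.filter fun v =>
    2 ≤ G.degree v ∧ ((G.neighborFinset v).filter fun u => 2 ≤ G.degree u).card ≤ 1).card + 1 ∧
  (3 ≤ Fintype.card V → 1 ≤ (Finset.univ.filter fun v =>
    2 ≤ G.degree v ∧ ((G.neighborFinset v).filter fun u => 2 ≤ G.degree u).card ≤ 1).card)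

/-- [Cfn] (EASY-MEDIUM) the final statement: the next-to-optimal hypercube for trees whose derived
tree has few leaves. (hCat : StCat) (hPnl : StPnl) (hTree : MP_bf01b2_co.TreeStr)
Proof. `ε', n0'` from `StCat`; `n0 ≥ n0'` with `4 ≤ ε' * 2 ^ n0`; `ε = min (ε' / 2) (1 / 2 ^ (n0 + 1))`.
If `Fintype.card V ≤ 2`: let `b : V → Bool` be injective and `f v` the point with first coordinate
`b v` and the other coordinates `false`; adjacent vertices are different, so their images differ in
exactly one coordinate. If `3 ≤ Fintype.card V` then `1 ≤ ε * 2 ^ n` by `StPnl`, so `n0 ≤ n`. `TreeStr`,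
`T = univ.image s`; `(Pn T).card + 1 ≤ ε * 2 ^ n + 2 ≤ ε' * 2 ^ n`; `StCat`; the homomorphism is
`v ↦ c (s v)` as in `Fw/I_Fin.lean`. -/
def StCfn : Prop := ∃ ε : ℝ, 0 < ε ∧ ∀ n : ℕ,
  ∀ (V : Type) [Fintype V] [DecidableEq V] (G : SimpleGraph V) [DecidableRel G.Adj],
    G.IsTree → (∀ v : V, G.degree v ≤ 3) → Fintype.card V ≤ 2 ^ n →
    ((Finset.univ.filter fun v => 2 ≤ G.degree v ∧
      ((G.neighborFinset v).filter fun u => 2 ≤ G.degree u).card ≤ 1).card : ℝ) ≤ ε * 2 ^ n →
      ∃ f : G →g SimpleGraph.fromRel (fun x y : Fin (n + 1) → Bool => hammingDist x y = 1),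
        Function.Injective f

end Pool.Agent.Work.MP_bf01b2_co.Fw
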