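import Pool.Agent.Work.MP_bf01b2_co.Fw.Defs

/-!
# Trees with few leaves, part L: the lossless core

The landed files `Bd/MZ.lean`, `Bd/MK.lean`, `Bd/LD.lean`, `Bd/IT.lean`, `Bd/NU.lean`, `Bd/CO.lean`,
`Bd/AS.lean` with the base `1 + q` instead of `2` and with `r0` instead of `45`. Every item `X` is a
statement `StX`, file `Fw/I_X.lean`, theorem `pr_X`. START FROM A COPY of the landed file.
The landed statements `ProbS`, `Peel`, `IndZ`, `Supp`, `Near`, .. are in `Bd/Stmts.lean`.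
-/

set_option autoImplicit false

namespace Pool.Agent.Work.MP_bf01b2_co.Fw

open Pool.Agent.Work.MP_bf01b2_co.Bd

open Classical

/-- [MomL] (EASY-MEDIUM, copy of `Bd/MZ.lean`) exponential moment with base `1 + q`. (h : ProbS)
Proof. `(1 + q) ^ X` is the sum of `q ^ |S|` over the subsets `S` of `Nz` all of whose elements are
matched. With `θ = 1 / Z`, `y = q * θ ^ (B - 1)`, `ProbS` gives the bound
`(θ * (1 + y) ^ N + (1 - θ)) * card`, `N = |Nz|`. Here `N ≤ 2 ^ (5 s (B + 1))` (`mz_count`), so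
`N * θ ^ (B - 1) ≤ q` and `N * y ≤ q ^ 2 ≤ q ≤ 1`; `exp t ≤ 1 + t + t ^ 2` on `[0, 1]`, so
`(1 + y) ^ N ≤ 1 + N y (1 + q)`, and `θ * N * y = q * N * θ ^ B`. -/
def StMomL : Prop := ∀ q : ℝ, 0 < q → q ≤ 1 → ∀ (s B : ℕ) (T : Finset (List Bool)) (o0 : Opt s)
  (x : ℕ × ℕ → ZMod 2) (w z : List Bool), 0 < s → 2 ≤ B → Bd.PrefClosed T → w.length ≤ 4 →
  z.length % (5 * s) = 0 → (2 : ℝ) ^ (5 * s * (B + 1)) ≤ q * (Z s : ℝ) ^ (B - 1) →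
  ∀ ω : {y // y ∈ T} → Opt s,
    ∑ η : {y // y ∈ T} → Opt s, (1 + q) ^ Xz B T o0 x w z (mix (Rz s B T z) η ω) ≤
      (1 + q * (1 + q) * ((Nz s B T w z).card * (1 / (Z s : ℝ)) ^ B)) *
        Fintype.card ({y // y ∈ T} → Opt s)

/-- [SumL] (MEDIUM, copy of `Bd/MK.lean`) (h1 : Peel) (h2 : StMomL) (h3 : IndZ) (h4 : Supp)
Proof. As there; `M = (∑ |Nz|) * θ ^ B`, `λ = (1 + q) ^ 2 M + (2 / q) (2 n + 10)`. The product of the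
moments is `≤ exp (q (1 + q) M) * card`. If `∑ Xz > λ` then, as `log (1 + q) ≥ q / (1 + q)`,
`(1 + q) ^ (∑ Xz) ≥ exp (λ q / (1 + q)) ≥ exp (q (1 + q) M) * exp (2 n + 10)` (`2 / (1 + q) ≥ 1`) and
`exp (2 n + 10) ≥ 2 ^ (2 n + 10)`. So the number of bad `η` times `2 ^ (2 n + 10)` is at most
`card`; the union bound over `(x, w, ρ)` is unchanged. -/
def StSumL : Prop := ∀ q : ℝ, 0 < q → q ≤ 1 → ∀ (s B n : ℕ) (T : Finset (List Bool))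
  (o0 : Opt s), 0 < s → 2 ≤ B → Bd.PrefClosed T → 7 * s * B ≤ n →
  (2 : ℝ) ^ (5 * s * (B + 1)) ≤ q * (Z s : ℝ) ^ (B - 1) →
  ∃ η : {y // y ∈ T} → Opt s, ∀ (x : ℕ × ℕ → ZMod 2) (w : List Bool), w.length ≤ 4 →
    ∀ ρ < B + 1,
      ((∑ z ∈ T.filter (fun z => z.length % (5 * s) = 0 ∧ z.length / (5 * s) % (B + 1) = ρ),
        Xz B T o0 x w z η : ℕ) : ℝ) ≤
      (1 + q) ^ 2 * ((∑ z ∈ T.filter (fun z => z.length % (5 * s) = 0 ∧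
        z.length / (5 * s) % (B + 1) = ρ), (Nz s B T w z).card : ℕ) : ℝ) *
          (1 / (Z s : ℝ)) ^ B + 2 / q * (2 * n + 10)

/-- [LdL] (MEDIUM, copy of `Bd/LD.lean`) the lossless load. (h1 : StSumL) (h2 : Near)
Proof. As there, but the sum over the 31 words `w` is not estimated word by word:
`∑ w, ∑ ρ, ∑ z, |Nz s B T w z| ≤ T.card` (the map `(w, ρ, z, β) ↦ β ++ w` is injective, because
`β.length` is divisible by `5` and `w.length ≤ 4`, and `β ++ w ∈ T`). So a fibre has at most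
`31 + (1 + q) ^ 2 * T.card * θ ^ B + 31 (B + 1) (2 / q) (2 n + 10)` elements,
`θ ^ B ≤ (1 + q) / 2 ^ (7 s B)`, and `31 ≤ (31 / q) (B + 1) (2 n + 10)`. -/
def StLdL : Prop := ∀ q : ℝ, 0 < q → q ≤ 1 → ∀ (s B n : ℕ) (T : Finset (List Bool)), 0 < s →
  2 ≤ B → Bd.PrefClosed T → 7 * s * B ≤ n →
  (2 : ℝ) ^ (5 * s * (B + 1)) ≤ q * (Z s : ℝ) ^ (B - 1) →
  (2 : ℝ) ^ (7 * s * B) ≤ (1 + q) * (Z s : ℝ) ^ B →
    ∃ ω : List Bool → Opt s, FibLe T (Bd.P B ω)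
      ((1 + q) ^ 3 * T.card / 2 ^ (7 * s * B) + 93 / q * (B + 1) * (2 * n + 10))

/-- [ItL] (EASY, copy of `Bd/IT.lean`) the halving steps down to `r0`. (h1 : Half) (h2 : RulThm)
Proof. As there with `r0` in place of `45` (`Half` is used for `r = r0 + c`, `46 ≤ r`,
`20 c ^ 2 ≤ 20 r ^ 2`); start with `2 ^ r1 ≤ aa r1`; end with `aa r0`. -/
def StItL : Prop := ∀ (s B r0 r1 : ℕ) (T : Finset (List Bool)) (ω : List Bool → Opt s),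
  Bd.PrefClosed T → 45 ≤ r0 → r0 ≤ r1 → NearD T (Bd.P B ω) (20 * (r1 - r0) ^ 2) →
  FibLe T (Bd.P B ω) (2 ^ r1) → ∃ κ : ℕ → List Bool → Bool, FibLe T (Ph B (r1 - r0) ω κ) (aa r0)

/-- [PaL] (MEDIUM, copy of `Bd/NU.lean`) choice of the parameters. (h : ZLow)
Proof. We may assume `q ≤ 1`. Choose `c` with `4 ≤ c`, `r0 ≤ c`, `16 / q ≤ 2 ^ c`,
`24 * A ≤ 2 ^ c`. For large `n` let `L = Nat.log 2 n + 1`, `s = 10 (L + c)`,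
`B = (n - 2 L - c) / (7 s)`. The lemma `nu_Z` becomes `2 ^ (7 s k) * (1 - q / 8) ≤ Z ^ k` for
`k ≤ 2 ^ L` (there `k δ ≤ 2 * 2 ^ (-c) ≤ q / 8`), and `(1 + q) (1 - q / 8) ≥ 1`. First inequality:
`7 s (B - 1) - 5 s (B + 1) ≥ 2 s` for `B ≥ 7` and `2 ^ (2 s) * q * (1 - q / 8) ≥ 1`. Third:
`A (B + 1) (2 n + 10) ≤ 24 A n ^ 2 ≤ 2 ^ (2 L + c) ≤ 2 ^ (n - 7 s B)`. Fourth:
`n - 7 s B ≤ 72 (L + c)`, and `n` is large compared with `(L + c) ^ 2`. -/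
def StPaL : Prop := ∀ (q A : ℝ) (r0 : ℕ), 0 < q → ∃ n0 : ℕ, ∀ n : ℕ, n0 ≤ n → ∃ s B : ℕ,
  0 < s ∧ 4 ≤ B ∧ 7 * s * B + r0 ≤ n ∧
  (2 : ℝ) ^ (5 * s * (B + 1)) ≤ q * (Z s : ℝ) ^ (B - 1) ∧
  (2 : ℝ) ^ (7 * s * B) ≤ (1 + q) * (Z s : ℝ) ^ B ∧
  A * (B + 1) * (2 * n + 10) ≤ 2 ^ (n - 7 * s * B) ∧
  20 * (n - 7 * s * B) ^ 2 ≤ (B - 2) * (5 * s)

/-- [CoL] (EASY-MEDIUM, copy of `Bd/CO.lean`) the core. (h1 : StPaL) (h2 : StLdL) (h3 : NearP)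
(h4 : StItL) (h5 : LocP) (h6 : Finish) (h7 : EdgeP) (h8 : EdgeB)
Proof. If `1 < τ` the hypothesis on `T` is impossible; let `τ ≤ 1`, `q = τ / 8`,
`A = 186 / (q τ)`, `n0` from `StPaL`, `m0 = 2 ^ 10 * ⌊aa r0⌋₊ + 1`. The bound of `StLdL` is
`(1 + q) ^ 3 (1 - τ) 2 ^ (n - 7 s B) + (τ / 2) 2 ^ (n - 7 s B) ≤ 2 ^ (n - 7 s B)`, because
`(1 + q) ^ 3 ≤ 1 + τ / 2`. Then `r1 = n - 7 s B`, `I = r1 - r0`, `StItL` (`NearP` with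
`D = 20 I ^ 2`), `LocP` (`NearP` with `D = 10`), `Finish` with `F = ⌊aa r0⌋₊` (a fibre is a natural
number `≤ aa r0`) and this `m`. -/
def StCoL : Prop := ∀ (τ : ℝ) (r0 : ℕ), 0 < τ → 45 ≤ r0 → ∃ m0 n0 : ℕ, ∀ m n : ℕ, m0 ≤ m →
  n0 ≤ n → r0 ≤ n ∧ ∀ T : Finset (List Bool), Bd.PrefClosed T →
  (T.card : ℝ) ≤ (1 - τ) * 2 ^ n →
  ∃ (s B I : ℕ) (ω : List Bool → Opt s) (κ : ℕ → List Bool → Bool)
    (ψ : List Bool → Fin m → ZMod 2), 0 < s ∧ 0 < B ∧ 7 * s * B + I = n - r0 ∧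
    FibLe T (Ph B I ω κ) (aa r0) ∧
    (∀ y e, y ++ [e] ∈ T → Ph B I ω κ (y ++ [e]) ≠ Ph B I ω κ y → ψ (y ++ [e]) = ψ y) ∧
    (∀ y e, y ++ [e] ∈ T → Ph B I ω κ (y ++ [e]) = Ph B I ω κ y →
      ∃ c, ψ (y ++ [e]) = ψ y + Pi.single c 1) ∧
    ∀ u ∈ T, ∀ v ∈ T, Ph B I ω κ u = Ph B I ω κ v → ψ u = ψ v → u = v

/-- [Emb] (MEDIUM, copy of the proof of `assemble` in `Bd/AS.lean`, case `n0 ≤ n`) the lossless
core in a product of two cubes. (h1 : StCoL) (h3 : EdgeP) (h4 : EdgeB) (h5 : Supp)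
Proof. Identify `(Fin B × Fin (7 * s)) ⊕ Fin I` with `Fin (n - r0)` (same cardinality);
`Φ v` = the bits `P B ω v (b, j) = 1` and `(Ph B I ω κ v).2 (c + 1)`, `ψ' v c = (ψ v c = 1)`.
`Φ u = Φ v` iff `Ph B I ω κ u = Ph B I ω κ v` (`Supp`), which gives the fibres and the injectivity.
An edge changes exactly one coordinate: as in `assemble`. -/
def StEmb : Prop := ∀ (τ : ℝ) (r0 : ℕ), 0 < τ → 45 ≤ r0 → ∃ m0 n0 : ℕ, ∀ m n : ℕ, m0 ≤ m →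
  n0 ≤ n → r0 ≤ n ∧ ∀ T : Finset (List Bool), Bd.PrefClosed T →
  (T.card : ℝ) ≤ (1 - τ) * 2 ^ n →
  ∃ (Φ : List Bool → Fin (n - r0) → Bool) (ψ : List Bool → Fin m → Bool),
    Emb T Φ ψ ∧ Fib T Φ ⌊aa r0⌋₊

end Pool.Agent.Work.MP_bf01b2_co.Fw
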